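import Mathlib

/-!
Definitions for MP_98b928_an (umbel convexity and the property (beta_q)).
-/

namespace Pool.Agent.H53.Umb

open Filter Topology
open scoped ENNReal

/-- `Below A B`: every element of `A` is smaller than every element of `B`. -/
def Below (A B : Finset ℕ) : Prop := ∀ a ∈ A, ∀ b ∈ B, a < b

/-- The left side of the umbel inequality of order `k` for `f` on the finite subsets of `ℕ`. -/
noncomputable def umbelL {X : Type*} [PseudoEMetricSpace X] (p : ℝ) (k : ℕ)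
    (f : Finset ℕ → X) : ℝ≥0∞ :=
  ∑ s ∈ Finset.Icc 1 (k - 1), (2 ^ (k - 1 - s) : ℝ≥0∞)⁻¹ *
    ∑ t ∈ Finset.Icc 1 (2 ^ (k - 1 - s)),
      ⨅ (n : Finset ℕ) (_ : n.card = t * 2 ^ (s + 1) - 2 ^ s),
      ⨅ (δ : Finset ℕ) (_ : δ.card = 2 ^ s ∧ Below n δ),
        liminf (fun j : ℕ =>
          ⨅ (η : Finset ℕ) (_ : η.card = 2 ^ s - 1 ∧ Below n {j} ∧ Below {j} η),
            edist (f (n ∪ δ)) (f (n ∪ {j} ∪ η)) ^ p / (2 ^ s : ℝ≥0∞) ^ p) atTop

/-- The right side of the umbel inequality of order `k`, without the constant. -/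
noncomputable def umbelR {X : Type*} [PseudoEMetricSpace X] (p : ℝ) (k : ℕ)
    (f : Finset ℕ → X) : ℝ≥0∞ :=
  ∑ l ∈ Finset.Icc 1 (2 ^ k),
    ⨆ (m : Finset ℕ) (j : ℕ) (_ : m.card = l - 1 ∧ Below m {j}),
      edist (f m) (f (m ∪ {j})) ^ p

/-- The space is umbel `p`-convex with the constant `P`. -/
def UmbelIneq (p P : ℝ) (X : Type*) [PseudoEMetricSpace X] : Prop :=
  ∀ k : ℕ, 1 ≤ k → ∀ f : Finset ℕ → X,
    umbelL p k f ≤ ENNReal.ofReal (P ^ p) / 2 ^ k * umbelR p k f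

/-- The space is umbel `p`-convex. -/
def UmbelConvex (p : ℝ) (X : Type*) [PseudoEMetricSpace X] : Prop :=
  ∃ P : ℝ, 0 < P ∧ UmbelIneq p P X

section Norms

variable {X : Type*} [NormedAddCommGroup X] [NormedSpace ℝ X]

/-- `N` is equivalent to the given norm. -/
def EquivNorm (N : Seminorm ℝ X) : Prop :=
  ∃ a b : ℝ, 0 < a ∧ 0 < b ∧ ∀ x, a * ‖x‖ ≤ N x ∧ N x ≤ b * ‖x‖

/-- Property `(beta_q)` for the norm `N`. -/
def HasBeta (q : ℝ) (N : Seminorm ℝ X) : Prop :=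
  ∃ c : ℝ, 0 < c ∧ ∀ t : ℝ, 0 < t → ∀ (z : X) (x : ℕ → X), N z ≤ 1 → (∀ n, N (x n) ≤ 1) →
    (∀ i j, i ≠ j → t ≤ N (x i - x j)) → ∃ i, N ((1 / 2 : ℝ) • (z - x i)) ≤ 1 - t ^ q / c

end Norms

/-! ### Ultralimits -/

/-- The fixed free ultrafilter. -/
noncomputable abbrev UU : Ultrafilter ℕ := hyperfilter ℕ

/-- The ultralimit of a real sequence (meaningful if it is bounded). -/
noncomputable def ul (h : ℕ → ℝ) : ℝ := limUnder (UU : Filter ℕ) h

/-- A real function on lists is bounded on the lists of each fixed length. -/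
def Bd (h : List ℕ → ℝ) : Prop := ∃ M : ℕ → ℝ, ∀ l, |h l| ≤ M l.length

/-- The iterated ultralimit in `r` new variables, starting from the list `l`:
`lim_{i1} lim_{i2} ... lim_{ir} h (l ++ [i1, ..., ir])`. -/
noncomputable def IL : ℕ → (List ℕ → ℝ) → List ℕ → ℝ
  | 0, h, l => h l
  | r + 1, h, l => ul (fun i => IL r h (l ++ [i]))

section Dual

variable {X : Type*} [NormedAddCommGroup X] [NormedSpace ℝ X]

/-- `w` is the weak ultralimit of the sequence `a`. -/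
def WLim (a : ℕ → X) (w : X) : Prop :=
  ∀ f : StrongDual ℝ X, Tendsto (fun i => f (a i)) (UU : Filter ℕ) (𝓝 (f w))

/-- `f0` is the weak-star ultralimit of the functionals `g i`. -/
def WSLim (g : ℕ → StrongDual ℝ X) (f0 : StrongDual ℝ X) : Prop :=
  ∀ x : X, Tendsto (fun i => g i x) (UU : Filter ℕ) (𝓝 (f0 x))

/-- The functional `f` vanishes on the subspace `E`. -/
def Van (f : StrongDual ℝ X) (E : Submodule ℝ X) : Prop := ∀ y ∈ E, f y = 0

/-- An exhausting sequence of finite dimensional subspaces with dense union. -/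
structure Exh (F : ℕ → Submodule ℝ X) : Prop where
  mono : Monotone F
  fin : ∀ n, FiniteDimensional ℝ (F n)
  dense : ∀ (x : X) (r : ℝ), 0 < r → ∃ n, ∃ y ∈ F n, ‖x - y‖ < r

/-- The derived sets of the dual ball (Szlenk type derivation). -/
def Rk (F : ℕ → Submodule ℝ X) (γ : ℝ) : ℕ → Set (StrongDual ℝ X)
  | 0 => Metric.closedBall 0 1
  | j + 1 => {f | f ∈ Rk F γ j ∧ ∀ (M : ℕ) (r : ℝ), 0 < r →
      ∃ g ∈ Rk F γ j, ∃ g' ∈ Rk F γ j, (∀ y ∈ F M, |g y - f y| ≤ r * ‖y‖) ∧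
        (∀ y ∈ F M, |g' y - f y| ≤ r * ‖y‖) ∧ γ ≤ ‖g - g'‖}

/-- The properties of the set `B` (between the dual ball and twice the dual ball) which are used:
weak-star closed, and a weak-star limit at distance `1/2` may be multiplied by `σ`. -/
structure GoodSet (B : Set (StrongDual ℝ X)) (σ : ℝ) : Prop where
  one_lt : 1 < σ
  ball_sub : Metric.closedBall 0 1 ⊆ B
  sub_ball : B ⊆ Metric.closedBall 0 2
  closed : ∀ (g : ℕ → StrongDual ℝ X) (f : StrongDual ℝ X), (∀ i, g i ∈ B) → WSLim g f → f ∈ B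
  expand : ∀ (g : ℕ → StrongDual ℝ X) (f : StrongDual ℝ X), (∀ i, g i ∈ B) → WSLim g f →
    (∀ i, 1 / 2 ≤ ‖g i - f‖) → σ • f ∈ B

/-- The sequence `γ` lies in `B` and is norm dense in `B ∩ (F M)^⊥` for every `M`. -/
structure Codes (F : ℕ → Submodule ℝ X) (B : Set (StrongDual ℝ X))
    (γ : ℕ → StrongDual ℝ X) : Prop where
  mem : ∀ c, γ c ∈ B
  dense : ∀ (M : ℕ) (f : StrongDual ℝ X) (r : ℝ), f ∈ B → Van f (F M) → 0 < r →
    ∃ c, Van (γ c) (F M) ∧ ‖γ c - f‖ ≤ r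

end Dual

/-- `h` is a legal history for the strategy `Φ`: each code `c` in `h`, played after the initial
part `h'`, satisfies `G (Φ h') c`. -/
def Legal (G : ℕ → ℕ → Prop) (Φ : List ℕ → ℕ) (h : List ℕ) : Prop :=
  ∀ (h' : List ℕ) (c : ℕ), (h' ++ [c]) <+: h → G (Φ h') c

/-- The list of the values of `c` at the nonempty initial parts of `l`. -/
def path {α : Type*} (c : List ℕ → α) (l : List ℕ) : List α :=
  (List.range l.length).map (fun j => c (l.take (j + 1)))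

/-- The strategy `Φ` is good up to the length `K`: it dominates the codes, and legal histories of
length `≤ K` satisfy `Q`. -/
structure GoodStrat (G : ℕ → ℕ → Prop) (Q : List ℕ → Prop) (K : ℕ) (Φ : List ℕ → ℕ) : Prop where
  code_le : ∀ (h : List ℕ) (c : ℕ), c ∈ h → c ≤ Φ h
  good : ∀ h : List ℕ, Legal G Φ h → h.length ≤ K → Q h

/-- The properties of the potential function at the scale `s`, with the constants `C`, `c`. -/
structure Potential {X : Type*} [NormedAddCommGroup X] [NormedSpace ℝ X] (p C c s : ℝ)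
    (E : X → ℝ) : Prop where
  convex : ConvexOn ℝ Set.univ E
  zero : E 0 = 0
  nonneg : ∀ x, 0 ≤ E x
  lip : ∀ x y, |E x - E y| ≤ C * s ^ (1 - p) * ‖x - y‖
  gain : ∀ ε : ℝ, s ≤ c * ε → ∀ (z : X) (w : ℕ → X), ‖z‖ ≤ 1 → (∀ i, ‖w i‖ ≤ 1) →
    (∀ i j, i ≠ j → ε ≤ ‖w i - w j‖) →
    ∃ i, E ((1 / 2 : ℝ) • (z + w i)) ≤ 1 / 2 * E z + 1 / 2 * E (w i) - c * s

end Pool.Agent.H53.Umb
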