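import Pool.Agent.H53.Umb.IL

/-!
The diagonal lemma: along a suitable `φ : ℕ → ℕ` all values at increasing tuples are close to the
iterated ultralimit.
-/

namespace Pool.Agent.H53.Umb

open Filter Topology

theorem exists_pick {ι : Type*} (S : Finset ι) (r : ι → ℕ) (h : ι → List ℕ → ℝ)
    (hb : ∀ i ∈ S, Bd (h i)) {ε : ℝ} (hε : 0 < ε) (T : Finset (List ℕ)) :
    ∃ n : ℕ, ∀ l ∈ T, ∀ i ∈ S, l.length < r i →
      |IL (r i - (l.length + 1)) (h i) (l ++ [n]) - IL (r i - l.length) (h i) l| ≤ ε := by
  have key : ∀ᶠ n in (UU : Filter ℕ), ∀ l ∈ T, ∀ i ∈ S, l.length < r i →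
      |IL (r i - (l.length + 1)) (h i) (l ++ [n]) - IL (r i - l.length) (h i) l| ≤ ε := by
    rw [Filter.eventually_all_finset]
    intro l _
    rw [Filter.eventually_all_finset]
    intro i hi
    by_cases hl : l.length < r i
    · obtain ⟨q, hq⟩ : ∃ q, r i = l.length + 1 + q := ⟨r i - (l.length + 1), by omega⟩
      have e1 : r i - (l.length + 1) = q := by omega
      have e2 : r i - l.length = q + 1 := by omega
      rw [e1, e2]
      obtain ⟨a', h1, h2⟩ := ril_il (r := q + 1) (hb i hi) l
      have h3 : ∀ᶠ n in (UU : Filter ℕ), dist (a' n) (IL (q + 1) (h i) l) < ε :=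
        (Metric.tendsto_nhds.mp h2) ε hε
      filter_upwards [h3] with n hn _
      rw [(h1 n).il_eq]
      exact hn.le
    · exact Filter.univ_mem' fun n h' => absurd h' hl
  exact key.exists

/-- Increasing lists. -/
def Inc (x : List ℕ) : Prop := x.Pairwise (· < ·)

theorem exists_diag {ι : Type*} (S : Finset ι) (r : ι → ℕ) (h : ι → List ℕ → ℝ)
    (hb : ∀ i ∈ S, Bd (h i)) {ε : ℝ} (hε : 0 < ε) :
    ∃ φ : ℕ → ℕ, ∀ i ∈ S, ∀ x : List ℕ, Inc x → x.length = r i →
      |h i (x.map φ) - IL (r i) (h i) []| ≤ ε := by
  classical
  set N : ℕ := ∑ i ∈ S, r i with hN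
  set e : ℝ := ε / (N + 1) with he
  have hN0 : (0 : ℝ) < (N : ℝ) + 1 := by positivity
  have he0 : 0 < e := div_pos hε hN0
  choose pick hpick using exists_pick S r h hb he0
  let St : ℕ → Finset (List ℕ) := fun n =>
    Nat.rec {[]} (fun _ T => T ∪ T.image (fun l => l ++ [pick T])) n
  have St0 : St 0 = {[]} := rfl
  have StS : ∀ n, St (n + 1) = St n ∪ (St n).image (fun l => l ++ [pick (St n)]) := fun _ => rfl
  let φ : ℕ → ℕ := fun n => pick (St n)
  have hmono : ∀ n, St n ⊆ St (n + 1) := fun n => by
    rw [StS]; exact Finset.subset_union_left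
  have hmem : ∀ n (x : List ℕ), Inc x → (∀ y ∈ x, y < n) → x.map φ ∈ St n := by
    intro n
    induction n with
    | zero =>
      intro x _ hx'
      have : x = [] := by
        cases x with
        | nil => rfl
        | cons a t => exact absurd (hx' a (by simp)) (by omega)
      subst this
      simp [St0]
    | succ n ih =>
      intro x hx hx'
      by_cases hn : n ∈ x
      · -- `n` is the last element
        obtain ⟨x', rfl⟩ : ∃ x', x = x' ++ [n] := by
          obtain ⟨u, v, rfl⟩ := List.append_of_mem hn
          have hv : v = [] := by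
            cases v with
            | nil => rfl
            | cons b t =>
              exfalso
              have h1 : n < b := by
                have := (List.pairwise_append.mp hx).2.1
                exact (List.pairwise_cons.mp this).1 b (by simp)
              have h2 : b < n + 1 := hx' b (by simp)
              omega
          exact ⟨u, by rw [hv]⟩
        have hx1 : Inc x' := (List.pairwise_append.mp hx).1
        have hx2 : ∀ y ∈ x', y < n := fun y hy =>
          (List.pairwise_append.mp hx).2.2 y hy n (by simp)
        rw [StS, Finset.mem_union]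
        right
        rw [Finset.mem_image]
        exact ⟨x'.map φ, ih x' hx1 hx2, by simp [φ]⟩
      · refine hmono n (ih x hx fun y hy => ?_)
        have h1 := hx' y hy
        have h2 : y ≠ n := fun h => hn (h ▸ hy)
        omega
  refine ⟨φ, fun i hi x hx hl => ?_⟩
  have main : ∀ x : List ℕ, Inc x → x.length ≤ r i →
      |IL (r i - x.length) (h i) (x.map φ) - IL (r i) (h i) []| ≤ x.length * e := by
    intro x
    induction x using List.reverseRecOn with
    | nil => intro _ _; simp
    | append_singleton x b ih =>
      intro hx hl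
      have hx1 : Inc x := (List.pairwise_append.mp hx).1
      have hx2 : ∀ y ∈ x, y < b := fun y hy =>
        (List.pairwise_append.mp hx).2.2 y hy b (by simp)
      have hlen : x.length + 1 ≤ r i := by simpa using hl
      have h1 := ih hx1 (by omega)
      have h2 := hpick (St b) (x.map φ) (hmem b x hx1 hx2) i hi (by simp; omega)
      rw [List.length_map] at h2
      have e1 : (x ++ [b]).map φ = x.map φ ++ [φ b] := by simp
      rw [e1, List.length_append, List.length_singleton]
      have h3 : |IL (r i - (x.length + 1)) (h i) (x.map φ ++ [φ b]) -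
          IL (r i - x.length) (h i) (x.map φ)| ≤ e := h2
      push_cast
      have h4 := abs_add_le (IL (r i - (x.length + 1)) (h i) (x.map φ ++ [φ b]) -
          IL (r i - x.length) (h i) (x.map φ))
          (IL (r i - x.length) (h i) (x.map φ) - IL (r i) (h i) [])
      have h5 : IL (r i - (x.length + 1)) (h i) (x.map φ ++ [φ b]) -
          IL (r i - x.length) (h i) (x.map φ) +
          (IL (r i - x.length) (h i) (x.map φ) - IL (r i) (h i) []) =
          IL (r i - (x.length + 1)) (h i) (x.map φ ++ [φ b]) - IL (r i) (h i) [] := by ring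
      rw [h5] at h4
      linarith
  have h1 := main x hx hl.le
  rw [hl, Nat.sub_self] at h1
  have h2 : (r i : ℝ) ≤ N := by
    exact_mod_cast Finset.single_le_sum (f := r) (fun _ _ => Nat.zero_le _) hi
  have h3 : (r i : ℝ) * e ≤ ε := by
    calc (r i : ℝ) * e ≤ (N + 1) * e := by
          apply mul_le_mul_of_nonneg_right _ he0.le
          linarith
      _ = ε := by rw [he]; field_simp
  exact h1.trans h3

/-- Sorting a union of two sets in increasing position. -/
theorem sort_union {A B : Finset ℕ} (h : Below A B) : (A ∪ B).sort = A.sort ++ B.sort := by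
  have hn : (A.sort ++ B.sort).Nodup := by
    rw [List.nodup_append]
    refine ⟨Finset.sort_nodup _ _, Finset.sort_nodup _ _, fun a ha b hb hab => ?_⟩
    have := h a ((Finset.mem_sort _).mp ha) b ((Finset.mem_sort _).mp hb)
    omega
  have h1 : (A.sort ++ B.sort).toFinset = A ∪ B := by
    rw [List.toFinset_append, Finset.sort_toFinset, Finset.sort_toFinset]
  rw [← h1, (List.toFinset_sort (· ≤ ·) hn)]
  rw [List.pairwise_append]
  exact ⟨Finset.pairwise_sort _ _, Finset.pairwise_sort _ _, fun a ha b hb =>
    (h a ((Finset.mem_sort _).mp ha) b ((Finset.mem_sort _).mp hb)).le⟩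

end Pool.Agent.H53.Umb
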