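import Pool.Agent.H53.Umb.UI

/-!
MODULE WL (reflexivity). Let `‖a i‖ ≤ M` (`M ≥ 0`) and let `w2 ∈ X**` be `w2 f = lim_UU f (a i)`
(`‖w2‖ ≤ M`). Put `F l = (l.map a).sum`, increments `≤ M`. For the umbel pair `(s, t)`, with
`N = t 2^{s+1} - 2^s`, `l = n ++ δ ++ η`, the difference is `Σ_{i ∈ δ} a i - Σ_{i ∈ η} a i`
(`δ`, `η` of length `2^s`). For `f` in the unit ball of `X*` the iterated limit in the variables `η`
of `f (..)` is `f (Σ_δ a) - 2^s w2 f`, so the iterated limit of the norm is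
`≥ ‖J (Σ_δ a) - 2^s w2‖ ≥ 2^s d`, `d = dist (w2, J X)`. `UI` with `a s t = d` for every `k` gives
`(k - 1) d^p ≤ P^p M^p`, so `d = 0`; `J X` is closed (`X` complete), `w2 = J w`.
-/

namespace Pool.Agent.H53.Umb

open Filter Topology

variable {X : Type*} [NormedAddCommGroup X] [NormedSpace ℝ X]

/-- The function on the dual defined by a bounded sequence. -/
theorem exists_bidual {a : ℕ → X} {M : ℝ} (ha : ∀ i, ‖a i‖ ≤ M) :
    ∃ w2 : StrongDual ℝ X → ℝ,
      (∀ f : StrongDual ℝ X, Tendsto (fun i => f (a i)) (UU : Filter ℕ) (𝓝 (w2 f))) ∧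
      ∀ f, |w2 f| ≤ M * ‖f‖ := by
  have hM : 0 ≤ M := (norm_nonneg _).trans (ha 0)
  have hb : ∀ (f : StrongDual ℝ X) (i : ℕ), |f (a i)| ≤ M * ‖f‖ := fun f i => by
    rw [← Real.norm_eq_abs, mul_comm]
    exact (f.le_opNorm (a i)).trans (mul_le_mul_of_nonneg_left (ha i) (norm_nonneg _))
  exact ⟨fun f => ul fun i => f (a i), fun f => tendsto_ul (hb f), fun f => abs_ul_le (hb f)⟩

theorem ril_sum {a : ℕ → X} {w2 : StrongDual ℝ X → ℝ}
    (hw : ∀ f : StrongDual ℝ X, Tendsto (fun i => f (a i)) (UU : Filter ℕ) (𝓝 (w2 f)))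
    (f : StrongDual ℝ X) (M r : ℕ) (l : List ℕ) (hl : M ≤ l.length) :
    RIL r (fun l => f ((l.drop M).map a).sum) l (f ((l.drop M).map a).sum + r * w2 f) := by
  induction r generalizing l with
  | zero =>
    show f ((l.drop M).map a).sum = _
    simp
  | succ r ih =>
    refine ⟨fun i => f ((l.drop M).map a).sum + f (a i) + r * w2 f, fun i => ?_, ?_⟩
    · have := ih (l ++ [i]) (by simp; omega)
      have e : (l ++ [i]).drop M = l.drop M ++ [i] := List.drop_append_of_le_length hl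
      rw [e] at this
      simpa using this
    · have h1 := ((hw f).const_add (f ((l.drop M).map a).sum)).add_const ((r : ℝ) * w2 f)
      have e : f ((l.drop M).map a).sum + w2 f + (r : ℝ) * w2 f =
          f ((l.drop M).map a).sum + ((r + 1 : ℕ) : ℝ) * w2 f := by push_cast; ring
      rwa [e] at h1

/-- Splitting the iterated ultralimit of a `Bd` function. -/
theorem ril_split {h : List ℕ → ℝ} (hb : Bd h) (a b : ℕ) (l : List ℕ) :
    RIL a (fun m => IL b h m) l (IL (a + b) h l) := by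
  induction a generalizing l with
  | zero =>
    show IL b h l = IL (0 + b) h l
    rw [Nat.zero_add]
  | succ a ih =>
    refine ⟨fun i => IL (a + b) h (l ++ [i]), fun i => ih _, ?_⟩
    have h1 := ril_il (r := a + b + 1) hb l
    obtain ⟨a', h2, h3⟩ := h1
    have h4 : a' = fun i => IL (a + b) h (l ++ [i]) := funext fun i => ((h2 i).il_eq).symm
    rw [h4] at h3
    rwa [Nat.succ_add]

/-- The distance of an element of the bidual (as a function) to the space. -/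
noncomputable def dd (w2 : StrongDual ℝ X → ℝ) : ℝ :=
  sInf {c : ℝ | 0 ≤ c ∧ ∃ y : X, ∀ f : StrongDual ℝ X, |f y - w2 f| ≤ c * ‖f‖}

theorem dd_nonneg (w2 : StrongDual ℝ X → ℝ) : 0 ≤ dd w2 := Real.sInf_nonneg fun _ hc => hc.1

theorem dd_scale {w2 : StrongDual ℝ X → ℝ} {y : X} {c r : ℝ} (hr : 0 < r) (hc : 0 ≤ c)
    (h : ∀ f : StrongDual ℝ X, |f y - r * w2 f| ≤ c * ‖f‖) : r * dd w2 ≤ c := by
  have h1 : dd w2 ≤ c / r := by
    refine csInf_le ⟨0, fun _ hc => hc.1⟩ ⟨div_nonneg hc hr.le, r⁻¹ • y, fun f => ?_⟩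
    have h2 := h f
    have h3 : f (r⁻¹ • y) - w2 f = r⁻¹ * (f y - r * w2 f) := by
      rw [map_smul, smul_eq_mul]
      field_simp
    rw [h3, abs_mul, abs_of_pos (inv_pos.mpr hr)]
    calc r⁻¹ * |f y - r * w2 f| ≤ r⁻¹ * (c * ‖f‖) :=
          mul_le_mul_of_nonneg_left h2 (inv_pos.mpr hr).le
      _ = c / r * ‖f‖ := by ring
  calc r * dd w2 ≤ r * (c / r) := mul_le_mul_of_nonneg_left h1 hr.le
    _ = c := by field_simp

theorem dd_zero_mem [CompleteSpace X] {w2 : StrongDual ℝ X → ℝ} {M : ℝ} (hM : 0 ≤ M)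
    (hb : ∀ f, |w2 f| ≤ M * ‖f‖) (h : dd w2 = 0) :
    ∃ w : X, ∀ f : StrongDual ℝ X, w2 f = f w := by
  have hne : {c : ℝ | 0 ≤ c ∧ ∃ y : X, ∀ f : StrongDual ℝ X, |f y - w2 f| ≤ c * ‖f‖}.Nonempty :=
    ⟨M, hM, 0, fun f => by simpa using hb f⟩
  have h1 : ∀ n : ℕ, ∃ y : X, ∀ f : StrongDual ℝ X, |f y - w2 f| ≤ (1 / 2 : ℝ) ^ n * ‖f‖ := by
    intro n
    have h2 : dd w2 < (1 / 2 : ℝ) ^ n := by rw [h]; positivity
    obtain ⟨c, ⟨_, y, hy⟩, hc⟩ := exists_lt_of_csInf_lt hne h2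
    exact ⟨y, fun f => (hy f).trans (mul_le_mul_of_nonneg_right hc.le (norm_nonneg _))⟩
  choose y hy using h1
  have hdist : ∀ n, dist (y n) (y (n + 1)) ≤ 2 * (1 / 2 : ℝ) ^ n := by
    intro n
    rw [dist_eq_norm]
    refine NormedSpace.norm_le_dual_bound ℝ _ (by positivity) fun f => ?_
    have h2 := abs_le.mp (hy n f)
    have h3 := abs_le.mp (hy (n + 1) f)
    have h4 : (1 / 2 : ℝ) ^ (n + 1) * ‖f‖ ≤ (1 / 2 : ℝ) ^ n * ‖f‖ := by
      apply mul_le_mul_of_nonneg_right _ (norm_nonneg _)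
      exact pow_le_pow_of_le_one (by norm_num) (by norm_num) (Nat.le_succ n)
    rw [map_sub, Real.norm_eq_abs, abs_le]
    constructor <;> nlinarith [h2.1, h2.2, h3.1, h3.2]
  have hcau : CauchySeq y := cauchySeq_of_le_geometric (1 / 2) 2 (by norm_num) hdist
  obtain ⟨w, hw⟩ := cauchySeq_tendsto_of_complete hcau
  refine ⟨w, fun f => ?_⟩
  have h2 : Tendsto (fun n => f (y n)) atTop (𝓝 (f w)) := (f.continuous.tendsto w).comp hw
  have h3 : Tendsto (fun n => f (y n)) atTop (𝓝 (w2 f)) := by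
    rw [tendsto_iff_dist_tendsto_zero]
    refine squeeze_zero (fun _ => dist_nonneg) (fun n => ?_) (g := fun n => (1 / 2 : ℝ) ^ n * ‖f‖) ?_
    · rw [Real.dist_eq]
      exact hy n f
    · have := (tendsto_pow_atTop_nhds_zero_of_lt_one (r := (1 / 2 : ℝ)) (by norm_num)
        (by norm_num)).mul_const ‖f‖
      simpa using this
  exact tendsto_nhds_unique h3 h2

theorem il_norm_ge {a : ℕ → X} {B : ℝ} (ha : ∀ i, ‖a i‖ ≤ B)
    {w2 : StrongDual ℝ X → ℝ}
    (hw : ∀ f : StrongDual ℝ X, Tendsto (fun i => f (a i)) (UU : Filter ℕ) (𝓝 (w2 f)))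
    {s M N : ℕ} (hNM : N ≤ M) :
    (2 : ℝ) ^ s * dd w2 ≤
      IL (M + 2 ^ s) (fun l => ‖((l.take M).map a).sum -
          ((l.take N ++ l.drop M).map a).sum‖) [] := by
  have hB : 0 ≤ B := (norm_nonneg _).trans (ha 0)
  set h : List ℕ → ℝ := fun l => ‖((l.take M).map a).sum -
          ((l.take N ++ l.drop M).map a).sum‖ with hh
  have hbd : Bd h := by
    refine bd_pair (F := fun l => (l.map a).sum) hB (fun l i => ?_) M N M
    simpa using ha i
  set d := dd w2 with hd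
  set c : List ℕ → ℝ := fun m => IL (2 ^ s) h m with hc
  have hcbd : ∀ m : List ℕ, m.length = M → ∀ f : StrongDual ℝ X,
      f ((m.map a).sum - ((m.take N).map a).sum) - 2 ^ s * w2 f ≤ ‖f‖ * c m := by
    intro m hm f
    have h1 : RIL (2 ^ s) h m (c m) := ril_il hbd m
    have h2 := (RIL.const (2 ^ s) (f ((m.map a).sum - ((m.take N).map a).sum)) m).sub
      (ril_sum hw f M (2 ^ s) m hm.ge)
    have h3 := h1.const_mul ‖f‖
    have e1 : m.drop M = [] := List.drop_eq_nil_of_le hm.le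
    rw [e1] at h2
    simp only [List.map_nil, List.sum_nil, map_zero, zero_add, Nat.cast_pow, Nat.cast_ofNat]
      at h2
    refine h2.mono h3 fun η _ => ?_
    have t1 : (m ++ η).take M = m := List.take_left' hm
    have t2 : (m ++ η).drop M = η := List.drop_left' hm
    have t3 : (m ++ η).take N = m.take N :=
      List.take_append_of_le_length (by rw [hm]; exact hNM)
    show f ((m.map a).sum - ((m.take N).map a).sum) - f (((m ++ η).drop M).map a).sum ≤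
      ‖f‖ * ‖(((m ++ η).take M).map a).sum -
          (((m ++ η).take N ++ (m ++ η).drop M).map a).sum‖
    rw [t1, t2, t3, List.map_append, List.sum_append, ← map_sub, sub_sub]
    exact (le_abs_self _).trans (f.le_opNorm _)
  have hc0 : ∀ m : List ℕ, 0 ≤ c m := fun m =>
    (RIL.const (2 ^ s) 0 m).mono (ril_il hbd m) fun _ _ => norm_nonneg _
  have h2s : (0 : ℝ) < 2 ^ s := by positivity
  have hcd : ∀ m : List ℕ, m.length = M → (2 : ℝ) ^ s * d ≤ c m := by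
    intro m hm
    set y := (m.map a).sum - ((m.take N).map a).sum with hy
    refine dd_scale (y := y) h2s (hc0 m) fun f => ?_
    have h2 := hcbd m hm f
    have h3 := hcbd m hm (-f)
    rw [norm_neg] at h3
    have h4 : Tendsto (fun i => (-f) (a i)) (UU : Filter ℕ) (𝓝 (- w2 f)) := by
      simpa using (hw f).neg
    rw [tendsto_nhds_unique (hw (-f)) h4] at h3
    simp only [neg_apply] at h3
    rw [abs_le]
    constructor <;> nlinarith
  refine (RIL.const M ((2 : ℝ) ^ s * d) []).mono (ril_split hbd M (2 ^ s) []) fun m hm => ?_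
  rw [List.nil_append]
  exact hcd m hm

/-- `UI` with a constant lower bound. -/
theorem ui_const {p P : ℝ} (hp : 1 ≤ p) (hP : 0 < P) (hU : UmbelIneq p P X) (k : ℕ)
    {F : List ℕ → X} {B : ℝ} (hB : 0 ≤ B) (inc : ∀ l i, ‖F (l ++ [i]) - F l‖ ≤ B) {d : ℝ}
    (hd : 0 ≤ d)
    (hlow : ∀ s ∈ Finset.Icc 1 k, ∀ t ∈ Finset.Icc 1 (2 ^ (k - s)),
      (2 : ℝ) ^ s * d ≤ IL (t * 2 ^ (s + 1) + 2 ^ s)
        (fun l => ‖F (l.take (t * 2 ^ (s + 1))) -
          F (l.take (t * 2 ^ (s + 1) - 2 ^ s) ++ l.drop (t * 2 ^ (s + 1)))‖) []) :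
    (k : ℝ) * d ^ p ≤ P ^ p * B ^ p := by
  have h1 := UI hp hP hU (k := k + 1) (by omega) hB inc (a := fun _ _ => d) (fun _ _ => hd)
    (by rw [Nat.add_sub_cancel]; exact hlow)
  rw [Nat.add_sub_cancel] at h1
  have h2 : ∀ s ∈ Finset.Icc 1 k, ((2 : ℝ) ^ (k - s))⁻¹ *
      ∑ _t ∈ Finset.Icc 1 (2 ^ (k - s)), d ^ p = d ^ p := by
    intro s _
    rw [Finset.sum_const, Nat.card_Icc, nsmul_eq_mul, Nat.add_sub_cancel, ← mul_assoc,
      Nat.cast_pow, Nat.cast_ofNat, inv_mul_cancel₀ (by positivity), one_mul]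
  rw [Finset.sum_congr rfl h2, Finset.sum_const, Nat.card_Icc, nsmul_eq_mul,
    Nat.add_sub_cancel] at h1
  exact h1

theorem eq_zero_of_key {p K d : ℝ} (hd0 : 0 ≤ d)
    (key : ∀ k : ℕ, (k : ℝ) * d ^ p ≤ K) : d = 0 := by
  by_contra hne
  have hd : 0 < d := lt_of_le_of_ne hd0 (Ne.symm hne)
  have hpos : 0 < d ^ p := Real.rpow_pos_of_pos hd p
  obtain ⟨k, hk⟩ := exists_nat_gt (K / d ^ p)
  rw [div_lt_iff₀ hpos] at hk
  exact absurd (key k) (not_le.mpr hk)

theorem dd_eq_zero {p P : ℝ} (hp : 1 ≤ p) (hP : 0 < P) (hU : UmbelIneq p P X) {a : ℕ → X}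
    {M : ℝ} (ha : ∀ i, ‖a i‖ ≤ M) {w2 : StrongDual ℝ X → ℝ}
    (hw : ∀ f : StrongDual ℝ X, Tendsto (fun i => f (a i)) (UU : Filter ℕ) (𝓝 (w2 f))) :
    dd w2 = 0 := by
  have hM : 0 ≤ M := (norm_nonneg _).trans (ha 0)
  have hd0 : 0 ≤ dd w2 := dd_nonneg _
  have hF : ∀ (l : List ℕ) (i : ℕ), ‖((l ++ [i]).map a).sum - (l.map a).sum‖ ≤ M :=
    fun l i => by simpa using ha i
  refine eq_zero_of_key (p := p) (K := P ^ p * M ^ p) hd0 fun k => ?_
  refine ui_const (F := fun l => (l.map a).sum) hp hP hU k hM hF hd0 fun s _ t _ => ?_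
  exact il_norm_ge (s := s) (M := t * 2 ^ (s + 1)) (N := t * 2 ^ (s + 1) - 2 ^ s) ha hw
    (Nat.sub_le _ _)

theorem exists_wlim [CompleteSpace X] {p P : ℝ} (hp : 1 < p) (hP : 0 < P)
    (hU : UmbelIneq p P X) {a : ℕ → X} {M : ℝ} (ha : ∀ i, ‖a i‖ ≤ M) : ∃ w, WLim a w := by
  obtain ⟨w2, hw, hb⟩ := exists_bidual ha
  obtain ⟨w, hw'⟩ := dd_zero_mem ((norm_nonneg _).trans (ha 0)) hb (dd_eq_zero hp.le hP hU ha hw)
  refine ⟨w, fun f => ?_⟩
  have h1 := hw f
  rwa [hw' f] at h1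

theorem WLim.norm_le {a : ℕ → X} {w : X} {M : ℝ} (H : WLim a w) (ha : ∀ i, ‖a i‖ ≤ M) :
    ‖w‖ ≤ M := by
  have hM : 0 ≤ M := (norm_nonneg _).trans (ha 0)
  refine NormedSpace.norm_le_dual_bound ℝ w hM fun f => ?_
  rw [Real.norm_eq_abs]
  refine le_of_tendsto (H f).abs (Filter.univ_mem' fun i => ?_)
  show |f (a i)| ≤ M * ‖f‖
  rw [← Real.norm_eq_abs, mul_comm]
  exact (f.le_opNorm (a i)).trans (mul_le_mul_of_nonneg_left (ha i) (norm_nonneg _))

theorem WLim.unique {a : ℕ → X} {w w' : X} (H : WLim a w) (H' : WLim a w') : w = w' := by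
  have h : ∀ f : StrongDual ℝ X, f w = f w' := fun f => tendsto_nhds_unique (H f) (H' f)
  by_contra hne
  obtain ⟨f, -, hf⟩ := exists_dual_vector ℝ (w - w') (by simpa [sub_eq_zero] using hne)
  have h1 : f (w - w') = 0 := by rw [map_sub, h f, sub_self]
  rw [h1] at hf
  have h2 : ‖w - w'‖ = 0 := by
    have : (0 : ℝ) = ‖w - w'‖ := by exact_mod_cast hf
    exact this.symm
  exact hne (by simpa [sub_eq_zero] using h2)

end Pool.Agent.H53.Umb
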