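import Pool.Agent.H53.Umb.Low
import Pool.Agent.H53.Umb.Wl

/-!
MODULE FARTREE (upper estimate for far trees of functionals). `C₂ = 10 + 4 P`. `k = 0` is trivial.
For `l.length = k` let `S l = (path g l).sum` and `x l` with `‖x l‖ ≤ 1`, `S l (x l) ≥ ‖S l‖ / 2`.
Let `W k l = x l` and `W j l` = weak limit of `W (j+1) (l ++ [i])` for `l.length = j < k` (module WL),
`A l = W (min l.length k) (l.take k)`; then `‖A l‖ ≤ 1` and `A (l ++ [i]) → A l` weakly for all `l`.
The iterated limit of `g (l.take (j+1)) (x l)` over all variables is: in the later variables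
`g (l') (A l')` with `l' = l.take (j+1)`, and this is `g l' (A l' - A l'.dropLast) + o(1)` when the
last variable tends to infinity (`Van (g (l'' ++ [i])) (F i)`, `‖g‖ ≤ 2`, `hF.dense`), so it is
`≤ 2 β (j+1)`. Hence the iterated limit of `S l (x l)` is `≤ 2 Σ_{j=1}^k β j`,
`β 1 ≤ 2`, `Σ_{j=2}^k β j ≤ k^{1-1/p} (Σ β j ^p)^{1/p} ≤ k^{1-1/p} P` (Hoelder and module LOW), so
for some `l` (`RIL.exists_lt`) `S l (x l) ≤ (5 + 2 P) k^{1-1/p}`.
-/

namespace Pool.Agent.H53.Umb

open Filter Topology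

variable {X : Type*} [NormedAddCommGroup X] [NormedSpace ℝ X]

/-- A weak ultralimit (zero if there is none). -/
noncomputable def wl (a : ℕ → X) : X := by
  classical exact if h : ∃ w, WLim a w then h.choose else 0

theorem wl_spec {a : ℕ → X} (h : ∃ w, WLim a w) : WLim a (wl a) := by
  rw [wl, dif_pos h]
  exact h.choose_spec

/-- The iterated weak ultralimits. -/
noncomputable def WI : ℕ → (List ℕ → X) → List ℕ → X
  | 0, x, l => x l
  | r + 1, x, l => wl (fun i => WI r x (l ++ [i]))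

/-- All bounded sequences have weak ultralimits. -/
def Refl (X : Type*) [NormedAddCommGroup X] [NormedSpace ℝ X] : Prop :=
  ∀ (a : ℕ → X) (M : ℝ), (∀ i, ‖a i‖ ≤ M) → ∃ w, WLim a w

theorem WI_norm (hR : Refl X) {x : List ℕ → X} {M : ℝ} (hx : ∀ l, ‖x l‖ ≤ M) (r : ℕ) :
    ∀ l, ‖WI r x l‖ ≤ M := by
  induction r with
  | zero => exact hx
  | succ r ih =>
    intro l
    exact WLim.norm_le (wl_spec (hR _ M fun i => ih (l ++ [i]))) fun i => ih (l ++ [i])

theorem WI_wlim (hR : Refl X) {x : List ℕ → X} {M : ℝ} (hx : ∀ l, ‖x l‖ ≤ M) (r : ℕ)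
    (l : List ℕ) : WLim (fun i => WI r x (l ++ [i])) (WI (r + 1) x l) :=
  wl_spec (hR _ M fun i => WI_norm hR hx r (l ++ [i]))

theorem ril_WI (hR : Refl X) {x : List ℕ → X} {M : ℝ} (hx : ∀ l, ‖x l‖ ≤ M) (r : ℕ)
    (l : List ℕ) (f : StrongDual ℝ X) : RIL r (fun l => f (x l)) l (f (WI r x l)) := by
  induction r generalizing l with
  | zero => rfl
  | succ r ih => exact ⟨fun i => f (WI r x (l ++ [i])), fun i => ih _, WI_wlim hR hx r l f⟩

/-- The weakly continuous tree defined by the values at level `k`. -/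
noncomputable def AA (k : ℕ) (x : List ℕ → X) (l : List ℕ) : X := WI (k - l.length) x (l.take k)

theorem AA_norm (hR : Refl X) {x : List ℕ → X} {M : ℝ} (hx : ∀ l, ‖x l‖ ≤ M) (k : ℕ)
    (l : List ℕ) : ‖AA k x l‖ ≤ M := WI_norm hR hx _ _

theorem AA_wlim (hR : Refl X) {x : List ℕ → X} {M : ℝ} (hx : ∀ l, ‖x l‖ ≤ M) (k : ℕ)
    (l : List ℕ) : WLim (fun i => AA k x (l ++ [i])) (AA k x l) := by
  by_cases hl : l.length < k
  · obtain ⟨r, hr⟩ : ∃ r, k - l.length = r + 1 := ⟨k - l.length - 1, by omega⟩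
    have e1 : AA k x l = WI (r + 1) x l := by
      rw [AA, hr, List.take_of_length_le hl.le]
    have e2 : ∀ i, AA k x (l ++ [i]) = WI r x (l ++ [i]) := fun i => by
      have h1 : (l ++ [i]).length = l.length + 1 := by simp
      rw [AA, List.take_of_length_le (by rw [h1]; exact hl), h1]
      congr 1
      omega
    rw [e1]
    simp only [e2]
    exact WI_wlim hR hx r l
  · have hl' : k ≤ l.length := not_lt.mp hl
    have e2 : ∀ i, AA k x (l ++ [i]) = AA k x l := fun i => by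
      rw [AA, AA, List.take_append_of_le_length hl']
      congr 1
      rw [List.length_append, List.length_singleton]
      omega
    simp only [e2]
    intro f
    exact tendsto_const_nhds

theorem AA_eq {x : List ℕ → X} {k : ℕ} {l : List ℕ} (hl : l.length ≤ k) :
    AA k x l = WI (k - l.length) x l := by
  rw [AA, List.take_of_length_le hl]

/-- Functionals which are far tend to zero weak-star. -/
theorem far_tendsto {F : ℕ → Submodule ℝ X} (hF : Exh F) {f : ℕ → StrongDual ℝ X} {M : ℝ}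
    (hf : ∀ i, ‖f i‖ ≤ M) (hv : ∀ i, Van (f i) (F i)) (y : X) :
    Tendsto (fun i => f i y) (UU : Filter ℕ) (𝓝 0) := by
  have hM : 0 ≤ M := (norm_nonneg _).trans (hf 0)
  rw [Metric.tendsto_nhds]
  intro ε hε
  obtain ⟨n, z, hz, hyz⟩ := hF.dense y (ε / (M + 1)) (by positivity)
  filter_upwards [eventually_ge_UU n] with i hi
  have h1 : f i z = 0 := hv i z (hF.mono hi hz)
  have h2 : f i y = f i (y - z) := by rw [map_sub, h1, sub_zero]
  rw [Real.dist_eq, sub_zero, h2, ← Real.norm_eq_abs]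
  calc ‖f i (y - z)‖ ≤ ‖f i‖ * ‖y - z‖ := (f i).le_opNorm _
    _ ≤ M * (ε / (M + 1)) := mul_le_mul (hf i) hyz.le (norm_nonneg _) hM
    _ < ε := by
      rw [mul_div_assoc', div_lt_iff₀ (by linarith)]
      nlinarith

omit [NormedSpace ℝ X] in
theorem beta_nonneg (A : List ℕ → X) {M : ℝ} (hA : ∀ l, ‖A l‖ ≤ M) (j : ℕ) :
    0 ≤ IL j (fun l => ‖A l - A l.dropLast‖) [] ∧
      IL j (fun l => ‖A l - A l.dropLast‖) [] ≤ M + M := by
  have hbd : Bd (fun l => ‖A l - A l.dropLast‖) := ⟨fun _ => M + M, fun l => by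
    rw [abs_of_nonneg (norm_nonneg _)]
    exact (norm_sub_le _ _).trans (add_le_add (hA _) (hA _))⟩
  refine ⟨(RIL.const j 0 []).mono (ril_il hbd []) fun _ _ => norm_nonneg _,
    (ril_il hbd []).mono (RIL.const j (M + M) []) fun m _ => ?_⟩
  exact (norm_sub_le _ _).trans (add_le_add (hA _) (hA _))

/-- The limit of one term. -/
theorem term_limit (hR : Refl X) {F : ℕ → Submodule ℝ X} (hF : Exh F) {x : List ℕ → X}
    (hx : ∀ l, ‖x l‖ ≤ 1) {g : List ℕ → StrongDual ℝ X} (hg : ∀ l, ‖g l‖ ≤ 2)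
    (hv : ∀ l i, Van (g (l ++ [i])) (F i)) {k j : ℕ} (hj : j < k) :
    ∃ v : ℝ, v ≤ 2 * IL (j + 1) (fun l => ‖AA k x l - AA k x l.dropLast‖) [] ∧
      RIL k (fun l => g (l.take (j + 1)) (x l)) [] v := by
  have hA : ∀ l, ‖AA k x l‖ ≤ 1 := AA_norm hR hx k
  -- the difference part
  have h1 : ∀ m : List ℕ, |g m (AA k x m - AA k x m.dropLast)| ≤
      2 * ‖AA k x m - AA k x m.dropLast‖ := fun m => by
    rw [← Real.norm_eq_abs]
    exact ((g m).le_opNorm _).trans (mul_le_mul_of_nonneg_right (hg m) (norm_nonneg _))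
  have h2 : ∀ m : List ℕ, ‖AA k x m - AA k x m.dropLast‖ ≤ 2 := fun m => by
    have := norm_sub_le (AA k x m) (AA k x m.dropLast)
    have h3 := hA m
    have h4 := hA m.dropLast
    linarith
  obtain ⟨v, -, hvv⟩ := exists_RIL (r := j + 1) (l := []) (M := 4)
    (h := fun m => g m (AA k x m - AA k x m.dropLast)) fun m _ => by
      have := h1 ([] ++ m)
      have := h2 ([] ++ m)
      linarith
  have hbd : Bd (fun l => ‖AA k x l - AA k x l.dropLast‖) := ⟨fun _ => 2, fun l => by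
    rw [abs_of_nonneg (norm_nonneg _)]
    exact h2 l⟩
  have hle : v ≤ 2 * IL (j + 1) (fun l => ‖AA k x l - AA k x l.dropLast‖) [] :=
    hvv.mono ((ril_il hbd []).const_mul 2) fun m _ => (le_abs_self _).trans (h1 _)
  -- the vanishing part
  have h3 : RIL (j + 1) (fun m => g m (AA k x m.dropLast)) [] 0 := by
    refine RIL.of_last (h' := fun _ => 0) (fun m _ => ?_) (RIL.const j 0 [])
    simp only [List.nil_append, List.dropLast_concat]
    exact far_tendsto hF (fun i => hg (m ++ [i])) (fun i => hv m i) _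
  have h5 : RIL (j + 1) (fun m => g m (AA k x m)) [] v := by
    have := hvv.add h3
    rw [add_zero] at this
    refine this.congr fun m _ => ?_
    rw [← map_add, sub_add_cancel]
  refine ⟨v, hle, ?_⟩
  have e : k = (j + 1) + (k - (j + 1)) := by omega
  have h6 : RIL ((j + 1) + (k - (j + 1))) (fun l => g (l.take (j + 1)) (x l)) [] v := by
    refine RIL.comp (h' := fun m => g m (AA k x m)) (fun m hm => ?_) h5
    rw [List.nil_append]
    have h7 := ril_WI hR hx (k - (j + 1)) m (g m)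
    have h8 : AA k x m = WI (k - (j + 1)) x m := by
      rw [AA_eq (by omega), hm]
    show RIL (k - (j + 1)) (fun l => g (l.take (j + 1)) (x l)) m (g m (AA k x m))
    rw [h8]
    refine h7.congr fun q _ => ?_
    rw [List.take_left' hm]
  rwa [← e] at h6

/-- Hoelder's inequality for a sum of `k` terms. -/
theorem holder_sum {p K : ℝ} (hp : 1 < p) (hK : 0 ≤ K) {β : ℕ → ℝ} (hβ : ∀ j, 0 ≤ β j) (k : ℕ)
    (h : ∑ j ∈ Finset.range k, β j ^ p ≤ K ^ p) :
    ∑ j ∈ Finset.range k, β j ≤ (k : ℝ) ^ (1 - 1 / p) * K := by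
  have hp0 : 0 < p := by linarith
  have h1 := Real.rpow_sum_le_const_mul_sum_rpow_of_nonneg (Finset.range k) (f := β) hp.le
    (fun i _ => hβ i)
  rw [Finset.card_range] at h1
  have h2 : (∑ j ∈ Finset.range k, β j) ^ p ≤ ((k : ℝ) ^ (1 - 1 / p) * K) ^ p := by
    rw [Real.mul_rpow (Real.rpow_nonneg (Nat.cast_nonneg _) _) hK, ← Real.rpow_mul
      (Nat.cast_nonneg _)]
    have e : (1 - 1 / p) * p = p - 1 := by field_simp
    rw [e]
    exact h1.trans (mul_le_mul_of_nonneg_left h (Real.rpow_nonneg (Nat.cast_nonneg _) _))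
  exact (Real.rpow_le_rpow_iff (Finset.sum_nonneg fun i _ => hβ i)
    (mul_nonneg (Real.rpow_nonneg (Nat.cast_nonneg _) _) hK) hp0).mp h2

theorem path_sum_apply (g : List ℕ → StrongDual ℝ X) (l : List ℕ) (y : X) :
    (path g l).sum y = ∑ j ∈ Finset.range l.length, g (l.take (j + 1)) y := by
  have h : ∀ n : ℕ, ((List.range n).map fun j => g (l.take (j + 1))).sum y =
      ∑ j ∈ Finset.range n, g (l.take (j + 1)) y := by
    intro n
    induction n with
    | zero => simp
    | succ n ih =>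
      rw [List.range_succ, List.map_append, List.sum_append, Finset.sum_range_succ,
        add_apply, ih]
      simp
  exact h l.length

theorem exists_half_norming (S : StrongDual ℝ X) : ∃ y : X, ‖y‖ ≤ 1 ∧ ‖S‖ / 2 ≤ S y := by
  by_cases h : ‖S‖ = 0
  · exact ⟨0, by simp, by simp [h]⟩
  · have hpos : 0 < ‖S‖ := lt_of_le_of_ne (norm_nonneg _) (Ne.symm h)
    obtain ⟨y, hy, hy'⟩ := S.exists_lt_apply_of_lt_opNorm (r := ‖S‖ / 2) (by linarith)
    rcases le_total 0 (S y) with h0 | h0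
    · exact ⟨y, hy.le, by rw [Real.norm_of_nonneg h0] at hy'; exact hy'.le⟩
    · refine ⟨-y, by rw [norm_neg]; exact hy.le, ?_⟩
      rw [Real.norm_of_nonpos h0] at hy'
      rw [map_neg]
      exact hy'.le

theorem far_tree [CompleteSpace X] {p P : ℝ} (hp : 1 < p) (hP : 0 < P)
    (hU : UmbelIneq p P X) {F : ℕ → Submodule ℝ X} (hF : Exh F) :
    ∃ C₂ : ℝ, 0 < C₂ ∧ ∀ (k : ℕ) (g : List ℕ → StrongDual ℝ X), (∀ l, ‖g l‖ ≤ 2) →
      (∀ l i, Van (g (l ++ [i])) (F i)) →
      ∃ l : List ℕ, l.length = k ∧ ‖(path g l).sum‖ ≤ C₂ * (k : ℝ) ^ (1 - 1 / p) := by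
  have hR : Refl X := fun a M ha => exists_wlim hp hP hU ha
  have hp0 : 0 < p := by linarith
  refine ⟨10 + 4 * P, by linarith, fun k g hg hv => ?_⟩
  rcases Nat.eq_zero_or_pos k with hk | hk
  · subst hk
    refine ⟨[], rfl, ?_⟩
    have h1 : (path g []).sum = 0 := rfl
    rw [h1, norm_zero]
    exact mul_nonneg (by linarith) (Real.rpow_nonneg (Nat.cast_nonneg _) _)
  choose x hx1 hx2 using fun l => exists_half_norming (path g l).sum
  choose v hv1 hv2 using fun j : Fin k => term_limit hR hF hx1 hg hv (k := k) j.2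
  have hsum : RIL k (fun l => ∑ j : Fin k, g (l.take (j + 1)) (x l)) [] (∑ j : Fin k, v j) :=
    RIL.sum _ fun j _ => hv2 j
  set β : ℕ → ℝ := fun j => IL j (fun l => ‖AA k x l - AA k x l.dropLast‖) [] with hβ
  have hβ0 : ∀ j, 0 ≤ β j := fun j => (beta_nonneg _ (AA_norm hR hx1 k) j).1
  have hβ1 : β 1 ≤ 2 := by
    have := (beta_nonneg _ (AA_norm hR hx1 k) 1).2
    linarith
  have hlow := low hp.le hP hU (AA_wlim hR hx1 k) (AA_norm hR hx1 k) k
  rw [Real.one_rpow, mul_one] at hlow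
  have h1 : ∑ j ∈ Finset.range k, β (j + 2) ≤ (k : ℝ) ^ (1 - 1 / p) * P := by
    refine holder_sum hp hP.le (fun j => hβ0 _) k (le_trans ?_ hlow)
    exact Finset.sum_le_sum_of_subset_of_nonneg (Finset.range_mono (Nat.le_succ k))
      fun i _ _ => Real.rpow_nonneg (hβ0 _) _
  have h2 : ∑ j : Fin k, v j ≤ 2 * (β 1 + ∑ j ∈ Finset.range k, β (j + 2)) := by
    calc ∑ j : Fin k, v j ≤ ∑ j : Fin k, 2 * β (j + 1) := Finset.sum_le_sum fun j _ => hv1 j
      _ = ∑ j ∈ Finset.range k, 2 * β (j + 1) :=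
          (Finset.sum_range fun j => 2 * β (j + 1)).symm
      _ = 2 * ∑ j ∈ Finset.range k, β (j + 1) := (Finset.mul_sum _ _ _).symm
      _ ≤ 2 * ∑ j ∈ Finset.range (k + 1), β (j + 1) := by
          apply mul_le_mul_of_nonneg_left _ (by norm_num)
          exact Finset.sum_le_sum_of_subset_of_nonneg (Finset.range_mono (Nat.le_succ k))
            fun i _ _ => hβ0 _
      _ = 2 * (β 1 + ∑ j ∈ Finset.range k, β (j + 2)) := by
          rw [Finset.sum_range_succ', add_comm]
  have hk1 : (1 : ℝ) ≤ (k : ℝ) ^ (1 - 1 / p) := by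
    apply Real.one_le_rpow
    · exact_mod_cast hk
    · rw [sub_nonneg, div_le_one hp0]
      exact hp.le
  obtain ⟨l, hl, hlt⟩ := hsum.exists_lt (lt_add_one _)
  rw [List.nil_append] at hlt
  refine ⟨l, hl, ?_⟩
  have h3 : (path g l).sum (x l) = ∑ j : Fin k, g (l.take (j + 1)) (x l) := by
    rw [path_sum_apply, hl]
    exact Finset.sum_range fun j => g (l.take (j + 1)) (x l)
  have h4 := hx2 l
  rw [h3] at h4
  nlinarith

end Pool.Agent.H53.Umb
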