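import Pool.Agent.H53.Umb.GainB

/-!
MODULE GAIN (potential function, idea of helper50). For `s ∈ (0,1]` choose `K ≥ 1` with
`C₂ * K^(1-1/p) ≤ K * s / 2` (and `K ≤ C s^{-p}`), the strategy `Φ` for this `K`, and put
`E x = sup { ∑_{c ∈ h} (γ c x - s) : h legal, h.length ≤ K }` (the empty history gives `0`).
`E` is a supremum of affine functions, hence convex; `E 0 = 0`, `E ≥ 0`; the Lipschitz constant is
`≤ C₂ K^(1-1/p) ≤ C s^{1-p}` because `‖∑_{c ∈ h} γ c‖ ≤ C₂ h.length^(1-1/p)`.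
The gain is proved in `GainB.lean`: `gain_far` (the last functional is played after a large code;
it is dropped), `gain_last` (only the last functional varies) and `gain_core` below.
-/

namespace Pool.Agent.H53.Umb

open Filter Topology

variable {X : Type*} [NormedAddCommGroup X] [NormedSpace ℝ X]

theorem finite_lists (K N : ℕ) : {l : List ℕ | l.length ≤ K ∧ ∀ c ∈ l, c ≤ N}.Finite := by
  induction K with
  | zero =>
    refine (Set.finite_singleton ([] : List ℕ)).subset ?_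
    rintro l ⟨hl, -⟩
    simpa using hl
  | succ K ih =>
    refine ((Set.finite_singleton ([] : List ℕ)).union
      (((Set.finite_Iic N).image2 List.cons ih))).subset ?_
    rintro l ⟨hl, hc⟩
    cases l with
    | nil => left; rfl
    | cons a l =>
      right
      refine ⟨a, hc a (by simp), l, ⟨by simpa using hl, fun c h => hc c (by simp [h])⟩, rfl⟩

/-- Almost optimal histories at all the midpoints cannot exist. -/
theorem gain_core {F : ℕ → Submodule ℝ X} (hF : Exh F) {B : Set (StrongDual ℝ X)} {σ : ℝ}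
    (hB : GoodSet B σ) {γ : ℕ → StrongDual ℝ X} (hγ : Codes F B γ) {Φ : List ℕ → ℕ}
    (hΦ : ∀ (h : List ℕ) (c : ℕ), c ∈ h → c ≤ Φ h) {K : ℕ} {s a ε : ℝ} (hs : 0 < s) (ha0 : 0 ≤ a)
    (ha : a ≤ s / 16) (ha' : a ≤ (σ - 1) * s / 8) (hsε : 64 * s ≤ ε)
    {E : X → ℝ} (hE : ∀ (h : List ℕ) (x : X), Legal (fun M c => Van (γ c) (F M)) Φ h →
      h.length ≤ K → val γ s h x ≤ E x)
    {z : X} {w : ℕ → X} (hz1 : ‖z‖ ≤ 1) (hw1 : ∀ i, ‖w i‖ ≤ 1)
    (hsep : ∀ i j, i ≠ j → ε ≤ ‖w i - w j‖)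
    {h : ℕ → List ℕ} (hl : ∀ i, Legal (fun M c => Van (γ c) (F M)) Φ (h i))
    (hK : ∀ i, (h i).length < K) (hz : ∀ i, E z - a < val γ s (h i) z)
    (hw : ∀ i, E (w i) - a < val γ s (h i) (w i)) : False := by
  classical
  have hε : 0 < ε := by linarith
  by_cases hfar : ∀ N : ℕ, ∃ i, ∃ c ∈ (h i).dropLast, N < c
  · exact gain_far hF hB hγ hΦ hs ha hE hl (fun i => (hK i).le) hz hfar
  push Not at hfar
  obtain ⟨N, hN⟩ := hfar
  have h1 : ∀ᶠ i in (UU : Filter ℕ), ∃ l ∈ {l : List ℕ | l.length ≤ K ∧ ∀ c ∈ l, c ≤ N},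
      (h i).dropLast = l := by
    refine Eventually.of_forall fun i => ⟨(h i).dropLast, ⟨?_, hN i⟩, rfl⟩
    have := hK i
    rw [List.length_dropLast]
    omega
  rw [Ultrafilter.eventually_exists_mem_iff (finite_lists K N)] at h1
  obtain ⟨l, -, h2⟩ := h1
  by_cases hnil : ∀ᶠ i in (UU : Filter ℕ), h i = []
  · -- the empty history
    have := hF.fin (Φ [])
    obtain ⟨i, hi1, hi2⟩ := (hnil.and (far_of_separated (F (Φ [])) hε hw1 hsep)).exists
    obtain ⟨g, hg1, hg2, hg3⟩ := exists_functional (F (Φ [])) hi2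
    obtain ⟨d, hd1, hd2⟩ := hγ.dense (Φ []) g (ε / 8) (hB.ball_sub (by simpa using hg1)) hg2
      (by positivity)
    have h3 := hE ([] ++ [d]) (w i) (legal_concat_iff.mpr ⟨legal_nil _ _, hd1⟩) (by
      have := hK i
      simp; omega)
    rw [val_concat, val_nil] at h3
    have h4 := hw i
    rw [hi1, val_nil] at h4
    have h5 : |γ d (w i) - g (w i)| ≤ ε / 8 := by
      have h6 := (γ d - g).le_opNorm (w i)
      rw [Real.norm_eq_abs, sub_apply] at h6
      calc |γ d (w i) - g (w i)| ≤ ‖γ d - g‖ * ‖w i‖ := h6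
        _ ≤ (ε / 8) * 1 := mul_le_mul hd2 (hw1 i) (norm_nonneg _) (by positivity)
        _ = ε / 8 := mul_one _
    have h7 := (abs_le.mp h5).1
    linarith
  · rw [← Ultrafilter.eventually_not] at hnil
    have hex : ∀ᶠ i in (UU : Filter ℕ), ∃ d, h i = l ++ [d] := by
      filter_upwards [h2, hnil] with i hi hi'
      refine ⟨(h i).getLast hi', ?_⟩
      rw [← hi]
      exact (List.dropLast_append_getLast hi').symm
    obtain ⟨i₀, d₀, hi₀⟩ := hex.exists
    let c : ℕ → ℕ := fun i => if H : ∃ d, h i = l ++ [d] then H.choose else d₀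
    have hc : ∀ i, (∃ d, h i = l ++ [d]) → h i = l ++ [c i] := by
      intro i H
      dsimp only [c]
      rw [dif_pos H]
      exact H.choose_spec
    have hc' : ∀ i, ∃ j, h j = l ++ [c i] := by
      intro i
      by_cases H : ∃ d, h i = l ++ [d]
      · exact ⟨i, hc i H⟩
      · refine ⟨i₀, ?_⟩
        dsimp only [c]
        rw [dif_neg H]
        exact hi₀
    refine gain_last hF hB hγ (Φ := Φ) (K := K) hs ha0 ha ha' hsε hE hz1 hw1 hsep (l := l) (c := c)
      (fun i => ?_) ?_ ?_ ?_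
    · obtain ⟨j, hj⟩ := hc' i
      rw [← hj]
      exact hl j
    · have := hK i₀
      rw [hi₀, List.length_append, List.length_singleton] at this
      exact this
    · filter_upwards [hex] with i hi
      rw [← hc i hi]
      exact hz i
    · filter_upwards [hex] with i hi
      rw [← hc i hi]
      exact hw i

theorem exists_length {p C₂ : ℝ} (hp : 1 < p) (hC₂ : 0 < C₂) :
    ∃ A : ℝ, 0 < A ∧ ∀ s : ℝ, 0 < s → s ≤ 1 → ∃ K : ℕ, 1 ≤ K ∧
      C₂ * (K : ℝ) ^ (1 - 1 / p) ≤ K * s / 2 ∧ C₂ * (K : ℝ) ^ (1 - 1 / p) ≤ A * s ^ (1 - p) := by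
  have hp0 : 0 < p := by linarith
  have hexp : 0 < 1 - 1 / p := by
    rw [sub_pos, div_lt_one hp0]; exact hp
  refine ⟨C₂ * ((2 * C₂) ^ p + 2) ^ (1 - 1 / p), by positivity, fun s hs hs1 => ?_⟩
  refine ⟨⌈(2 * C₂ / s) ^ p⌉₊ + 1, by omega, ?_, ?_⟩
  · set K : ℕ := ⌈(2 * C₂ / s) ^ p⌉₊ + 1 with hKdef
    have hKpos : (0 : ℝ) < K := by rw [hKdef]; positivity
    have h1 : (2 * C₂ / s) ^ p ≤ K := by
      rw [hKdef]; push_cast
      have := Nat.le_ceil ((2 * C₂ / s) ^ p)
      linarith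
    have h2 : 2 * C₂ / s ≤ (K : ℝ) ^ (1 / p) := by
      have h3 := Real.rpow_le_rpow (by positivity) h1 (show 0 ≤ 1 / p by positivity)
      rwa [← Real.rpow_mul (by positivity), mul_one_div_cancel hp0.ne', Real.rpow_one] at h3
    have h4 : (K : ℝ) ^ (1 - 1 / p) * (K : ℝ) ^ (1 / p) = K := by
      rw [← Real.rpow_add hKpos]
      simp
    have h5 : 2 * C₂ ≤ (K : ℝ) ^ (1 / p) * s := by
      rwa [div_le_iff₀ hs] at h2
    have h6 : (0 : ℝ) ≤ (K : ℝ) ^ (1 - 1 / p) := by positivity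
    nlinarith [mul_le_mul_of_nonneg_left h5 h6]
  · rw [mul_assoc]
    refine mul_le_mul_of_nonneg_left ?_ hC₂.le
    have hK : ((⌈(2 * C₂ / s) ^ p⌉₊ + 1 : ℕ) : ℝ) ≤ ((2 * C₂) ^ p + 2) * s ^ (-p) := by
      push_cast
      have h1 : (⌈(2 * C₂ / s) ^ p⌉₊ : ℝ) < (2 * C₂ / s) ^ p + 1 := Nat.ceil_lt_add_one (by positivity)
      have h2 : (2 * C₂ / s) ^ p = (2 * C₂) ^ p * s ^ (-p) := by
        rw [Real.div_rpow (by positivity) hs.le, Real.rpow_neg hs.le, div_eq_mul_inv]
      have h3 : 1 ≤ s ^ (-p) := Real.one_le_rpow_of_pos_of_le_one_of_nonpos hs hs1 (by linarith)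
      have h4 : (⌈(2 * C₂ / s) ^ p⌉₊ : ℝ) < (2 * C₂) ^ p * s ^ (-p) + 1 := by
        rw [← h2]; exact h1
      nlinarith
    calc ((⌈(2 * C₂ / s) ^ p⌉₊ + 1 : ℕ) : ℝ) ^ (1 - 1 / p)
        ≤ (((2 * C₂) ^ p + 2) * s ^ (-p)) ^ (1 - 1 / p) :=
          Real.rpow_le_rpow (by positivity) hK hexp.le
      _ = ((2 * C₂) ^ p + 2) ^ (1 - 1 / p) * s ^ (1 - p) := by
          rw [Real.mul_rpow (by positivity) (by positivity), ← Real.rpow_mul hs.le]
          congr 2
          field_simp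
          ring

theorem exists_potential {X : Type*} [NormedAddCommGroup X] [NormedSpace ℝ X]
    {p C₂ σ : ℝ} (hp : 1 < p) (hC₂ : 0 < C₂) {F : ℕ → Submodule ℝ X} (hF : Exh F)
    {B : Set (StrongDual ℝ X)} (hB : GoodSet B σ)
    {γ : ℕ → StrongDual ℝ X} (hγ : Codes F B γ)
    (hS : ∀ K : ℕ, ∃ Φ : List ℕ → ℕ, GoodStrat (fun M c => Van (γ c) (F M))
      (fun h => ‖(h.map γ).sum‖ ≤ C₂ * (h.length : ℝ) ^ (1 - 1 / p)) K Φ) :
    ∃ C c : ℝ, 0 < C ∧ 0 < c ∧ ∀ s : ℝ, 0 < s → s ≤ 1 → ∃ E : X → ℝ, Potential p C c s E := by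
  have hp0 : 0 < p := by linarith
  have hexp : 0 < 1 - 1 / p := by
    rw [sub_pos, div_lt_one hp0]; exact hp
  obtain ⟨A, hA, hlen⟩ := exists_length hp hC₂
  have hσ : 0 < σ - 1 := sub_pos.mpr hB.one_lt
  refine ⟨A, min (1 / 64) ((σ - 1) / 32), hA, by positivity, fun s hs hs1 => ?_⟩
  obtain ⟨K, hK1, hKs, hKA⟩ := hlen s hs hs1
  obtain ⟨Φ, hΦ⟩ := hS K
  set G : ℕ → ℕ → Prop := fun M c => Van (γ c) (F M) with hG
  -- the norm bound for legal histories
  have hnorm : ∀ h : List ℕ, Legal G Φ h → h.length ≤ K →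
      ‖(h.map γ).sum‖ ≤ C₂ * (K : ℝ) ^ (1 - 1 / p) := by
    intro h hl hlen
    refine (hΦ.good h hl hlen).trans ?_
    refine mul_le_mul_of_nonneg_left ?_ hC₂.le
    exact Real.rpow_le_rpow (by positivity) (by exact_mod_cast hlen) hexp.le
  have hL0 : 0 ≤ C₂ * (K : ℝ) ^ (1 - 1 / p) := by positivity
  have hdiff : ∀ h : List ℕ, Legal G Φ h → h.length ≤ K → ∀ x y : X,
      val γ s h x ≤ val γ s h y + C₂ * (K : ℝ) ^ (1 - 1 / p) * ‖x - y‖ := by
    intro h hl hlen x y
    have h1 := ((h.map γ).sum).le_opNorm (x - y)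
    rw [Real.norm_eq_abs, map_sub] at h1
    have h2 := (abs_le.mp (h1.trans (mul_le_mul_of_nonneg_right (hnorm h hl hlen)
      (norm_nonneg _)))).2
    simp only [val]
    linarith
  let I := {h : List ℕ // Legal G Φ h ∧ h.length ≤ K}
  have hI : Nonempty I := ⟨⟨[], legal_nil _ _, by simp⟩⟩
  have hbdd : ∀ x : X, BddAbove (Set.range fun h : I => val γ s h.1 x) := by
    intro x
    refine ⟨C₂ * (K : ℝ) ^ (1 - 1 / p) * ‖x‖, ?_⟩
    rintro _ ⟨h, rfl⟩
    have h1 := hdiff h.1 h.2.1 h.2.2 x 0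
    have h2 : val γ s h.1 0 ≤ 0 := by
      simp only [val, map_zero, zero_sub, Left.neg_nonpos_iff]
      positivity
    rw [sub_zero] at h1
    show val γ s h.1 x ≤ _
    linarith
  let E : X → ℝ := fun x => ⨆ h : I, val γ s h.1 x
  have hE : ∀ (h : List ℕ) (x : X), Legal G Φ h → h.length ≤ K → val γ s h x ≤ E x :=
    fun h x h1 h2 => le_ciSup (hbdd x) (⟨h, h1, h2⟩ : I)
  have hE0 : ∀ x, 0 ≤ E x := by
    intro x
    have := hE [] x (legal_nil _ _) (by simp)
    simpa using this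
  have hElip : ∀ x y, E x ≤ E y + C₂ * (K : ℝ) ^ (1 - 1 / p) * ‖x - y‖ := by
    intro x y
    refine ciSup_le fun h => ?_
    have h1 := hdiff h.1 h.2.1 h.2.2 x y
    have h2 := hE h.1 y h.2.1 h.2.2
    linarith
  refine ⟨E, ?_, ?_, hE0, ?_, ?_⟩
  · -- convexity
    refine ⟨convex_univ, fun x _ y _ a b ha hb hab => ?_⟩
    simp only [smul_eq_mul]
    refine ciSup_le fun h => ?_
    have h1 := hE h.1 x h.2.1 h.2.2
    have h2 := hE h.1 y h.2.1 h.2.2
    have h3 : val γ s h.1 (a • x + b • y) = a * val γ s h.1 x + b * val γ s h.1 y := by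
      simp only [val, map_add, map_smul, smul_eq_mul]
      linear_combination (s * (h.1.length : ℝ)) * hab
    rw [h3]
    exact add_le_add (mul_le_mul_of_nonneg_left h1 ha) (mul_le_mul_of_nonneg_left h2 hb)
  · -- value at zero
    refine le_antisymm (ciSup_le fun h => ?_) (hE0 0)
    simp only [val, map_zero, zero_sub, Left.neg_nonpos_iff]
    positivity
  · -- Lipschitz
    intro x y
    have h1 := hElip x y
    have h2 := hElip y x
    rw [norm_sub_rev y x] at h2
    have h3 : C₂ * (K : ℝ) ^ (1 - 1 / p) * ‖x - y‖ ≤ A * s ^ (1 - p) * ‖x - y‖ :=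
      mul_le_mul_of_nonneg_right hKA (norm_nonneg _)
    rw [abs_le]
    constructor <;> linarith
  · -- gain
    intro ε hsε z w hz1 hw1 hsep
    set c := min (1 / 64) ((σ - 1) / 32) with hc
    have hcpos : 0 < c := by positivity
    have hc1 : c ≤ 1 / 64 := min_le_left _ _
    have hc2 : c ≤ (σ - 1) / 32 := min_le_right _ _
    by_contra hcon
    push Not at hcon
    have hε : 0 < ε := by
      by_contra h
      push Not at h
      nlinarith
    have hsε' : 64 * s ≤ ε := by nlinarith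
    have hex : ∀ i, ∃ h : List ℕ, Legal G Φ h ∧ h.length ≤ K ∧
        1 / 2 * E z + 1 / 2 * E (w i) - c * s - c * s < val γ s h ((1 / 2 : ℝ) • (z + w i)) := by
      intro i
      have h1 : 1 / 2 * E z + 1 / 2 * E (w i) - c * s - c * s < E ((1 / 2 : ℝ) • (z + w i)) := by
        have := hcon i
        have : 0 < c * s := by positivity
        linarith [hcon i]
      obtain ⟨h, hh⟩ := exists_lt_of_lt_ciSup h1
      exact ⟨h.1, h.2.1, h.2.2, hh⟩
    choose h hl hK hval using hex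
    have hz : ∀ i, E z - 4 * (c * s) < val γ s (h i) z := by
      intro i
      have h1 := hval i
      rw [val_mid] at h1
      have h2 := hE (h i) (w i) (hl i) (hK i)
      linarith
    have hw : ∀ i, E (w i) - 4 * (c * s) < val γ s (h i) (w i) := by
      intro i
      have h1 := hval i
      rw [val_mid] at h1
      have h2 := hE (h i) z (hl i) (hK i)
      linarith
    have hK' : ∀ i, (h i).length < K := by
      intro i
      refine lt_of_le_of_ne (hK i) fun heq => ?_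
      have h1 := hw i
      have h2 := hE0 (w i)
      have h3 := ((h i).map γ).sum.le_opNorm (w i)
      rw [Real.norm_eq_abs] at h3
      have h4 := (abs_le.mp (h3.trans (mul_le_mul (hnorm (h i) (hl i) (hK i)) (hw1 i)
        (norm_nonneg _) hL0))).2
      simp only [val, heq] at h1
      have h5 : (1 : ℝ) ≤ K := by exact_mod_cast hK1
      nlinarith
    exact gain_core hF hB hγ hΦ.code_le hs (a := 4 * (c * s)) (by positivity) (by nlinarith)
      (by nlinarith) hsε' hE hz1 hw1 hsep hl hK' hz hw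

end Pool.Agent.H53.Umb
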