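import Pool.Agent.H53.Umb.IL

/-!
Functional analytic lemmas for the module GAIN: separated sequences stay away from finite
dimensional subspaces, Hahn-Banach functionals, weak-star ultralimits.
-/

namespace Pool.Agent.H53.Umb

open Filter Topology

variable {X : Type*} [NormedAddCommGroup X] [NormedSpace ℝ X]

/-- A bounded sequence in a finite dimensional subspace has an ultralimit. -/
theorem exists_lim_of_fin (V : Submodule ℝ X) [FiniteDimensional ℝ V] {y : ℕ → X} {R : ℝ}
    (hy : ∀ i, y i ∈ V) (hR : ∀ i, ‖y i‖ ≤ R) :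
    ∃ y₀ ∈ V, Tendsto y (UU : Filter ℕ) (𝓝 y₀) := by
  let y' : ℕ → V := fun i => ⟨y i, hy i⟩
  have hc : IsCompact (Metric.closedBall (0 : V) R) := isCompact_closedBall 0 R
  have hle : ((UU.map y' : Ultrafilter V) : Filter V) ≤ 𝓟 (Metric.closedBall (0 : V) R) := by
    rw [le_principal_iff, Ultrafilter.mem_coe, Ultrafilter.mem_map, ← Ultrafilter.mem_coe]
    refine Filter.univ_mem' fun i => ?_
    simpa [y'] using hR i
  obtain ⟨a, -, hla⟩ := hc.ultrafilter_le_nhds _ hle
  refine ⟨a, a.2, ?_⟩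
  have : Tendsto y' (UU : Filter ℕ) (𝓝 a) := hla
  exact (continuous_subtype_val.tendsto a).comp this

/-- A separated sequence stays away from a finite dimensional subspace. -/
theorem far_of_separated (V : Submodule ℝ X) [FiniteDimensional ℝ V] {w : ℕ → X} {R ε : ℝ}
    (hε : 0 < ε) (hw : ∀ i, ‖w i‖ ≤ R) (hs : ∀ i j, i ≠ j → ε ≤ ‖w i - w j‖) :
    ∀ᶠ i in (UU : Filter ℕ), ∀ y ∈ V, ε / 4 ≤ ‖w i - y‖ := by
  by_contra hcon
  rw [← Ultrafilter.eventually_not] at hcon
  have hex : ∀ i, ∃ y ∈ V, ‖y‖ ≤ R + ε / 4 ∧ ((¬ ∀ y ∈ V, ε / 4 ≤ ‖w i - y‖) → ‖w i - y‖ < ε / 4) := by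
    intro i
    by_cases h : ∀ y ∈ V, ε / 4 ≤ ‖w i - y‖
    · refine ⟨0, V.zero_mem, ?_, fun h' => absurd h h'⟩
      have := (norm_nonneg _).trans (hw i)
      rw [norm_zero]; positivity
    · push Not at h
      obtain ⟨y, hy, hy'⟩ := h
      refine ⟨y, hy, ?_, fun _ => hy'⟩
      have h1 : ‖y‖ ≤ ‖w i‖ + ‖w i - y‖ := by
        have := norm_sub_le (w i) (w i - y)
        simpa using this
      have := hw i
      linarith
  choose y hyV hyR hy using hex
  obtain ⟨y₀, -, hlim⟩ := exists_lim_of_fin V hyV hyR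
  have h1 : ∀ᶠ i in (UU : Filter ℕ), ‖y i - y₀‖ < ε / 4 := by
    have := (tendsto_iff_norm_sub_tendsto_zero.mp hlim).eventually (gt_mem_nhds (show (0:ℝ) < ε / 4 by positivity))
    exact this
  have h2 : ∀ᶠ i in (UU : Filter ℕ), ‖w i - y₀‖ < ε / 2 := by
    filter_upwards [h1, hcon] with i hi hi'
    have h3 := hy i hi'
    have : w i - y₀ = (w i - y i) + (y i - y₀) := by abel
    rw [this]
    have := norm_add_le (w i - y i) (y i - y₀)
    linarith
  obtain ⟨i, hi⟩ := h2.exists
  obtain ⟨j, hj, hij⟩ := (h2.and (eventually_ge_UU (i + 1))).exists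
  have h4 := hs i j (by omega)
  have h5 : w i - w j = (w i - y₀) - (w j - y₀) := by abel
  rw [h5] at h4
  have := norm_sub_le (w i - y₀) (w j - y₀)
  linarith

/-- Hahn-Banach: a functional vanishing on `V` which is large at a point far from `V`. -/
theorem exists_functional (V : Submodule ℝ X) [FiniteDimensional ℝ V] {w : X} {r : ℝ}
    (h : ∀ y ∈ V, r ≤ ‖w - y‖) :
    ∃ g : StrongDual ℝ X, ‖g‖ ≤ 1 ∧ Van g V ∧ r ≤ g w := by
  obtain ⟨f, hf1, hf2⟩ := exists_dual_vector'' ℝ (V.mkQL w : X ⧸ V)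
  refine ⟨f.comp V.mkQL, ?_, ?_, ?_⟩
  · refine ContinuousLinearMap.opNorm_le_bound _ zero_le_one fun x => ?_
    have h1 : ‖(V.mkQL x : X ⧸ V)‖ ≤ ‖x‖ := Submodule.Quotient.norm_mk_le V x
    have h2 := f.le_opNorm (V.mkQL x)
    have h3 : ‖f‖ * ‖(V.mkQL x : X ⧸ V)‖ ≤ 1 * ‖x‖ :=
      mul_le_mul hf1 h1 (norm_nonneg _) zero_le_one
    exact h2.trans h3
  · intro y hy
    have : (V.mkQL y : X ⧸ V) = 0 := by
      simpa using (Submodule.Quotient.mk_eq_zero V).mpr hy
    show f (V.mkQL y) = 0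
    rw [this, map_zero]
  · show r ≤ f (V.mkQL w)
    rw [hf2]
    show r ≤ ‖(V.mkQL w : X ⧸ V)‖
    by_contra hlt
    push Not at hlt
    obtain ⟨m, hm1, hm2⟩ := Submodule.Quotient.norm_mk_lt (V.mkQL w : X ⧸ V) (sub_pos.mpr hlt)
    have hmem : w - m ∈ V := by
      have : (Submodule.Quotient.mk w : X ⧸ V) = Submodule.Quotient.mk m := by
        rw [hm1]; rfl
      exact (Submodule.Quotient.eq V).mp this
    have := h (w - m) hmem
    rw [sub_sub_cancel] at this
    linarith

/-- A functional which is small on `V` is close to one which vanishes on `V`. -/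
theorem exists_van_near (V : Submodule ℝ X) {e : StrongDual ℝ X} {δ : ℝ} (hδ : 0 ≤ δ)
    (h : ∀ y ∈ V, |e y| ≤ δ * ‖y‖) :
    ∃ e' : StrongDual ℝ X, Van e' V ∧ ‖e' - e‖ ≤ δ := by
  obtain ⟨g, hg1, hg2⟩ := exists_extension_norm_eq V (e.comp V.subtypeL)
  refine ⟨e - g, ?_, ?_⟩
  · intro y hy
    have := hg1 ⟨y, hy⟩
    simp only [sub_apply]
    rw [sub_eq_zero]
    exact this.symm
  · have h1 : ‖g‖ ≤ δ := by
      rw [hg2]
      refine ContinuousLinearMap.opNorm_le_bound _ hδ fun y => ?_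
      exact h y y.2
    have : e - g - e = -g := by abel
    rw [this, norm_neg]
    exact h1

/-- Bounded sequences of functionals have weak-star ultralimits. -/
theorem exists_wslim {g : ℕ → StrongDual ℝ X} {R : ℝ} (hg : ∀ i, ‖g i‖ ≤ R) :
    ∃ f, WSLim g f := by
  have hb : ∀ x i, |g i x| ≤ R * ‖x‖ := by
    intro x i
    have := (g i).le_opNorm x
    rw [Real.norm_eq_abs] at this
    exact this.trans (mul_le_mul_of_nonneg_right (hg i) (norm_nonneg x))
  have hl : ∀ x, Tendsto (fun i => g i x) (UU : Filter ℕ) (𝓝 (ul fun i => g i x)) :=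
    fun x => tendsto_ul (hb x)
  let L : X →ₗ[ℝ] ℝ :=
    { toFun := fun x => ul fun i => g i x
      map_add' := by
        intro x y
        apply ul_eq
        have := (hl x).add (hl y)
        simpa using this
      map_smul' := by
        intro c x
        apply ul_eq
        have := (hl x).const_mul c
        simpa using this }
  refine ⟨L.mkContinuous R fun x => ?_, fun x => ?_⟩
  · rw [Real.norm_eq_abs]
    exact abs_ul_le (hb x)
  · exact hl x

/-- Weak-star convergence is uniform on bounded parts of finite dimensional subspaces. -/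
theorem wslim_unif (V : Submodule ℝ X) [FiniteDimensional ℝ V] {g : ℕ → StrongDual ℝ X}
    {f : StrongDual ℝ X} (h : WSLim g f) {δ : ℝ} (hδ : 0 < δ) :
    ∀ᶠ i in (UU : Filter ℕ), ∀ y ∈ V, |g i y - f y| ≤ δ * ‖y‖ := by
  classical
  let b := Module.finBasis ℝ V
  let φ : Fin (Module.finrank ℝ V) → (V →L[ℝ] ℝ) := fun j => LinearMap.toContinuousLinearMap (b.coord j)
  let S : ℝ := ∑ j, ‖φ j‖ + 1
  have hS : 0 < S := by positivity
  have h1 : ∀ᶠ i in (UU : Filter ℕ), ∀ j, |g i (b j : X) - f (b j : X)| < δ / S := by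
    rw [Filter.eventually_all]
    intro j
    have h2 := (h (b j : X)).sub_const (f (b j : X))
    rw [sub_self] at h2
    have h3 := h2.abs
    rw [abs_zero] at h3
    exact h3.eventually (gt_mem_nhds (by positivity))
  filter_upwards [h1] with i hi y hy
  let y' : V := ⟨y, hy⟩
  have hsum : y = ∑ j, (b.repr y' j) • (b j : X) := by
    have h0 : V.subtype y' = V.subtype (∑ j, b.repr y' j • b j) := by rw [b.sum_repr y']
    rw [map_sum] at h0
    exact h0
  have hc : ∀ j, |b.repr y' j| ≤ ‖φ j‖ * ‖y‖ := by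
    intro j
    have := (φ j).le_opNorm y'
    simpa [φ] using this
  have h4 : g i y - f y = ∑ j, b.repr y' j * (g i (b j : X) - f (b j : X)) := by
    conv_lhs => rw [hsum]
    simp only [map_sum, map_smul, smul_eq_mul]
    rw [← Finset.sum_sub_distrib]
    exact Finset.sum_congr rfl fun j _ => by ring
  rw [h4]
  calc |∑ j, b.repr y' j * (g i (b j : X) - f (b j : X))|
      ≤ ∑ j, |b.repr y' j * (g i (b j : X) - f (b j : X))| := Finset.abs_sum_le_sum_abs _ _
    _ ≤ ∑ j, ‖φ j‖ * ‖y‖ * (δ / S) := by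
        refine Finset.sum_le_sum fun j _ => ?_
        rw [abs_mul]
        exact mul_le_mul (hc j) (hi j).le (abs_nonneg _) (by positivity)
    _ = (∑ j, ‖φ j‖) * (δ / S) * ‖y‖ := by
        rw [Finset.sum_mul, Finset.sum_mul]
        exact Finset.sum_congr rfl fun j _ => by ring
    _ ≤ S * (δ / S) * ‖y‖ := by
        have : ∑ j, ‖φ j‖ ≤ S := by simp [S]
        gcongr
    _ = δ * ‖y‖ := by field_simp

end Pool.Agent.H53.Umb
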