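import Pool.Agent.H53.Umb.GainA

/-!
The core of the module GAIN: almost optimal histories at the midpoints `(z + w i) / 2` cannot exist.
-/

namespace Pool.Agent.H53.Umb

open Filter Topology

variable {X : Type*} [NormedAddCommGroup X] [NormedSpace ℝ X]

/-- The value of a history at a point. -/
noncomputable def val (γ : ℕ → StrongDual ℝ X) (s : ℝ) (h : List ℕ) (x : X) : ℝ :=
  (h.map γ).sum x - s * h.length

@[simp] theorem val_nil (γ : ℕ → StrongDual ℝ X) (s : ℝ) (x : X) : val γ s [] x = 0 := by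
  simp [val]

theorem val_concat (γ : ℕ → StrongDual ℝ X) (s : ℝ) (h : List ℕ) (c : ℕ) (x : X) :
    val γ s (h ++ [c]) x = val γ s h x + (γ c x - s) := by
  simp only [val, List.map_append, List.sum_append, List.map_cons, List.map_nil, List.sum_cons,
    List.sum_nil, add_zero, add_apply, List.length_append, List.length_cons,
    List.length_nil, Nat.cast_add, Nat.cast_one, zero_add]
  ring

theorem val_mid (γ : ℕ → StrongDual ℝ X) (s : ℝ) (h : List ℕ) (z w : X) :
    val γ s h ((1 / 2 : ℝ) • (z + w)) = 1 / 2 * val γ s h z + 1 / 2 * val γ s h w := by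
  simp only [val, map_smul, map_add, smul_eq_mul]
  ring

theorem legal_nil (G : ℕ → ℕ → Prop) (Φ : List ℕ → ℕ) : Legal G Φ [] := by
  intro h' c hc
  have := List.IsPrefix.length_le hc
  simp at this

theorem legal_concat_iff {G : ℕ → ℕ → Prop} {Φ : List ℕ → ℕ} {h : List ℕ} {c : ℕ} :
    Legal G Φ (h ++ [c]) ↔ Legal G Φ h ∧ G (Φ h) c := by
  constructor
  · intro H
    refine ⟨fun h' d hd => H h' d (hd.trans (List.prefix_append _ _)), H h c (List.prefix_refl _)⟩
  · rintro ⟨H1, H2⟩ h' d hd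
    rcases List.prefix_concat_iff.mp hd with hd | hd
    · have h1 := List.append_inj_left' hd rfl
      have h2 := List.append_inj_right' hd rfl
      simp only [List.cons.injEq, and_true] at h2
      subst h1; subst h2
      exact H2
    · exact H1 h' d hd

/-- The part of the proof of the gain where the last functional is played after a large code. -/
theorem gain_far {F : ℕ → Submodule ℝ X} (hF : Exh F) {B : Set (StrongDual ℝ X)} {σ : ℝ}
    (hB : GoodSet B σ) {γ : ℕ → StrongDual ℝ X} (hγ : Codes F B γ) {Φ : List ℕ → ℕ}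
    (hΦ : ∀ (h : List ℕ) (c : ℕ), c ∈ h → c ≤ Φ h) {K : ℕ} {s a : ℝ} (hs : 0 < s)
    (ha : a ≤ s / 16)
    {E : X → ℝ} (hE : ∀ (h : List ℕ) (x : X), Legal (fun M c => Van (γ c) (F M)) Φ h →
      h.length ≤ K → val γ s h x ≤ E x)
    {z : X} {h : ℕ → List ℕ} (hl : ∀ i, Legal (fun M c => Van (γ c) (F M)) Φ (h i))
    (hK : ∀ i, (h i).length ≤ K) (hz : ∀ i, E z - a < val γ s (h i) z)
    (hfar : ∀ N : ℕ, ∃ i, ∃ c ∈ (h i).dropLast, N < c) : False := by
  obtain ⟨N, y, hy, hy'⟩ := hF.dense z (s / 8) (by positivity)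
  obtain ⟨i, c, hc, hNc⟩ := hfar N
  have hne : h i ≠ [] := by
    intro h0
    rw [h0] at hc
    simp at hc
  obtain ⟨l, d, hld⟩ : ∃ l d, h i = l ++ [d] :=
    ⟨(h i).dropLast, (h i).getLast hne, (List.dropLast_append_getLast hne).symm⟩
  have hc' : c ∈ l := by
    rw [hld] at hc
    simpa using hc
  have h1 := hl i
  rw [hld] at h1
  obtain ⟨h2, h3⟩ := legal_concat_iff.mp h1
  have h4 : N ≤ Φ l := hNc.le.trans (hΦ l c hc')
  have h5 : γ d y = 0 := h3 y (hF.mono h4 hy)
  have h6 : |γ d z| ≤ 2 * (s / 8) := by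
    have h7 : γ d z = γ d (z - y) := by rw [map_sub, h5, sub_zero]
    rw [h7]
    have h8 := (γ d).le_opNorm (z - y)
    rw [Real.norm_eq_abs] at h8
    have h9 : ‖γ d‖ ≤ 2 := by simpa using hB.sub_ball (hγ.mem d)
    exact h8.trans (mul_le_mul h9 hy'.le (norm_nonneg _) (by norm_num))
  have h10 := hE l z h2 (by
    have := hK i
    rw [hld, List.length_append, List.length_singleton] at this
    omega)
  have h11 := hz i
  rw [hld, val_concat] at h11
  have h12 := (abs_le.mp h6).2
  linarith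

/-- The part where only the last functional varies. -/
theorem gain_last {F : ℕ → Submodule ℝ X} (hF : Exh F) {B : Set (StrongDual ℝ X)} {σ : ℝ}
    (hB : GoodSet B σ) {γ : ℕ → StrongDual ℝ X} (hγ : Codes F B γ) {Φ : List ℕ → ℕ}
    {K : ℕ} {s a ε : ℝ} (hs : 0 < s) (ha0 : 0 ≤ a)
    (ha : a ≤ s / 16) (ha' : a ≤ (σ - 1) * s / 8) (hsε : 64 * s ≤ ε)
    {E : X → ℝ} (hE : ∀ (h : List ℕ) (x : X), Legal (fun M c => Van (γ c) (F M)) Φ h →
      h.length ≤ K → val γ s h x ≤ E x)
    {z : X} {w : ℕ → X} (hz1 : ‖z‖ ≤ 1) (hw1 : ∀ i, ‖w i‖ ≤ 1)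
    (hsep : ∀ i j, i ≠ j → ε ≤ ‖w i - w j‖)
    {l : List ℕ} {c : ℕ → ℕ} (hl : ∀ i, Legal (fun M c => Van (γ c) (F M)) Φ (l ++ [c i]))
    (hK : (l.length + 1 < K))
    (hz : ∀ᶠ i in (UU : Filter ℕ), E z - a < val γ s (l ++ [c i]) z)
    (hw : ∀ᶠ i in (UU : Filter ℕ), E (w i) - a < val γ s (l ++ [c i]) (w i)) : False := by
  have hε : 0 < ε := by linarith
  have hlegal : Legal (fun M c => Van (γ c) (F M)) Φ l := (legal_concat_iff.mp (hl 0)).1
  have hvan : ∀ i, Van (γ (c i)) (F (Φ l)) := fun i => (legal_concat_iff.mp (hl i)).2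
  have hnorm : ∀ i, ‖γ (c i)‖ ≤ 2 := fun i => by simpa using hB.sub_ball (hγ.mem (c i))
  obtain ⟨f, hf⟩ := exists_wslim (g := fun i => γ (c i)) hnorm
  have hfB : f ∈ B := hB.closed _ f (fun i => hγ.mem (c i)) hf
  have hfvan : Van f (F (Φ l)) := by
    intro y hy
    have h1 := hf y
    have h2 : (fun i => γ (c i) y) = fun _ => (0 : ℝ) := funext fun i => hvan i y hy
    rw [h2] at h1
    exact tendsto_nhds_unique h1 tendsto_const_nhds |>.symm ▸ rfl
  have hσ : 1 < σ := hB.one_lt
  by_cases hcase : ∀ᶠ i in (UU : Filter ℕ), 1 / 2 ≤ ‖γ (c i) - f‖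
  · -- (c1)
    have hσf : σ • f ∈ B := by
      classical
      obtain ⟨i₀, hi₀⟩ := hcase.exists
      let g' : ℕ → StrongDual ℝ X := fun i => if 1 / 2 ≤ ‖γ (c i) - f‖ then γ (c i) else γ (c i₀)
      refine hB.expand g' f (fun i => ?_) (fun x => ?_) (fun i => ?_)
      · dsimp only [g']
        split_ifs
        · exact hγ.mem _
        · exact hγ.mem _
      · refine (hf x).congr' ?_
        filter_upwards [hcase] with i hi
        dsimp only [g']
        rw [if_pos hi]
      · dsimp only [g']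
        split_ifs with h
        · exact h
        · exact hi₀
    have hσvan : Van (σ • f) (F (Φ l)) := by
      intro y hy
      rw [smul_apply, hfvan y hy, smul_zero]
    -- `γ (c i) z` is close to `f z`
    have hclose : ∀ δ : ℝ, 0 < δ → ∀ᶠ i in (UU : Filter ℕ), |γ (c i) z - f z| < δ := by
      intro δ hδ
      have h2 := (hf z).sub_const (f z)
      rw [sub_self] at h2
      have h3 := h2.abs
      rw [abs_zero] at h3
      exact h3.eventually (gt_mem_nhds hδ)
    by_cases hfz : f z ≤ s / 2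
    · obtain ⟨i, h1, h2⟩ := (hz.and (hclose (s / 8) (by positivity))).exists
      rw [val_concat] at h1
      have h3 := hE l z hlegal (by omega)
      have h4 := (abs_lt.mp h2).2
      linarith
    · push Not at hfz
      obtain ⟨d, hd1, hd2⟩ := hγ.dense (Φ l) (σ • f) ((σ - 1) * s / 4) hσf hσvan
        (by have := sub_pos.mpr hσ; positivity)
      obtain ⟨i, h1, h2⟩ := (hz.and (hclose ((σ - 1) * s / 16)
        (by have := sub_pos.mpr hσ; positivity))).exists
      rw [val_concat] at h1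
      have h3 := hE (l ++ [d]) z (legal_concat_iff.mpr ⟨hlegal, hd1⟩) (by simp; omega)
      rw [val_concat] at h3
      have h4 := (abs_lt.mp h2).2
      have h5 : |γ d z - σ * f z| ≤ (σ - 1) * s / 4 := by
        have h6 := (γ d - σ • f).le_opNorm z
        rw [Real.norm_eq_abs] at h6
        have h7 : (γ d - σ • f) z = γ d z - σ * f z := by simp
        rw [h7] at h6
        calc |γ d z - σ * f z| ≤ ‖γ d - σ • f‖ * ‖z‖ := h6
          _ ≤ ((σ - 1) * s / 4) * 1 := mul_le_mul hd2 hz1 (norm_nonneg _)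
              (by have := sub_pos.mpr hσ; positivity)
          _ = (σ - 1) * s / 4 := mul_one _
      have h8 := (abs_le.mp h5).1
      have h9 : (σ - 1) * (s / 2) ≤ (σ - 1) * f z :=
        mul_le_mul_of_nonneg_left hfz.le (sub_pos.mpr hσ).le
      have h10 : 0 < (σ - 1) * s := mul_pos (sub_pos.mpr hσ) hs
      nlinarith
  · -- (c2)
    rw [← Ultrafilter.eventually_not] at hcase
    obtain ⟨d, hd1, hd2⟩ := hγ.dense (Φ l) f (s / 4) hfB hfvan (by positivity)
    have hlegal' : Legal (fun M c => Van (γ c) (F M)) Φ (l ++ [d]) :=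
      legal_concat_iff.mpr ⟨hlegal, hd1⟩
    set M' := Φ (l ++ [d]) with hM'
    have := hF.fin M'
    have hunif := wslim_unif (F M') hf (show (0 : ℝ) < s / 8 by positivity)
    have hfar := far_of_separated (F M') hε hw1 hsep
    -- if `s > 1` the statement is void; we need `s / 8 ≤ 1 / 4`
    have hε2 : ε ≤ 2 := by
      have h1 := hsep 0 1 (by norm_num)
      have h2 := norm_sub_le (w 0) (w 1)
      have := hw1 0
      have := hw1 1
      linarith
    obtain ⟨i, ⟨⟨hi1, hi2⟩, hi3⟩, hi4⟩ := (((hw.and hcase).and hunif).and hfar).exists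
    push Not at hi2
    obtain ⟨e', he1, he2⟩ := exists_van_near (F M') (e := γ (c i) - f) (δ := s / 8) (by positivity)
      (fun y hy => by simpa using hi3 y hy)
    obtain ⟨u, hu1, hu2, hu3⟩ := exists_functional (F M') hi4
    have hnorm' : ‖e' + (1 / 4 : ℝ) • u‖ ≤ 1 := by
      have h1 : ‖e'‖ ≤ 1 / 2 + s / 8 := by
        have h2 : e' = (γ (c i) - f) + (e' - (γ (c i) - f)) := by abel
        rw [h2]
        exact (norm_add_le _ _).trans (add_le_add hi2.le he2)
      have h3 : ‖(1 / 4 : ℝ) • u‖ ≤ 1 / 4 := by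
        rw [norm_smul, Real.norm_of_nonneg (by norm_num)]
        linarith
      have := norm_add_le e' ((1 / 4 : ℝ) • u)
      linarith
    have hmem : e' + (1 / 4 : ℝ) • u ∈ B := hB.ball_sub (by simpa using hnorm')
    have hvan' : Van (e' + (1 / 4 : ℝ) • u) (F M') := by
      intro y hy
      rw [add_apply, smul_apply, he1 y hy, hu2 y hy, smul_zero, add_zero]
    obtain ⟨d', hd'1, hd'2⟩ := hγ.dense M' _ (s / 4) hmem hvan' (by positivity)
    have h3 := hE ((l ++ [d]) ++ [d']) (w i) (legal_concat_iff.mpr ⟨hlegal', hd'1⟩)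
      (by simp; omega)
    rw [val_concat, val_concat] at h3
    rw [val_concat] at hi1
    have key : ∀ (φ ψ : StrongDual ℝ X) (r : ℝ), 0 ≤ r → ‖φ - ψ‖ ≤ r →
        |φ (w i) - ψ (w i)| ≤ r := by
      intro φ ψ r hr h
      have h1 := (φ - ψ).le_opNorm (w i)
      rw [Real.norm_eq_abs, sub_apply] at h1
      calc |φ (w i) - ψ (w i)| ≤ ‖φ - ψ‖ * ‖w i‖ := h1
        _ ≤ r * 1 := mul_le_mul h (hw1 i) (norm_nonneg _) hr
        _ = r := mul_one r
    have k1 := (abs_le.mp (key _ _ _ (by positivity) hd2)).1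
    have k2 := (abs_le.mp (key _ _ _ (by positivity) hd'2)).1
    have k3 := (abs_le.mp (key _ _ _ (by positivity) he2)).1
    rw [add_apply, smul_apply, smul_eq_mul] at k2
    rw [sub_apply] at k3
    linarith

end Pool.Agent.H53.Umb
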