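import Pool.Agent.H53.Umb.Defs

/-!
API for ultralimits of real sequences (`ul`), iterated ultralimits (`IL`, total function, meaningful
for `Bd` functions) and the relation `RIL r h l a` (`a` is the iterated ultralimit of `h` in `r`
variables from `l`; no boundedness needed).
-/

namespace Pool.Agent.H53.Umb

open Filter Topology

/-! ### `ul` -/

theorem ul_eq {h : ℕ → ℝ} {a : ℝ} (H : Tendsto h (UU : Filter ℕ) (𝓝 a)) : ul h = a :=
  H.limUnder_eq

theorem exists_tendsto_UU {h : ℕ → ℝ} {M : ℝ} (H : ∀ i, |h i| ≤ M) :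
    ∃ a, |a| ≤ M ∧ Tendsto h (UU : Filter ℕ) (𝓝 a) := by
  have hc : IsCompact (Set.Icc (-M) M) := isCompact_Icc
  have hle : ((UU.map h : Ultrafilter ℝ) : Filter ℝ) ≤ 𝓟 (Set.Icc (-M) M) := by
    rw [le_principal_iff, Ultrafilter.mem_coe, Ultrafilter.mem_map, ← Ultrafilter.mem_coe]
    exact Filter.univ_mem' fun i => ⟨(abs_le.mp (H i)).1, (abs_le.mp (H i)).2⟩
  obtain ⟨a, ha, hla⟩ := hc.ultrafilter_le_nhds _ hle
  exact ⟨a, abs_le.mpr ⟨ha.1, ha.2⟩, hla⟩

theorem tendsto_ul {h : ℕ → ℝ} {M : ℝ} (H : ∀ i, |h i| ≤ M) :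
    Tendsto h (UU : Filter ℕ) (𝓝 (ul h)) := by
  obtain ⟨a, -, ha⟩ := exists_tendsto_UU H
  rwa [ul_eq ha]

theorem abs_ul_le {h : ℕ → ℝ} {M : ℝ} (H : ∀ i, |h i| ≤ M) : |ul h| ≤ M := by
  obtain ⟨a, ha', ha⟩ := exists_tendsto_UU H
  rwa [ul_eq ha]

@[simp] theorem ul_const (a : ℝ) : ul (fun _ => a) = a := ul_eq tendsto_const_nhds

/-- A set in the filter `UU` is infinite; in particular `n ≤ i` for `UU`-many `i`. -/
theorem eventually_ge_UU (n : ℕ) : ∀ᶠ i in (UU : Filter ℕ), n ≤ i := by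
  have : (UU : Filter ℕ) ≤ atTop := by
    rw [← Nat.cofinite_eq_atTop]
    exact hyperfilter_le_cofinite
  exact this (eventually_ge_atTop n)

theorem UU_le_atTop : (UU : Filter ℕ) ≤ atTop := by
  rw [← Nat.cofinite_eq_atTop]
  exact hyperfilter_le_cofinite

/-! ### `RIL` -/

/-- `a` is the iterated ultralimit of `h` in `r` new variables, starting from `l`. -/
def RIL : ℕ → (List ℕ → ℝ) → List ℕ → ℝ → Prop
  | 0, h, l, a => h l = a
  | r + 1, h, l, a => ∃ a' : ℕ → ℝ, (∀ i, RIL r h (l ++ [i]) (a' i)) ∧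
      Tendsto a' (UU : Filter ℕ) (𝓝 a)

theorem RIL.il_eq {r : ℕ} {h : List ℕ → ℝ} {l : List ℕ} {a : ℝ} (H : RIL r h l a) :
    IL r h l = a := by
  induction r generalizing l a with
  | zero => exact H
  | succ r ih =>
    obtain ⟨a', h1, h2⟩ := H
    show ul (fun i => IL r h (l ++ [i])) = a
    have : (fun i => IL r h (l ++ [i])) = a' := funext fun i => ih (h1 i)
    rw [this]
    exact ul_eq h2

theorem RIL.unique {r : ℕ} {h : List ℕ → ℝ} {l : List ℕ} {a b : ℝ} (H : RIL r h l a)
    (H' : RIL r h l b) : a = b := H.il_eq.symm.trans H'.il_eq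

/-- Only the values at the extensions of `l` by `r` entries matter. -/
theorem RIL.congr {r : ℕ} {h h' : List ℕ → ℝ} {l : List ℕ} {a : ℝ} (H : RIL r h l a)
    (hh : ∀ m : List ℕ, m.length = r → h' (l ++ m) = h (l ++ m)) : RIL r h' l a := by
  induction r generalizing l a with
  | zero =>
    have := hh [] rfl
    simp only [List.append_nil] at this
    exact this.trans H
  | succ r ih =>
    obtain ⟨a', h1, h2⟩ := H
    refine ⟨a', fun i => ih (h1 i) fun m hm => ?_, h2⟩
    have := hh (i :: m) (by simp [hm])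
    simpa using this

theorem RIL.const (r : ℕ) (a : ℝ) (l : List ℕ) : RIL r (fun _ => a) l a := by
  induction r generalizing l with
  | zero => rfl
  | succ r ih => exact ⟨fun _ => a, fun i => ih _, tendsto_const_nhds⟩

theorem RIL.add {r : ℕ} {h h' : List ℕ → ℝ} {l : List ℕ} {a b : ℝ} (H : RIL r h l a)
    (H' : RIL r h' l b) : RIL r (fun m => h m + h' m) l (a + b) := by
  induction r generalizing l a b with
  | zero => exact congrArg₂ (· + ·) H H'
  | succ r ih =>
    obtain ⟨a', h1, h2⟩ := H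
    obtain ⟨b', h3, h4⟩ := H'
    exact ⟨fun i => a' i + b' i, fun i => ih (h1 i) (h3 i), h2.add h4⟩

theorem RIL.const_mul {r : ℕ} {h : List ℕ → ℝ} {l : List ℕ} {a : ℝ} (c : ℝ) (H : RIL r h l a) :
    RIL r (fun m => c * h m) l (c * a) := by
  induction r generalizing l a with
  | zero => exact congrArg (c * ·) H
  | succ r ih =>
    obtain ⟨a', h1, h2⟩ := H
    exact ⟨fun i => c * a' i, fun i => ih (h1 i), h2.const_mul c⟩

theorem RIL.neg {r : ℕ} {h : List ℕ → ℝ} {l : List ℕ} {a : ℝ} (H : RIL r h l a) :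
    RIL r (fun m => - h m) l (-a) := by
  have := H.const_mul (-1)
  simpa using this

theorem RIL.sub {r : ℕ} {h h' : List ℕ → ℝ} {l : List ℕ} {a b : ℝ} (H : RIL r h l a)
    (H' : RIL r h' l b) : RIL r (fun m => h m - h' m) l (a - b) := by
  have := H.add H'.neg
  simpa [sub_eq_add_neg] using this

theorem RIL.sum {ι : Type*} (s : Finset ι) {r : ℕ} {h : ι → List ℕ → ℝ} {l : List ℕ} {a : ι → ℝ}
    (H : ∀ j ∈ s, RIL r (h j) l (a j)) : RIL r (fun m => ∑ j ∈ s, h j m) l (∑ j ∈ s, a j) := by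
  classical
  induction s using Finset.induction_on with
  | empty => simpa using RIL.const r 0 l
  | insert j s hj ih =>
    simp only [Finset.sum_insert hj]
    exact (H j (Finset.mem_insert_self _ _)).add
      (ih fun i hi => H i (Finset.mem_insert_of_mem hi))

/-- Composition: first `b` variables are removed, then `a` variables. -/
theorem RIL.comp {a b : ℕ} {h h' : List ℕ → ℝ} {l : List ℕ} {c : ℝ}
    (H : ∀ m : List ℕ, m.length = a → RIL b h (l ++ m) (h' (l ++ m))) (H' : RIL a h' l c) :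
    RIL (a + b) h l c := by
  induction a generalizing l c with
  | zero =>
    have := H [] rfl
    simp only [List.append_nil] at this
    rw [Nat.zero_add]
    have h0 : h' l = c := H'
    rwa [h0] at this
  | succ a ih =>
    obtain ⟨a', h1, h2⟩ := H'
    rw [Nat.succ_add]
    refine ⟨a', fun i => ih (fun m hm => ?_) (h1 i), h2⟩
    have := H (i :: m) (by simp [hm])
    simpa using this

theorem RIL.mono {r : ℕ} {h h' : List ℕ → ℝ} {l : List ℕ} {a b : ℝ} (H : RIL r h l a)
    (H' : RIL r h' l b) (hh : ∀ m : List ℕ, m.length = r → h (l ++ m) ≤ h' (l ++ m)) :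
    a ≤ b := by
  induction r generalizing l a b with
  | zero =>
    have := hh [] rfl
    simp only [List.append_nil] at this
    have h1 : h l = a := H
    have h2 : h' l = b := H'
    linarith
  | succ r ih =>
    obtain ⟨a', h1, h2⟩ := H
    obtain ⟨b', h3, h4⟩ := H'
    refine le_of_tendsto_of_tendsto' h2 h4 fun i => ih (h1 i) (h3 i) fun m hm => ?_
    have := hh (i :: m) (by simp [hm])
    simpa using this

/-- Existence for functions bounded at the extensions of `l` by `r` entries. -/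
theorem exists_RIL {r : ℕ} {h : List ℕ → ℝ} {l : List ℕ} {M : ℝ}
    (H : ∀ m : List ℕ, m.length = r → |h (l ++ m)| ≤ M) : ∃ a, |a| ≤ M ∧ RIL r h l a := by
  induction r generalizing l with
  | zero =>
    refine ⟨h l, ?_, rfl⟩
    simpa using H [] rfl
  | succ r ih =>
    have : ∀ i, ∃ a, |a| ≤ M ∧ RIL r h (l ++ [i]) a := fun i => ih fun m hm => by
      simpa using H (i :: m) (by simp [hm])
    choose a' ha' h1 using this
    obtain ⟨a, ha, h2⟩ := exists_tendsto_UU ha'
    exact ⟨a, ha, a', h1, h2⟩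

theorem ril_il_of_bdd {r : ℕ} {h : List ℕ → ℝ} {l : List ℕ} {M : ℝ}
    (H : ∀ m : List ℕ, m.length = r → |h (l ++ m)| ≤ M) : RIL r h l (IL r h l) := by
  obtain ⟨a, -, ha⟩ := exists_RIL H
  rwa [ha.il_eq]

/-- The iterated ultralimit of a `Bd` function is `IL`. -/
theorem ril_il {r : ℕ} {h : List ℕ → ℝ} (hb : Bd h) (l : List ℕ) : RIL r h l (IL r h l) := by
  obtain ⟨M, hM⟩ := hb
  refine ril_il_of_bdd (M := M (l.length + r)) fun m hm => ?_
  have := hM (l ++ m)
  rwa [List.length_append, hm] at this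

/-- There is an extension at which `h` is almost at most its iterated limit. -/
theorem RIL.exists_lt {r : ℕ} {h : List ℕ → ℝ} {l : List ℕ} {a c : ℝ} (H : RIL r h l a)
    (hc : a < c) : ∃ m : List ℕ, m.length = r ∧ h (l ++ m) < c := by
  induction r generalizing l a with
  | zero =>
    refine ⟨[], rfl, ?_⟩
    have h1 : h l = a := H
    simpa [h1] using hc
  | succ r ih =>
    obtain ⟨a', h1, h2⟩ := H
    have h3 : ∀ᶠ i in (UU : Filter ℕ), a' i < c := h2.eventually_lt_const hc
    obtain ⟨i, hi⟩ := h3.exists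
    obtain ⟨m, hm, hm'⟩ := ih (h1 i) hi
    exact ⟨i :: m, by simp [hm], by simpa using hm'⟩

/-- A last variable `i` tends to infinity: if `h (m ++ [i])` has limit `0` for every `m` then the
iterated limit is `0`. -/
theorem RIL.of_last {r : ℕ} {h : List ℕ → ℝ} {h' : List ℕ → ℝ} {l : List ℕ} {c : ℝ}
    (H : ∀ m : List ℕ, m.length = r →
      Tendsto (fun i => h (l ++ m ++ [i])) (UU : Filter ℕ) (𝓝 (h' (l ++ m))))
    (H' : RIL r h' l c) : RIL (r + 1) h l c :=
  RIL.comp (a := r) (b := 1) (fun m hm => ⟨fun i => h (l ++ m ++ [i]), fun _ => rfl, H m hm⟩) H'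

end Pool.Agent.H53.Umb
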