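import Mathlib

/-!
Combinatorics for module LOW: masks of the branches of the binomial tree, numbers of ones,
and a weighted sum of binomial coefficients.
-/

namespace Pool.Agent.H53.Umb

/-- Selection of the entries of a list marked `true`. -/
def sel : List Bool → List ℕ → List ℕ
  | true :: M, i :: l => i :: sel M l
  | false :: M, _ :: l => sel M l
  | _, _ => []

@[simp] theorem sel_nil_left (l : List ℕ) : sel [] l = [] := by cases l <;> rfl
@[simp] theorem sel_nil_right (M : List Bool) : sel M [] = [] := by
  cases M with
  | nil => rfl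
  | cons b M => cases b <;> rfl
@[simp] theorem sel_true (M : List Bool) (i : ℕ) (l : List ℕ) :
    sel (true :: M) (i :: l) = i :: sel M l := rfl
@[simp] theorem sel_false (M : List Bool) (i : ℕ) (l : List ℕ) :
    sel (false :: M) (i :: l) = sel M l := rfl

theorem sel_append (V M : List Bool) (n l : List ℕ) (h : V.length = n.length) :
    sel (V ++ M) (n ++ l) = sel V n ++ sel M l := by
  induction V generalizing n with
  | nil =>
    cases n with
    | nil => simp
    | cons a n => simp at h
  | cons b V ih =>
    cases n with
    | nil => simp at h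
    | cons a n =>
      have h' : V.length = n.length := by simpa using h
      cases b
      · simpa using ih n h'
      · simpa using ih n h'

theorem sel_append_right (M : List Bool) (l l' : List ℕ) (h : M.length ≤ l.length) :
    sel M (l ++ l') = sel M l := by
  induction M generalizing l with
  | nil => simp
  | cons b M ih =>
    cases l with
    | nil => simp at h
    | cons a l =>
      have h' : M.length ≤ l.length := by simpa using h
      cases b
      · simpa using ih l h'
      · simpa using ih l h'

/-- Stretching of a mask: every entry is followed by `false`. -/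
def st (M : List Bool) : List Bool := M.flatMap (fun b => [b, false])

@[simp] theorem st_append (V M : List Bool) : st (V ++ M) = st V ++ st M := by
  simp [st]

@[simp] theorem st_length (M : List Bool) : (st M).length = 2 * M.length := by
  induction M with
  | nil => rfl
  | cons b M ih => simp only [st, List.flatMap_cons, List.length_append, List.length_cons] at ih ⊢
                   simp only [List.length_nil]
                   omega

@[simp] theorem st_count (M : List Bool) : (st M).count true = M.count true := by
  induction M with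
  | nil => rfl
  | cons b M ih =>
    have : st (b :: M) = b :: false :: st M := rfl
    rw [this]
    cases b <;> simp [ih]

/-- The mask of the branch to the node `L` of the binomial tree. -/
def msk (L : ℕ) : List Bool :=
  if _h : L = 0 then [true]
  else (st (msk (L / 2))).dropLast ++ (if L % 2 = 1 then [true] else [])
termination_by L
decreasing_by omega

theorem msk_zero : msk 0 = [true] := by rw [msk]; rfl

theorem msk_eq (L : ℕ) : msk L = (st (msk (L / 2))).dropLast ++
    (if L % 2 = 1 then [true] else []) := by
  by_cases h : L = 0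
  · subst h
    simp [msk_zero, st]
  · conv_lhs => rw [msk]
    rw [dif_neg h]

theorem msk_ends (L : ℕ) : ∃ M : List Bool, msk L = M ++ [true] := by
  induction L using Nat.strong_induction_on with
  | _ L ih =>
    by_cases h : L = 0
    · subst h; exact ⟨[], msk_zero⟩
    · rw [msk_eq]
      by_cases h2 : L % 2 = 1
      · rw [if_pos h2]; exact ⟨_, rfl⟩
      · rw [if_neg h2, List.append_nil]
        obtain ⟨M, hM⟩ := ih (L / 2) (by omega)
        refine ⟨st M, ?_⟩
        rw [hM, st_append]
        show (st M ++ [true, false]).dropLast = _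
        rw [show ([true, false] : List Bool) = [true] ++ [false] from rfl, ← List.append_assoc,
          List.dropLast_concat]

theorem msk_length (L : ℕ) : (msk L).length = L + 1 := by
  induction L using Nat.strong_induction_on with
  | _ L ih =>
    by_cases h : L = 0
    · subst h; rw [msk_zero]; rfl
    · rw [msk_eq, List.length_append, List.length_dropLast, st_length, ih (L / 2) (by omega)]
      split_ifs with h2
      · simp; omega
      · simp; omega

theorem st_msk_dropLast_count (L : ℕ) : ((st (msk L)).dropLast).count true = (msk L).count true := by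
  obtain ⟨M, hM⟩ := msk_ends L
  rw [hM, st_append]
  show ((st M ++ [true, false]).dropLast).count true = _
  rw [show ([true, false] : List Bool) = [true] ++ [false] from rfl, ← List.append_assoc,
    List.dropLast_concat]
  simp

/-- One plus the number of ones. -/
def cn (L : ℕ) : ℕ := (msk L).count true

theorem cn_zero : cn 0 = 1 := by rw [cn, msk_zero]; rfl

theorem cn_even (L : ℕ) : cn (2 * L) = cn L := by
  rw [cn, msk_eq, show 2 * L / 2 = L by omega, if_neg (by omega), List.append_nil,
    st_msk_dropLast_count, cn]

theorem cn_odd (L : ℕ) : cn (2 * L + 1) = cn L + 1 := by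
  rw [cn, msk_eq, show (2 * L + 1) / 2 = L by omega, if_pos (by omega), List.count_append,
    st_msk_dropLast_count, cn]
  rfl

theorem msk_starts (L : ℕ) : ∃ M : List Bool, msk L = true :: M ∧ M.length = L := by
  have key : ∃ M : List Bool, msk L = true :: M := by
    induction L using Nat.strong_induction_on with
    | _ L ih =>
      by_cases h : L = 0
      · subst h; exact ⟨[], msk_zero⟩
      · obtain ⟨M, hM⟩ := ih (L / 2) (by omega)
        rw [msk_eq, hM]
        have : st (true :: M) = true :: false :: st M := rfl
        rw [this]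
        rw [List.dropLast_cons_of_ne_nil (by simp)]
        exact ⟨_, List.cons_append⟩
  obtain ⟨M, hM⟩ := key
  refine ⟨M, hM, ?_⟩
  have := msk_length L
  rw [hM] at this
  simpa using this

/-- The block structure of the masks. -/
theorem msk_block (t s : ℕ) : ∃ V : List Bool, V.length = (2 * t + 1) * 2 ^ s ∧
    V.count true = cn t ∧ ∀ r, r < 2 ^ s → msk ((2 * t + 1) * 2 ^ s + r) = V ++ msk r := by
  induction s with
  | zero =>
    refine ⟨(st (msk t)).dropLast, ?_, st_msk_dropLast_count t, ?_⟩
    · rw [List.length_dropLast, st_length, msk_length]; simp; omega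
    · intro r hr
      have : r = 0 := by simpa using hr
      subst this
      rw [msk_zero, msk_eq]
      simp only [pow_zero, mul_one, add_zero]
      rw [show (2 * t + 1) / 2 = t by omega, if_pos (by omega)]
  | succ s ih =>
    obtain ⟨V, h1, h2, h3⟩ := ih
    refine ⟨st V, by rw [st_length, h1]; ring, by rw [st_count, h2], ?_⟩
    intro r hr
    have hr2 : r / 2 < 2 ^ s := by rw [pow_succ] at hr; omega
    have e1 : ((2 * t + 1) * 2 ^ (s + 1) + r) / 2 = (2 * t + 1) * 2 ^ s + r / 2 := by
      rw [pow_succ, show (2 * t + 1) * (2 ^ s * 2) + r = r + 2 * ((2 * t + 1) * 2 ^ s) by ring,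
        Nat.add_mul_div_left _ _ (by norm_num)]
      ring
    have e2 : ((2 * t + 1) * 2 ^ (s + 1) + r) % 2 = r % 2 := by
      rw [pow_succ, show (2 * t + 1) * (2 ^ s * 2) + r = r + 2 * ((2 * t + 1) * 2 ^ s) by ring,
        Nat.add_mul_mod_self_left]
    rw [msk_eq, e1, e2, h3 _ hr2, st_append, msk_eq r]
    have hne : st (msk (r / 2)) ≠ [] := by
      intro h
      have := congrArg List.length h
      rw [st_length, msk_length] at this
      simp at this
    rw [List.dropLast_append_of_ne_nil hne, List.append_assoc]

/-! ### Sums over the numbers below a power of two -/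

theorem sum_even_odd (f : ℕ → ℝ) (n : ℕ) :
    ∑ u ∈ Finset.range (2 * n), f u = ∑ u ∈ Finset.range n, (f (2 * u) + f (2 * u + 1)) := by
  induction n with
  | zero => simp
  | succ n ih =>
    rw [show 2 * (n + 1) = 2 * n + 1 + 1 by ring, Finset.sum_range_succ, Finset.sum_range_succ, ih,
      Finset.sum_range_succ]
    ring

theorem sum_cn (R : ℕ) (g : ℕ → ℝ) : ∑ u ∈ Finset.range (2 ^ R), g (cn u) =
    ∑ j ∈ Finset.range (R + 1), (R.choose j : ℝ) * g (j + 1) := by
  induction R generalizing g with
  | zero => simp [cn_zero]
  | succ R ih =>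
    rw [pow_succ, mul_comm, sum_even_odd]
    simp only [cn_even, cn_odd]
    rw [Finset.sum_add_distrib, ih g, ih (fun j => g (j + 1))]
    have e1 : ∑ j ∈ Finset.range (R + 1 + 1), ((R + 1).choose j : ℝ) * g (j + 1) =
        (∑ j ∈ Finset.range (R + 1), ((R + 1).choose (j + 1) : ℝ) * g (j + 1 + 1)) + g 1 := by
      rw [Finset.sum_range_succ']; simp
    have e2 : ∑ j ∈ Finset.range (R + 1), (R.choose j : ℝ) * g (j + 1) =
        (∑ j ∈ Finset.range (R + 1), (R.choose (j + 1) : ℝ) * g (j + 1 + 1)) + g 1 := by
      have : ∑ j ∈ Finset.range (R + 1 + 1), (R.choose j : ℝ) * g (j + 1) =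
          ∑ j ∈ Finset.range (R + 1), (R.choose j : ℝ) * g (j + 1) := by
        rw [Finset.sum_range_succ, Nat.choose_succ_self]; simp
      rw [← this, Finset.sum_range_succ']; simp
    rw [e1, e2, add_right_comm, ← Finset.sum_add_distrib]
    congr 1
    refine Finset.sum_congr rfl fun j _ => ?_
    rw [Nat.choose_succ_succ]
    push_cast
    ring

theorem two_sub_sum (j K : ℕ) : ∑ R ∈ Finset.range (K + 1), ((2 : ℝ) ^ R)⁻¹ * (R.choose j : ℝ) +
    ((2 : ℝ) ^ K)⁻¹ * ∑ i ∈ Finset.range (j + 1), ((K + 1).choose i : ℝ) = 2 := by
  induction K with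
  | zero =>
    simp only [zero_add, Finset.range_one, Finset.sum_singleton, pow_zero, inv_one, one_mul]
    cases j with
    | zero => norm_num
    | succ j =>
      rw [Finset.sum_range_succ', Finset.sum_range_succ']
      have h0 : ∑ k ∈ Finset.range j, ((Nat.choose 1 (k + 1 + 1) : ℕ) : ℝ) = 0 :=
        Finset.sum_eq_zero fun k _ => by rw [Nat.choose_eq_zero_of_lt (by omega)]; simp
      simp [h0]
      norm_num
  | succ K ih =>
    rw [Finset.sum_range_succ]
    have h : ∑ i ∈ Finset.range (j + 1), ((K + 1 + 1).choose i : ℝ) =
        2 * ∑ i ∈ Finset.range (j + 1), ((K + 1).choose i : ℝ) - ((K + 1).choose j : ℝ) := by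
      clear ih
      induction j with
      | zero => norm_num
      | succ j ih =>
        rw [Finset.sum_range_succ, ih, Finset.sum_range_succ _ (j + 1), Nat.choose_succ_succ]
        push_cast
        ring
    rw [h, pow_succ]
    have h2 : (2 : ℝ) ^ K ≠ 0 := by positivity
    field_simp
    field_simp at ih
    linarith

theorem one_le_sum {j m : ℕ} (h : j ≤ m) :
    1 ≤ ∑ R ∈ Finset.range (2 * m + 1), ((2 : ℝ) ^ R)⁻¹ * (R.choose j : ℝ) := by
  have h1 := two_sub_sum j (2 * j)
  have h2 : ∑ i ∈ Finset.range (j + 1), ((2 * j + 1).choose i : ℝ) = 4 ^ j := by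
    have := Nat.sum_range_choose_halfway j
    exact_mod_cast this
  rw [h2, pow_mul] at h1
  norm_num at h1
  have h3 : ∑ R ∈ Finset.range (2 * j + 1), ((2 : ℝ) ^ R)⁻¹ * (R.choose j : ℝ) ≤
      ∑ R ∈ Finset.range (2 * m + 1), ((2 : ℝ) ^ R)⁻¹ * (R.choose j : ℝ) :=
    Finset.sum_le_sum_of_subset_of_nonneg (Finset.range_mono (by omega)) fun i _ _ => by positivity
  linarith

/-- The final summation. -/
theorem sum_final (m : ℕ) (g : ℕ → ℝ) (hg : ∀ j, 0 ≤ g j) :
    ∑ j ∈ Finset.range (m + 1), g (j + 1) ≤
      ∑ R ∈ Finset.range (2 * m + 1), ((2 : ℝ) ^ R)⁻¹ * ∑ u ∈ Finset.range (2 ^ R), g (cn u) := by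
  have e : ∀ R ∈ Finset.range (2 * m + 1), ((2 : ℝ) ^ R)⁻¹ * ∑ u ∈ Finset.range (2 ^ R), g (cn u) =
      ∑ j ∈ Finset.range (2 * m + 1), ((2 : ℝ) ^ R)⁻¹ * (R.choose j : ℝ) * g (j + 1) := by
    intro R hR
    rw [sum_cn, Finset.mul_sum]
    rw [Finset.mem_range] at hR
    have hsub : Finset.range (R + 1) ⊆ Finset.range (2 * m + 1) := Finset.range_mono (by omega)
    rw [← Finset.sum_subset hsub]
    · exact Finset.sum_congr rfl fun j _ => by ring
    · intro j _ hj
      rw [Finset.mem_range, not_lt] at hj
      rw [Nat.choose_eq_zero_of_lt (by omega)]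
      simp
  rw [Finset.sum_congr rfl e, Finset.sum_comm]
  calc ∑ j ∈ Finset.range (m + 1), g (j + 1)
      ≤ ∑ j ∈ Finset.range (m + 1), ∑ R ∈ Finset.range (2 * m + 1),
          ((2 : ℝ) ^ R)⁻¹ * (R.choose j : ℝ) * g (j + 1) := by
        refine Finset.sum_le_sum fun j hj => ?_
        rw [Finset.mem_range] at hj
        rw [← Finset.sum_mul]
        have := one_le_sum (j := j) (m := m) (by omega)
        nlinarith [hg (j + 1)]
    _ ≤ _ := Finset.sum_le_sum_of_subset_of_nonneg (Finset.range_mono (by omega))
        fun j _ _ => Finset.sum_nonneg fun R _ => mul_nonneg (by positivity) (hg _)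

end Pool.Agent.H53.Umb
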