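import Pool.Agent.H53.Umb.UI
import Pool.Agent.H53.Umb.LowComb

/-!
MODULE LOW (lower estimate along weakly continuous trees). `sel (msk L) l` is the branch to the node
`L` of the binomial tree, read in `l`; `F l = ∑ L < l.length, A (sel (msk L) l)`.
-/

namespace Pool.Agent.H53.Umb

open Filter Topology

/-- Weakly continuous functions: the iterated limit along any selection. -/
theorem ril_sel {h : List ℕ → ℝ}
    (hh : ∀ w : List ℕ, Tendsto (fun i => h (w ++ [i])) (UU : Filter ℕ) (𝓝 (h w)))
    (r : ℕ) (M : List Bool) (b w : List ℕ) :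
    RIL r (fun l => h (w ++ sel M (l.drop b.length))) b (h w) := by
  induction r generalizing M b w with
  | zero =>
    show h (w ++ sel M (b.drop b.length)) = h w
    rw [List.drop_length, sel_nil_right, List.append_nil]
  | succ r ih =>
    cases M with
    | nil =>
      simp only [sel_nil_left, List.append_nil]
      exact RIL.const _ _ _
    | cons c M =>
      cases c with
      | false =>
        refine ⟨fun _ => h w, fun i => ?_, tendsto_const_nhds⟩
        refine (ih M (b ++ [i]) w).congr fun m hm => ?_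
        congr 2
        rw [List.drop_left, List.append_assoc, List.drop_left]
        rfl
      | true =>
        refine ⟨fun i => h (w ++ [i]), fun i => ?_, hh w⟩
        refine (ih M (b ++ [i]) (w ++ [i])).congr fun m hm => ?_
        rw [List.drop_left, List.append_assoc b, List.drop_left, List.append_assoc w]
        rfl

/-- Dummy variables do not matter. -/
theorem ril_dummy {d : List ℕ → ℝ} (hd : Bd d) (M : List Bool) (b w : List ℕ) :
    RIL M.length (fun l => d (w ++ sel M (l.drop b.length))) b (IL (M.count true) d w) := by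
  induction M generalizing b w with
  | nil =>
    show d (w ++ sel [] (b.drop b.length)) = d w
    rw [sel_nil_left, List.append_nil]
  | cons c M ih =>
    cases c with
    | false =>
      have hc : (false :: M).count true = M.count true := by simp
      rw [hc]
      refine ⟨fun _ => IL (M.count true) d w, fun i => ?_, tendsto_const_nhds⟩
      refine (ih (b ++ [i]) w).congr fun m hm => ?_
      congr 2
      rw [List.drop_left, List.append_assoc, List.drop_left]
      rfl
    | true =>
      have hc : (true :: M).count true = M.count true + 1 := by simp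
      rw [hc]
      obtain ⟨a', h1, h2⟩ := ril_il (r := M.count true + 1) hd w
      have ha' : a' = fun i => IL (M.count true) d (w ++ [i]) := funext fun i => (h1 i).il_eq.symm
      rw [ha'] at h2
      refine ⟨fun i => IL (M.count true) d (w ++ [i]), fun i => ?_, h2⟩
      refine (ih (b ++ [i]) (w ++ [i])).congr fun m hm => ?_
      rw [List.drop_left, List.append_assoc b, List.drop_left, List.append_assoc w]
      rfl

variable {X : Type*} [NormedAddCommGroup X] [NormedSpace ℝ X]

/-- The function to which `UI` is applied. -/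
noncomputable def FF (A : List ℕ → X) (l : List ℕ) : X :=
  ∑ L ∈ Finset.range l.length, A (sel (msk L) l)

theorem FF_inc {A : List ℕ → X} {B : ℝ} (hB : ∀ l, ‖A l‖ ≤ B) (l : List ℕ) (i : ℕ) :
    ‖FF A (l ++ [i]) - FF A l‖ ≤ B := by
  have : FF A (l ++ [i]) = FF A l + A (sel (msk l.length) (l ++ [i])) := by
    rw [FF, List.length_append, List.length_singleton, Finset.sum_range_succ, FF]
    congr 1
    refine Finset.sum_congr rfl fun L hL => ?_
    rw [Finset.mem_range] at hL
    rw [sel_append_right _ _ _ (by rw [msk_length]; omega)]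
  rw [this, add_sub_cancel_left]
  exact hB _

theorem FF_norm {A : List ℕ → X} {B : ℝ} (hB : ∀ l, ‖A l‖ ≤ B) (l : List ℕ) :
    ‖FF A l‖ ≤ l.length * B := by
  rw [FF]
  refine (norm_sum_le _ _).trans ?_
  calc ∑ L ∈ Finset.range l.length, ‖A (sel (msk L) l)‖ ≤ ∑ L ∈ Finset.range l.length, B :=
        Finset.sum_le_sum fun L _ => hB _
    _ = _ := by simp

/-- Decomposition at a block. -/
theorem FF_block (A : List ℕ → X) {N w : ℕ} {V : List Bool} (hV : V.length = N)
    (hb : ∀ r, r < w → msk (N + r) = V ++ msk r) {n δ : List ℕ} (hn : n.length = N)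
    (hδ : δ.length = w) :
    FF A (n ++ δ) = FF A n + ∑ r ∈ Finset.range w, A (sel V n ++ sel (msk r) δ) := by
  rw [FF, List.length_append, hn, hδ, Finset.sum_range_add, FF, hn]
  congr 1
  · refine Finset.sum_congr rfl fun L hL => ?_
    rw [Finset.mem_range] at hL
    rw [sel_append_right _ _ _ (by rw [msk_length]; omega)]
  · refine Finset.sum_congr rfl fun r hr => ?_
    rw [Finset.mem_range] at hr
    rw [hb r hr, sel_append _ _ _ _ (by rw [hV, hn])]

theorem low_pair {A : List ℕ → X} {B : ℝ}
    (hA : ∀ l, WLim (fun i => A (l ++ [i])) (A l)) (hB : ∀ l, ‖A l‖ ≤ B) (t s : ℕ) :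
    (2 : ℝ) ^ s * IL (cn t + 1) (fun l => ‖A l - A l.dropLast‖) [] ≤
      IL ((2 * t + 1) * 2 ^ s + 2 ^ s + 2 ^ s)
        (fun l => ‖FF A (l.take ((2 * t + 1) * 2 ^ s + 2 ^ s)) -
          FF A (l.take ((2 * t + 1) * 2 ^ s) ++ l.drop ((2 * t + 1) * 2 ^ s + 2 ^ s))‖) [] := by
  obtain ⟨V, hV, hVc, hb⟩ := msk_block t s
  set N := (2 * t + 1) * 2 ^ s with hN
  obtain ⟨w, hw⟩ : ∃ w, 2 ^ s = w + 1 := ⟨2 ^ s - 1, by have := Nat.one_le_two_pow (n := s); omega⟩
  have hwR : (2 : ℝ) ^ s = (w : ℝ) + 1 := by exact_mod_cast hw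
  rw [hw] at hb ⊢
  rw [hwR]
  have hB0 : 0 ≤ B := (norm_nonneg _).trans (hB [])
  set G : List ℕ → ℝ := fun l => ‖FF A (l.take (N + (w + 1))) -
    FF A (l.take N ++ l.drop (N + (w + 1)))‖ with hG
  set d : List ℕ → ℝ := fun l => ‖A l - A l.dropLast‖ with hd
  have hdB : Bd d := ⟨fun _ => B + B, fun l => by
    rw [abs_of_nonneg (norm_nonneg _)]
    exact (norm_sub_le _ _).trans (add_le_add (hB _) (hB _))⟩
  -- bound for G
  have hGb : ∀ l, |G l| ≤ (2 * l.length) * B := by
    intro l
    rw [abs_of_nonneg (norm_nonneg _)]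
    refine (norm_sub_le _ _).trans ?_
    have h1 := FF_norm hB (l.take (N + (w + 1)))
    have h2 := FF_norm hB (l.take N ++ l.drop (N + (w + 1)))
    have l1 : ((l.take (N + (w + 1))).length : ℝ) ≤ l.length := by
      exact_mod_cast List.length_take_le' _ _
    have l2 : ((l.take N ++ l.drop (N + (w + 1))).length : ℝ) ≤ l.length := by
      have : (l.take N ++ l.drop (N + (w + 1))).length ≤ l.length := by
        rw [List.length_append, List.length_take, List.length_drop]
        omega
      exact_mod_cast this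
    nlinarith
  -- inner limit
  have inner : ∀ m : List ℕ, m.length = N + 1 →
      ((w : ℝ) + 1) * d (sel (V ++ [true]) m) ≤ IL (w + (w + 1)) G m := by
    intro m hm
    obtain ⟨n, x, rfl⟩ : ∃ n x, m = n ++ [x] := by
      have hne : m ≠ [] := by rintro rfl; simp at hm
      exact ⟨m.dropLast, m.getLast hne, (List.dropLast_append_getLast hne).symm⟩
    have hn : n.length = N := by simpa using hm
    have hsel : sel (V ++ [true]) (n ++ [x]) = sel V n ++ [x] := by
      rw [sel_append _ _ _ _ (by rw [hV, hn])]; rfl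
    rw [hsel]
    have hdv : d (sel V n ++ [x]) = ‖A (sel V n ++ [x]) - A (sel V n)‖ := by
      simp only [hd, List.dropLast_concat]
    rw [hdv]
    obtain ⟨φ, hφ1, hφ2⟩ := exists_dual_vector'' ℝ (A (sel V n ++ [x]) - A (sel V n))
    have hlim : ∀ u : List ℕ, Tendsto (fun i => φ (A (u ++ [i]))) (UU : Filter ℕ) (𝓝 (φ (A u))) :=
      fun u => hA u φ
    -- the limit of the functional
    have hRIL : RIL (w + (w + 1)) (fun l => ∑ r ∈ Finset.range (w + 1),
        (φ (A ((sel V n ++ [x]) ++ sel ((msk r).tail) (l.drop (n ++ [x]).length))) -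
         φ (A (sel V n ++ sel (List.replicate w false ++ msk r) (l.drop (n ++ [x]).length)))))
        (n ++ [x]) (∑ r ∈ Finset.range (w + 1), (φ (A (sel V n ++ [x])) - φ (A (sel V n)))) := by
      refine RIL.sum _ fun r _ => ?_
      refine RIL.sub ?_ ?_
      · exact ril_sel (h := fun u => φ (A u)) hlim _ _ _ _
      · exact ril_sel (h := fun u => φ (A u)) hlim _ _ _ _
    have hval : ∑ r ∈ Finset.range (w + 1), (φ (A (sel V n ++ [x])) - φ (A (sel V n))) =
        ((w : ℝ) + 1) * ‖A (sel V n ++ [x]) - A (sel V n)‖ := by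
      rw [Finset.sum_const, Finset.card_range, nsmul_eq_mul, ← map_sub, hφ2]
      push_cast
      rfl
    rw [hval] at hRIL
    have hGR : RIL (w + (w + 1)) G (n ++ [x]) (IL (w + (w + 1)) G (n ++ [x])) :=
      ril_il_of_bdd (M := (2 * ((n ++ [x]).length + (w + (w + 1)) : ℕ)) * B) fun m' hm' => by
        have := hGb (n ++ [x] ++ m')
        rwa [List.length_append, hm'] at this
    refine hRIL.mono hGR fun y hy => ?_
    obtain ⟨δ, η, rfl, hδ, hη⟩ : ∃ δ η, y = δ ++ η ∧ δ.length = w ∧ η.length = w + 1 :=
      ⟨y.take w, y.drop w, (List.take_append_drop _ _).symm, by rw [List.length_take]; omega,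
        by rw [List.length_drop]; omega⟩
    have t1 : (n ++ [x] ++ (δ ++ η)).take (N + (w + 1)) = n ++ (x :: δ) := by
      rw [show n ++ [x] ++ (δ ++ η) = (n ++ (x :: δ)) ++ η by simp]
      rw [List.take_left' (by simp [hn, hδ])]
    have t2 : (n ++ [x] ++ (δ ++ η)).take N = n := by
      rw [show n ++ [x] ++ (δ ++ η) = n ++ (x :: (δ ++ η)) by simp]
      rw [List.take_left' hn]
    have t3 : (n ++ [x] ++ (δ ++ η)).drop (N + (w + 1)) = η := by
      rw [show n ++ [x] ++ (δ ++ η) = (n ++ (x :: δ)) ++ η by simp]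
      rw [List.drop_left' (by simp [hn, hδ])]
    have e1 := FF_block A hV hb hn (δ := x :: δ) (by simp [hδ])
    have e2 := FF_block A hV hb hn (δ := η) hη
    have hGval : G (n ++ [x] ++ (δ ++ η)) = ‖∑ r ∈ Finset.range (w + 1),
        (A (sel V n ++ sel (msk r) (x :: δ)) - A (sel V n ++ sel (msk r) η))‖ := by
      simp only [hG]
      rw [t1, t2, t3, e1, e2, add_sub_add_left_eq_sub, Finset.sum_sub_distrib]
    rw [hGval]
    have hφsum : ∑ r ∈ Finset.range (w + 1),
        (φ (A ((sel V n ++ [x]) ++ sel ((msk r).tail)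
          ((n ++ [x] ++ (δ ++ η)).drop (n ++ [x]).length))) -
         φ (A (sel V n ++ sel (List.replicate w false ++ msk r)
          ((n ++ [x] ++ (δ ++ η)).drop (n ++ [x]).length)))) =
        φ (∑ r ∈ Finset.range (w + 1),
          (A (sel V n ++ sel (msk r) (x :: δ)) - A (sel V n ++ sel (msk r) η))) := by
      rw [map_sum]
      refine Finset.sum_congr rfl fun r hr => ?_
      rw [Finset.mem_range] at hr
      rw [map_sub, List.drop_left]
      obtain ⟨M, hM, hMl⟩ := msk_starts r
      have a1 : (sel V n ++ [x]) ++ sel ((msk r).tail) (δ ++ η) =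
          sel V n ++ sel (msk r) (x :: δ) := by
        rw [hM, List.tail_cons, sel_true, sel_append_right _ _ _ (by rw [hMl, hδ]; omega)]
        simp
      have a2 : sel (List.replicate w false ++ msk r) (δ ++ η) = sel (msk r) η := by
        rw [sel_append _ _ _ _ (by rw [List.length_replicate, hδ])]
        have : ∀ (k : ℕ) (l : List ℕ), sel (List.replicate k false) l = [] := by
          intro k
          induction k with
          | zero => intro l; simp
          | succ k ih =>
            intro l
            cases l with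
            | nil => simp
            | cons a l => rw [List.replicate_succ, sel_false, ih]
        rw [this, List.nil_append]
      rw [a1, a2]
    rw [hφsum]
    refine (le_abs_self _).trans ?_
    rw [← Real.norm_eq_abs]
    refine (φ.le_opNorm _).trans ?_
    exact mul_le_of_le_one_left (norm_nonneg _) hφ1
  -- outer limit
  have houter : RIL (N + 1) (fun m => ((w : ℝ) + 1) * d (sel (V ++ [true]) m)) []
      (((w : ℝ) + 1) * IL (cn t + 1) d []) := by
    have h := ril_dummy hdB (V ++ [true]) [] []
    have hl : (V ++ [true]).length = N + 1 := by rw [List.length_append, hV]; rfl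
    have hc : (V ++ [true]).count true = cn t + 1 := by rw [List.count_append, hVc]; rfl
    rw [hl, hc] at h
    have h' := h.const_mul ((w : ℝ) + 1)
    simpa using h'
  have hGm : ∀ m : List ℕ, m.length = N + 1 →
      RIL (w + (w + 1)) G m (IL (w + (w + 1)) G m) := fun m hm =>
    ril_il_of_bdd (M := (2 * (m.length + (w + (w + 1)) : ℕ)) * B) fun m' hm' => by
      have := hGb (m ++ m')
      rwa [List.length_append, hm'] at this
  have hGout : RIL (N + 1) (fun m => IL (w + (w + 1)) G m) []
      (IL (N + 1) (fun m => IL (w + (w + 1)) G m) []) := by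
    refine ril_il_of_bdd (M := (2 * (N + 1 + (w + (w + 1)) : ℕ)) * B) fun m hm => ?_
    rw [List.nil_append]
    obtain ⟨a, ha, hR⟩ := exists_RIL (r := w + (w + 1)) (h := G) (l := m)
      (M := (2 * (N + 1 + (w + (w + 1)) : ℕ)) * B) fun m' hm' => by
        have := hGb (m ++ m')
        rwa [List.length_append, hm', hm] at this
    rw [hR.il_eq]
    exact ha
  have hcomp : RIL (N + 1 + (w + (w + 1))) G [] (IL (N + 1) (fun m => IL (w + (w + 1)) G m) []) :=
    RIL.comp (fun m hm => by rw [List.nil_append]; exact hGm m hm) hGout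
  have hmono := houter.mono hGout fun m hm => by
    rw [List.nil_append]; exact inner m hm
  rw [show N + (w + 1) + (w + 1) = N + 1 + (w + (w + 1)) by ring, hcomp.il_eq]
  exact hmono

theorem low {p P : ℝ} (hp : 1 ≤ p) (hP : 0 < P) (hU : UmbelIneq p P X) {A : List ℕ → X} {B : ℝ}
    (hA : ∀ l, WLim (fun i => A (l ++ [i])) (A l)) (hB : ∀ l, ‖A l‖ ≤ B) (m : ℕ) :
    ∑ j ∈ Finset.range (m + 1), (IL (j + 2) (fun l => ‖A l - A l.dropLast‖) []) ^ p
      ≤ P ^ p * B ^ p := by
  have hB0 : 0 ≤ B := (norm_nonneg _).trans (hB [])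
  set d : List ℕ → ℝ := fun l => ‖A l - A l.dropLast‖ with hd
  have hdB : Bd d := ⟨fun _ => B + B, fun l => by
    rw [abs_of_nonneg (norm_nonneg _)]
    exact (norm_sub_le _ _).trans (add_le_add (hB _) (hB _))⟩
  have hnn : ∀ k, 0 ≤ IL k d [] := fun k =>
    (RIL.const k 0 []).mono (ril_il hdB []) fun _ _ => norm_nonneg _
  have hUI := UI hp hP hU (k := 2 * m + 2) (by omega) (F := FF A) hB0 (FF_inc hB)
    (a := fun _ t => IL (cn (t - 1) + 1) d []) (fun _ _ => hnn _) (by
      intro s _ t ht
      rw [Finset.mem_Icc] at ht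
      obtain ⟨u, rfl⟩ : ∃ u, t = u + 1 := ⟨t - 1, by omega⟩
      rw [show u + 1 - 1 = u by omega]
      have e1 : (u + 1) * 2 ^ (s + 1) = (2 * u + 1) * 2 ^ s + 2 ^ s := by rw [pow_succ]; ring
      rw [e1, show (2 * u + 1) * 2 ^ s + 2 ^ s - 2 ^ s = (2 * u + 1) * 2 ^ s by omega]
      exact low_pair hA hB u s)
  refine le_trans ?_ hUI
  have h1 := sum_final m (fun j => (IL (j + 1) d []) ^ p) fun j => Real.rpow_nonneg (hnn _) _
  refine h1.trans (le_of_eq ?_)
  rw [show 2 * m + 2 - 1 = 2 * m + 1 by omega]
  symm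
  refine Finset.sum_nbij' (fun s => 2 * m + 1 - s) (fun R => 2 * m + 1 - R) ?_ ?_ ?_ ?_ ?_
  · intro s hs
    rw [Finset.mem_Icc] at hs
    rw [Finset.mem_range]
    omega
  · intro R hR
    rw [Finset.mem_range] at hR
    rw [Finset.mem_Icc]
    omega
  · intro s hs
    rw [Finset.mem_Icc] at hs
    omega
  · intro R hR
    rw [Finset.mem_range] at hR
    omega
  · intro s _
    congr 1
    refine Finset.sum_nbij' (fun t => t - 1) (fun u => u + 1) ?_ ?_ ?_ ?_ ?_
    · intro t ht
      rw [Finset.mem_Icc] at ht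
      rw [Finset.mem_range]
      omega
    · intro u hu
      rw [Finset.mem_range] at hu
      rw [Finset.mem_Icc]
      omega
    · intro t ht
      rw [Finset.mem_Icc] at ht
      omega
    · intro u _
      omega
    · intro t _
      rfl

end Pool.Agent.H53.Umb
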