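import Pool.Agent.H53.Umb.Defs

/-!
MODULE NORM (final renorming). Proof: for `n : ℕ` let `s n = 2^{-n}` and `E n` the potential at the
scale `s n`. Put `Ψ x = ‖x‖ + ∑' n, (s n)^(q-1) * (E n x + E n (-x))`. From `zero`, `nonneg`, `lip`:
`0 ≤ E n x ≤ C (s n)^(1-p) ‖x‖`, so the series converges (ratio `2^{-(q-p)}`) and `Ψ` is convex,
even, `Ψ 0 = 0`, `Ψ x ≥ ‖x‖`, Lipschitz with some constant `L ≥ 1`. Let `N` be the gauge of the
convex symmetric closed set `{Ψ ≤ 1}` (`gaugeSeminorm`); `N x ≤ 1 ↔ Ψ x ≤ 1` (continuity of `Ψ`),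
`‖x‖ ≤ N x ≤ L ‖x‖`. If `N z ≤ 1`, `N (x n) ≤ 1`, `N (x i - x j) ≥ t` then `‖x i - x j‖ ≥ t / L =: ε`,
`t ≤ 2` (otherwise impossible), choose `n` with `c ε / 2 < s n ≤ c ε` (w.l.o.g. `c` small);
by convexity of the other terms and the gain of `E n` (apply it with `w i = - x i`)
`Ψ ((1/2)(z - x i)) ≤ 1 - c (s n)^q =: 1 - η` for some `i`, and `Ψ ((1+η/L) y) ≤ Ψ y + η` for
`‖y‖ ≤ 1` gives `N y ≤ 1 / (1 + η / L)`.
-/

namespace Pool.Agent.H53.Umb

open Filter Topology

section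

variable {X : Type*} [NormedAddCommGroup X] [NormedSpace ℝ X]

/-- The last step: from the convex function `Ψ` to the norm. -/
theorem norm_of_psi {q L κ : ℝ} (hL : 1 ≤ L) (hκ : 0 < κ) (Ψ : X → ℝ)
    (hconv : ConvexOn ℝ Set.univ Ψ) (heven : ∀ x, Ψ (-x) = Ψ x) (hzero : Ψ 0 = 0)
    (hge : ∀ x, ‖x‖ ≤ Ψ x) (hlip : ∀ x y, |Ψ x - Ψ y| ≤ L * ‖x - y‖)
    (hgain : ∀ ε : ℝ, 0 < ε → ε ≤ 2 → ∀ (z : X) (x : ℕ → X), Ψ z ≤ 1 → (∀ i, Ψ (x i) ≤ 1) →
      (∀ i j, i ≠ j → ε ≤ ‖x i - x j‖) →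
      ∃ i, Ψ ((1 / 2 : ℝ) • (z - x i)) ≤ 1 - κ * ε ^ q) :
    ∃ N : Seminorm ℝ X, EquivNorm N ∧ HasBeta q N := by
  classical
  have hL0 : 0 < L := lt_of_lt_of_le one_pos hL
  set S : Set X := {x | Ψ x ≤ 1} with hS
  have hcont : Continuous Ψ := by
    have : LipschitzWith ⟨L, hL0.le⟩ Ψ := by
      refine LipschitzWith.of_dist_le_mul fun x y => ?_
      rw [Real.dist_eq, dist_eq_norm]
      exact hlip x y
    exact this.continuous
  have hSclosed : IsClosed S := isClosed_le hcont continuous_const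
  have hSconv : Convex ℝ S := by
    have := hconv.convex_le 1
    simpa [hS] using this
  have hle : ∀ x, Ψ x ≤ L * ‖x‖ := by
    intro x
    have := hlip x 0
    rw [hzero, sub_zero, sub_zero] at this
    exact le_trans (le_abs_self _) this
  have hSbal : Balanced ℝ S := by
    intro a ha
    rintro _ ⟨x, hx, rfl⟩
    have hx' : Ψ x ≤ 1 := hx
    have habs : |a| ≤ 1 := by simpa [Real.norm_eq_abs] using ha
    have h1 : ∀ b : ℝ, 0 ≤ b → b ≤ 1 → Ψ (b • x) ≤ 1 := by
      intro b hb0 hb1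
      have := hconv.2 (Set.mem_univ x) (Set.mem_univ (0 : X)) hb0 (sub_nonneg.mpr hb1) (by ring)
      simp only [smul_zero, add_zero, smul_eq_mul, hzero, mul_zero] at this
      have h3 : b * Ψ x ≤ 1 := by nlinarith [le_trans (norm_nonneg x) (hge x)]
      exact le_trans this h3
    show Ψ (a • x) ≤ 1
    rcases le_total 0 a with h | h
    · exact h1 a h (by rwa [abs_of_nonneg h] at habs)
    · have := h1 (-a) (by linarith) (by rwa [abs_of_nonpos h] at habs)
      rw [neg_smul, heven] at this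
      exact this
  have hball : Metric.ball (0 : X) L⁻¹ ⊆ S := by
    intro x hx
    have hx' : ‖x‖ < L⁻¹ := by simpa using hx
    have h2 : L * ‖x‖ ≤ L * L⁻¹ := mul_le_mul_of_nonneg_left hx'.le hL0.le
    rw [mul_inv_cancel₀ hL0.ne'] at h2
    exact le_trans (hle x) h2
  have hS0 : S ∈ 𝓝 (0 : X) := Filter.mem_of_superset (Metric.ball_mem_nhds _ (by positivity)) hball
  have hSabs : Absorbent ℝ S := absorbent_nhds_zero hS0
  set N : Seminorm ℝ X := gaugeSeminorm hSbal hSconv hSabs with hN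
  have hNg : ∀ x, N x = gauge S x := fun x => rfl
  have hN1 : ∀ x, N x ≤ 1 ↔ Ψ x ≤ 1 := by
    intro x
    rw [hNg, gauge_le_one_iff_mem_closure hSconv hS0, hSclosed.closure_eq]
    exact Iff.rfl
  have hNsmul : ∀ (a : ℝ) x, N (a • x) = |a| * N x := by
    intro a x
    rw [map_smul_eq_mul, Real.norm_eq_abs]
  have hNge : ∀ x, ‖x‖ ≤ N x := by
    intro x
    refine le_of_forall_gt_imp_ge_of_dense fun r hr => ?_
    have hr0 : 0 < r := lt_of_le_of_lt (apply_nonneg N x) hr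
    have h1 : N (r⁻¹ • x) ≤ 1 := by
      rw [hNsmul, abs_of_pos (inv_pos.mpr hr0), inv_mul_le_iff₀ hr0, mul_one]
      exact hr.le
    have h2 := le_trans (hge _) ((hN1 _).1 h1)
    rw [norm_smul, Real.norm_eq_abs, abs_of_pos (inv_pos.mpr hr0), inv_mul_le_iff₀ hr0,
      mul_one] at h2
    exact h2
  have hNle : ∀ x, N x ≤ L * ‖x‖ := by
    intro x
    refine le_of_forall_gt_imp_ge_of_dense fun r hr => ?_
    have hr0 : 0 < r := lt_of_le_of_lt (by positivity) hr
    have h1 : Ψ (r⁻¹ • x) ≤ 1 := by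
      refine le_trans (hle _) ?_
      rw [norm_smul, Real.norm_eq_abs, abs_of_pos (inv_pos.mpr hr0), ← mul_assoc, mul_comm L,
        mul_assoc, inv_mul_le_iff₀ hr0, mul_one]
      exact hr.le
    have h2 := (hN1 _).2 h1
    rw [hNsmul, abs_of_pos (inv_pos.mpr hr0), inv_mul_le_iff₀ hr0, mul_one] at h2
    exact h2
  refine ⟨N, ⟨1, L, one_pos, hL0, fun x => ⟨by rw [one_mul]; exact hNge x, hNle x⟩⟩, ?_⟩
  refine ⟨(κ * (L⁻¹) ^ q / (2 * L))⁻¹, by positivity, ?_⟩
  intro t ht z x hz hx hsep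
  have ht2 : t ≤ 2 := by
    have h1 := hsep 0 1 (by norm_num)
    have h2 : N (x 0 - x 1) ≤ N (x 0) + N (x 1) := map_sub_le_add N _ _
    linarith [hx 0, hx 1]
  have hε : 0 < t / L := by positivity
  have hε2 : t / L ≤ 2 := by
    rw [div_le_iff₀ hL0]
    nlinarith
  obtain ⟨i, hi⟩ := hgain (t / L) hε hε2 z x ((hN1 _).1 hz) (fun i => (hN1 _).1 (hx i)) (by
    intro i j hij
    rw [div_le_iff₀ hL0, mul_comm]
    exact le_trans (hsep i j hij) (hNle _))
  refine ⟨i, ?_⟩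
  set y : X := (1 / 2 : ℝ) • (z - x i) with hy
  set η : ℝ := κ * (t / L) ^ q with hη
  have hη0 : 0 < η := by positivity
  have hΨ0 : 0 ≤ Ψ y := le_trans (norm_nonneg _) (hge y)
  have hη1 : η ≤ 1 := by linarith
  have hny : ‖y‖ ≤ 1 := le_trans (hge y) (by linarith)
  have ha0 : 0 ≤ η / L := by positivity
  have ha1 : η / L ≤ 1 := by
    rw [div_le_iff₀ hL0]; linarith
  have h1 : Ψ ((1 + η / L) • y) ≤ 1 := by
    have h2 := hlip ((1 + η / L) • y) y
    have h3 : (1 + η / L) • y - y = (η / L) • y := by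
      rw [add_smul, one_smul, add_sub_cancel_left]
    rw [h3, norm_smul, Real.norm_eq_abs, abs_of_nonneg ha0] at h2
    have h4 : L * (η / L * ‖y‖) ≤ η := by
      have : L * (η / L * ‖y‖) = η * ‖y‖ := by field_simp
      rw [this]
      nlinarith
    have h5 := le_trans (le_abs_self _) h2
    linarith
  have h2 := (hN1 _).2 h1
  rw [hNsmul, abs_of_pos (by linarith : 0 < 1 + η / L)] at h2
  have h3 : N y ≤ 1 - (η / L) / 2 := by
    have hN0 : 0 ≤ N y := apply_nonneg N y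
    have hN1' : N y ≤ 1 := by nlinarith
    by_contra hcon
    push Not at hcon
    have : (1 + η / L) * (1 - (η / L) / 2) < (1 + η / L) * N y := by
      apply mul_lt_mul_of_pos_left hcon; linarith
    nlinarith
  have h4 : t ^ q / (κ * (L⁻¹) ^ q / (2 * L))⁻¹ = (η / L) / 2 := by
    rw [hη, div_inv_eq_mul, div_eq_mul_inv t L, Real.mul_rpow ht.le (by positivity)]
    field_simp
  rw [h4]
  exact h3

end

theorem norm_of_potential {X : Type*} [NormedAddCommGroup X] [NormedSpace ℝ X]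
    {p q C c : ℝ} (hp : 1 < p) (hpq : p < q) (hC : 0 < C) (hc : 0 < c)
    (hE : ∀ s : ℝ, 0 < s → s ≤ 1 → ∃ E : X → ℝ, Potential p C c s E) :
    ∃ N : Seminorm ℝ X, EquivNorm N ∧ HasBeta q N := by
  classical
  have hq0 : 0 < q := by linarith
  have hs0 : ∀ n : ℕ, 0 < (1 / 2 : ℝ) ^ n := fun n => by positivity
  have hs1 : ∀ n : ℕ, (1 / 2 : ℝ) ^ n ≤ 1 := fun n => pow_le_one₀ (by norm_num) (by norm_num)
  choose E hEP using fun n : ℕ => hE ((1 / 2 : ℝ) ^ n) (hs0 n) (hs1 n)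
  set s : ℕ → ℝ := fun n => (1 / 2 : ℝ) ^ n with hs
  set r : ℝ := (1 / 2 : ℝ) ^ (q - p) with hr
  have hr0 : 0 < r := by positivity
  have hr1 : r < 1 := Real.rpow_lt_one (by norm_num) (by norm_num) (by linarith)
  -- the terms
  set G : ℕ → X → ℝ := fun n x => (s n) ^ (q - 1) * (E n x + E n (-x)) with hG
  have hsq : ∀ n, (s n) ^ (q - 1) * (C * (s n) ^ (1 - p)) = C * r ^ n := by
    intro n
    have h1 : (s n) ^ (q - 1) * (s n) ^ (1 - p) = r ^ n := by
      rw [← Real.rpow_add (hs0 n), hr]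
      rw [← Real.rpow_natCast, ← Real.rpow_natCast, ← Real.rpow_mul (by norm_num),
        ← Real.rpow_mul (by norm_num)]
      congr 1
      ring
    calc (s n) ^ (q - 1) * (C * (s n) ^ (1 - p)) = C * ((s n) ^ (q - 1) * (s n) ^ (1 - p)) := by
          ring
      _ = _ := by rw [h1]
  have hsq0 : ∀ n, 0 ≤ (s n) ^ (q - 1) := fun n => Real.rpow_nonneg (hs0 n).le _
  have hGnn : ∀ n x, 0 ≤ G n x := fun n x =>
    mul_nonneg (hsq0 n) (add_nonneg ((hEP n).nonneg _) ((hEP n).nonneg _))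
  have hG0 : ∀ n, G n 0 = 0 := by
    intro n
    simp [hG, (hEP n).zero]
  have hGeven : ∀ n x, G n (-x) = G n x := by
    intro n x
    simp only [hG, neg_neg]
    ring
  have hGlip : ∀ n x y, |G n x - G n y| ≤ 2 * C * r ^ n * ‖x - y‖ := by
    intro n x y
    have h1 := (hEP n).lip x y
    have h2 := (hEP n).lip (-x) (-y)
    have h3 : ‖-x - -y‖ = ‖x - y‖ := by
      rw [← norm_neg]; congr 1; abel
    rw [h3] at h2
    have h4 : G n x - G n y = (s n) ^ (q - 1) * ((E n x - E n y) + (E n (-x) - E n (-y))) := by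
      simp only [hG]; ring
    rw [h4, abs_mul, abs_of_nonneg (hsq0 n)]
    calc (s n) ^ (q - 1) * |(E n x - E n y) + (E n (-x) - E n (-y))|
        ≤ (s n) ^ (q - 1) * (C * (s n) ^ (1 - p) * ‖x - y‖ + C * (s n) ^ (1 - p) * ‖x - y‖) := by
          refine mul_le_mul_of_nonneg_left ?_ (hsq0 n)
          exact le_trans (abs_add_le _ _) (add_le_add h1 h2)
      _ = 2 * ((s n) ^ (q - 1) * (C * (s n) ^ (1 - p))) * ‖x - y‖ := by ring
      _ = 2 * C * r ^ n * ‖x - y‖ := by rw [hsq]; ring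
  have hGle : ∀ n x, G n x ≤ 2 * C * r ^ n * ‖x‖ := by
    intro n x
    have := hGlip n x 0
    rw [hG0, sub_zero, sub_zero] at this
    exact le_trans (le_abs_self _) this
  have hgeo : ∀ a : ℝ, Summable fun n : ℕ => 2 * C * r ^ n * a := fun a =>
    ((summable_geometric_of_lt_one hr0.le hr1).mul_left (2 * C)).mul_right a
  have hgeoS : ∀ a : ℝ, ∑' n : ℕ, 2 * C * r ^ n * a = 2 * C * (1 - r)⁻¹ * a := by
    intro a
    rw [tsum_mul_right, tsum_mul_left, tsum_geometric_of_lt_one hr0.le hr1]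
  have hGsum : ∀ x, Summable fun n => G n x := fun x =>
    Summable.of_nonneg_of_le (fun n => hGnn n x) (fun n => hGle n x) (hgeo ‖x‖)
  set Ψ : X → ℝ := fun x => ‖x‖ + ∑' n, G n x with hΨ
  set L : ℝ := 1 + 2 * C * (1 - r)⁻¹ with hLdef
  have h1r : 0 < (1 - r)⁻¹ := inv_pos.mpr (by linarith)
  have hL1 : 1 ≤ L := by
    have : 0 < 2 * C * (1 - r)⁻¹ := by positivity
    linarith
  -- convexity of the terms
  have hEc : ∀ n (x y : X) (a b : ℝ), 0 ≤ a → 0 ≤ b → a + b = 1 →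
      E n (a • x + b • y) ≤ a * E n x + b * E n y := by
    intro n x y a b ha hb hab
    have := (hEP n).convex.2 (Set.mem_univ x) (Set.mem_univ y) ha hb hab
    simpa [smul_eq_mul] using this
  have hGc : ∀ n (x y : X) (a b : ℝ), 0 ≤ a → 0 ≤ b → a + b = 1 →
      G n (a • x + b • y) ≤ a * G n x + b * G n y := by
    intro n x y a b ha hb hab
    have h1 := hEc n x y a b ha hb hab
    have h2 := hEc n (-x) (-y) a b ha hb hab
    have h3 : a • (-x) + b • (-y) = -(a • x + b • y) := by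
      rw [smul_neg, smul_neg]; abel
    rw [h3] at h2
    calc G n (a • x + b • y)
        = (s n) ^ (q - 1) * (E n (a • x + b • y) + E n (-(a • x + b • y))) := rfl
      _ ≤ (s n) ^ (q - 1) * ((a * E n x + b * E n y) + (a * E n (-x) + b * E n (-y))) :=
          mul_le_mul_of_nonneg_left (add_le_add h1 h2) (hsq0 n)
      _ = a * G n x + b * G n y := by simp only [hG]; ring
  refine norm_of_psi (κ := c * (min c (1 / 2) / 2) ^ q) (L := L) hL1 ?_ Ψ ?_ ?_ ?_ ?_ ?_ ?_
  · have : 0 < min c (1 / 2) := lt_min hc (by norm_num)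
    positivity
  · refine ⟨convex_univ, fun x _ y _ a b ha hb hab => ?_⟩
    simp only [hΨ, smul_eq_mul]
    have h1 : ‖a • x + b • y‖ ≤ a * ‖x‖ + b * ‖y‖ := by
      refine le_trans (norm_add_le _ _) ?_
      rw [norm_smul, norm_smul, Real.norm_eq_abs, Real.norm_eq_abs, abs_of_nonneg ha,
        abs_of_nonneg hb]
    have h2 : ∑' n, G n (a • x + b • y) ≤ a * ∑' n, G n x + b * ∑' n, G n y := by
      rw [← tsum_mul_left, ← tsum_mul_left, ← Summable.tsum_add ((hGsum x).mul_left a)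
        ((hGsum y).mul_left b)]
      exact Summable.tsum_le_tsum (fun n => hGc n x y a b ha hb hab) (hGsum _)
        (((hGsum x).mul_left a).add ((hGsum y).mul_left b))
    linarith
  · intro x
    simp only [hΨ, norm_neg, hGeven]
  · simp [hΨ, hG0]
  · intro x
    simp only [hΨ]
    have : 0 ≤ ∑' n, G n x := tsum_nonneg fun n => hGnn n x
    linarith
  · intro x y
    simp only [hΨ]
    have h1 : |‖x‖ - ‖y‖| ≤ ‖x - y‖ := abs_norm_sub_norm_le x y
    have h2 : |∑' n, G n x - ∑' n, G n y| ≤ 2 * C * (1 - r)⁻¹ * ‖x - y‖ := by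
      rw [← Summable.tsum_sub (hGsum x) (hGsum y), ← hgeoS, ← Real.norm_eq_abs]
      exact tsum_of_norm_bounded (hgeo _).hasSum fun n => by
        rw [Real.norm_eq_abs]; exact hGlip n x y
    calc |‖x‖ + ∑' n, G n x - (‖y‖ + ∑' n, G n y)|
        = |(‖x‖ - ‖y‖) + (∑' n, G n x - ∑' n, G n y)| := by congr 1; ring
      _ ≤ |‖x‖ - ‖y‖| + |∑' n, G n x - ∑' n, G n y| := abs_add_le _ _
      _ ≤ ‖x - y‖ + 2 * C * (1 - r)⁻¹ * ‖x - y‖ := add_le_add h1 h2
      _ = L * ‖x - y‖ := by rw [hLdef]; ring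
  · intro ε hε hε2 z x hz hx hsep
    set c₁ : ℝ := min c (1 / 2) with hc₁
    have hc₁0 : 0 < c₁ := lt_min hc (by norm_num)
    have hc₁c : c₁ ≤ c := min_le_left _ _
    have hc₁h : c₁ ≤ 1 / 2 := min_le_right _ _
    have hpos : 0 < c₁ * ε := by positivity
    have hle1 : c₁ * ε ≤ 1 := by nlinarith
    obtain ⟨m, hm1, hm2⟩ := exists_nat_pow_near_of_lt_one hpos hle1
      (by norm_num : (0 : ℝ) < 1 / 2) (by norm_num)
    have hsm : s (m + 1) ≤ c * ε := by
      simp only [hs]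
      nlinarith
    have hsm2 : c₁ / 2 * ε ≤ s (m + 1) := by
      simp only [hs]
      rw [pow_succ]
      nlinarith
    have hnz : ‖z‖ ≤ 1 := by
      have : 0 ≤ ∑' n, G n z := tsum_nonneg fun n => hGnn n z
      simp only [hΨ] at hz
      linarith
    have hnx : ∀ i, ‖x i‖ ≤ 1 := by
      intro i
      have h1 : 0 ≤ ∑' n, G n (x i) := tsum_nonneg fun n => hGnn n (x i)
      have h2 := hx i
      simp only [hΨ] at h2
      linarith
    obtain ⟨i, hi⟩ := (hEP (m + 1)).gain ε hsm z (fun i => -(x i)) hnz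
      (fun i => by rw [norm_neg]; exact hnx i)
      (fun i j hij => by
        have h3 : ‖-x i - -x j‖ = ‖x i - x j‖ := by
          rw [← norm_neg]; congr 1; abel
        rw [h3]; exact hsep i j hij)
    refine ⟨i, ?_⟩
    set y : X := (1 / 2 : ℝ) • (z - x i) with hy
    have hyz : y = (1 / 2 : ℝ) • (z + -x i) := by rw [hy, sub_eq_add_neg]
    have hyz' : y = (1 / 2 : ℝ) • z + (1 / 2 : ℝ) • (-x i) := by rw [hyz, smul_add]
    -- the estimate for the terms
    have hGy : ∀ n, G n y ≤ 1 / 2 * G n z + 1 / 2 * G n (x i) := by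
      intro n
      have := hGc n z (-x i) (1 / 2) (1 / 2) (by norm_num) (by norm_num) (by norm_num)
      rw [← hyz', hGeven] at this
      exact this
    have hGym : G (m + 1) y + c * (s (m + 1)) ^ q
        ≤ 1 / 2 * G (m + 1) z + 1 / 2 * G (m + 1) (x i) := by
      have h1 : E (m + 1) y ≤ 1 / 2 * E (m + 1) z + 1 / 2 * E (m + 1) (-x i) - c * s (m + 1) := by
        rw [hyz]; exact hi
      have h2 : E (m + 1) (-y) ≤ 1 / 2 * E (m + 1) (-z) + 1 / 2 * E (m + 1) (x i) := by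
        have := hEc (m + 1) (-z) (x i) (1 / 2) (1 / 2) (by norm_num) (by norm_num) (by norm_num)
        have h3 : (1 / 2 : ℝ) • (-z) + (1 / 2 : ℝ) • x i = -y := by
          rw [hyz', smul_neg, smul_neg, neg_add, neg_neg]
        rw [h3] at this
        exact this
      have h3 : (s (m + 1)) ^ (q - 1) * s (m + 1) = (s (m + 1)) ^ q := by
        have : (s (m + 1)) ^ (q - 1) * (s (m + 1)) ^ (1 : ℝ) = (s (m + 1)) ^ q := by
          rw [← Real.rpow_add (hs0 (m + 1))]
          congr 1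
          ring
        rwa [Real.rpow_one] at this
      have h4 : G (m + 1) y ≤ (s (m + 1)) ^ (q - 1) *
          ((1 / 2 * E (m + 1) z + 1 / 2 * E (m + 1) (-x i) - c * s (m + 1)) +
            (1 / 2 * E (m + 1) (-z) + 1 / 2 * E (m + 1) (x i))) :=
        mul_le_mul_of_nonneg_left (add_le_add h1 h2) (hsq0 (m + 1))
      have h5 : (s (m + 1)) ^ (q - 1) *
          ((1 / 2 * E (m + 1) z + 1 / 2 * E (m + 1) (-x i) - c * s (m + 1)) +
            (1 / 2 * E (m + 1) (-z) + 1 / 2 * E (m + 1) (x i)))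
          = 1 / 2 * G (m + 1) z + 1 / 2 * G (m + 1) (x i)
            - c * ((s (m + 1)) ^ (q - 1) * s (m + 1)) := by
        simp only [hG]; ring
      rw [h5, h3] at h4
      linarith
    have hsumy : (∑' n, G n y) + c * (s (m + 1)) ^ q
        ≤ 1 / 2 * ∑' n, G n z + 1 / 2 * ∑' n, G n (x i) := by
      have h1 : HasSum (fun n => G n y + if n = m + 1 then c * (s (m + 1)) ^ q else 0)
          ((∑' n, G n y) + c * (s (m + 1)) ^ q) :=
        (hGsum y).hasSum.add (hasSum_ite_eq (m + 1) _)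
      have h2 : HasSum (fun n => 1 / 2 * G n z + 1 / 2 * G n (x i))
          (1 / 2 * ∑' n, G n z + 1 / 2 * ∑' n, G n (x i)) :=
        ((hGsum z).hasSum.mul_left _).add ((hGsum (x i)).hasSum.mul_left _)
      refine hasSum_le (fun n => ?_) h1 h2
      by_cases hn : n = m + 1
      · subst hn
        rw [if_pos rfl]
        exact hGym
      · rw [if_neg hn, add_zero]
        exact hGy n
    have hny : ‖y‖ ≤ 1 / 2 * ‖z‖ + 1 / 2 * ‖x i‖ := by
      rw [hyz']
      refine le_trans (norm_add_le _ _) ?_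
      rw [norm_smul, norm_smul, norm_neg, Real.norm_eq_abs, abs_of_pos (by norm_num)]
    have hfin : Ψ y + c * (s (m + 1)) ^ q ≤ 1 := by
      have h2 := hx i
      simp only [hΨ] at h2 hz ⊢
      linarith
    have hpw : c * (c₁ / 2) ^ q * ε ^ q ≤ c * (s (m + 1)) ^ q := by
      rw [mul_assoc, ← Real.mul_rpow (by positivity) hε.le]
      refine mul_le_mul_of_nonneg_left ?_ hc.le
      exact Real.rpow_le_rpow (by positivity) hsm2 hq0.le
    linarith

end Pool.Agent.H53.Umb
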