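import Pool.Agent.H53.Umb.IL

/-!
MODULE SETS, part 1 (helper19): the good set `B`.
-/

namespace Pool.Agent.H53.Umb

open Filter Topology

variable {X : Type*} [NormedAddCommGroup X] [NormedSpace ℝ X]

/-- Weak-star convergence of a sequence is uniform on bounded parts of a finite dimensional
subspace. -/
theorem wslim_uniform {E : Submodule ℝ X} (hE : FiniteDimensional ℝ E)
    {h : ℕ → StrongDual ℝ X} {f : StrongDual ℝ X} (H : WSLim h f) {r : ℝ} (hr : 0 < r) :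
    ∀ᶠ i in (UU : Filter ℕ), ∀ y ∈ E, |h i y - f y| ≤ r * ‖y‖ := by
  let b := Module.finBasis ℝ E
  let φ : E →L[ℝ] (Fin (Module.finrank ℝ E) → ℝ) :=
    LinearMap.toContinuousLinearMap (b.equivFun : E →ₗ[ℝ] (Fin (Module.finrank ℝ E) → ℝ))
  have hφ : ∀ (y : E) (k), |b.repr y k| ≤ ‖φ‖ * ‖y‖ := by
    intro y k
    have h1 : ‖φ y k‖ ≤ ‖φ y‖ := norm_le_pi_norm (φ y) k
    have h2 : ‖φ y‖ ≤ ‖φ‖ * ‖y‖ := φ.le_opNorm y
    have h3 : φ y k = b.repr y k := rfl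
    rw [h3, Real.norm_eq_abs] at h1
    exact h1.trans h2
  have h0 : Tendsto (fun i => ∑ k, ‖φ‖ * |h i (b k : X) - f (b k : X)|) (UU : Filter ℕ) (𝓝 0) := by
    have : (0 : ℝ) = ∑ k : Fin (Module.finrank ℝ E), ‖φ‖ * |f (b k : X) - f (b k : X)| := by simp
    rw [this]
    refine tendsto_finsetSum _ fun k _ => ?_
    exact (((H (b k : X)).sub_const _).abs).const_mul _
  filter_upwards [h0.eventually_lt_const hr] with i hi y hy
  have hy' : y = ∑ k, b.repr ⟨y, hy⟩ k • (b k : X) := by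
    calc y = ((∑ k, b.repr ⟨y, hy⟩ k • b k : E) : X) := by rw [b.sum_repr]
      _ = _ := by simp only [Submodule.coe_sum, Submodule.coe_smul]
  have h6 : h i y - f y = ∑ k, b.repr ⟨y, hy⟩ k * (h i (b k : X) - f (b k : X)) := by
    conv_lhs => rw [hy']
    simp only [map_sum, map_smul, smul_eq_mul]
    rw [← Finset.sum_sub_distrib]
    exact Finset.sum_congr rfl fun k _ => by ring
  rw [h6]
  calc |∑ k, b.repr ⟨y, hy⟩ k * (h i (b k : X) - f (b k : X))|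
      ≤ ∑ k, |b.repr ⟨y, hy⟩ k * (h i (b k : X) - f (b k : X))| := Finset.abs_sum_le_sum_abs _ _
    _ ≤ ∑ k, (‖φ‖ * |h i (b k : X) - f (b k : X)|) * ‖y‖ := by
        refine Finset.sum_le_sum fun k _ => ?_
        rw [abs_mul]
        have h7 := hφ ⟨y, hy⟩ k
        have h8 : ‖(⟨y, hy⟩ : E)‖ = ‖y‖ := rfl
        rw [h8] at h7
        calc |b.repr ⟨y, hy⟩ k| * |h i (b k : X) - f (b k : X)|
            ≤ (‖φ‖ * ‖y‖) * |h i (b k : X) - f (b k : X)| :=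
              mul_le_mul_of_nonneg_right h7 (abs_nonneg _)
          _ = _ := by ring
    _ = (∑ k, ‖φ‖ * |h i (b k : X) - f (b k : X)|) * ‖y‖ := by rw [Finset.sum_mul]
    _ ≤ r * ‖y‖ := mul_le_mul_of_nonneg_right hi.le (norm_nonneg _)

theorem Rk_succ_subset (F : ℕ → Submodule ℝ X) (γ : ℝ) (j : ℕ) : Rk F γ (j + 1) ⊆ Rk F γ j :=
  fun _ hf => hf.1

theorem Rk_antitone (F : ℕ → Submodule ℝ X) (γ : ℝ) : Antitone (Rk F γ) :=
  antitone_nat_of_succ_le fun j => Rk_succ_subset F γ j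

/-- Each derived set is closed under weak-star ultralimits of sequences. -/
theorem Rk_closed {F : ℕ → Submodule ℝ X} (hF : Exh F) (γ : ℝ) (j : ℕ)
    {g : ℕ → StrongDual ℝ X} {f : StrongDual ℝ X} (hg : ∀ᶠ i in (UU : Filter ℕ), g i ∈ Rk F γ j)
    (H : WSLim g f) : f ∈ Rk F γ j := by
  induction j with
  | zero =>
    show f ∈ Metric.closedBall (0 : StrongDual ℝ X) 1
    rw [mem_closedBall_zero_iff]
    refine ContinuousLinearMap.opNorm_le_bound _ zero_le_one fun x => ?_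
    rw [one_mul]
    have h1 : Tendsto (fun i => ‖g i x‖) (UU : Filter ℕ) (𝓝 ‖f x‖) := (H x).norm
    refine le_of_tendsto h1 ?_
    filter_upwards [hg] with i hi
    have h2 : ‖g i‖ ≤ 1 := mem_closedBall_zero_iff.mp hi
    calc ‖g i x‖ ≤ ‖g i‖ * ‖x‖ := (g i).le_opNorm x
      _ ≤ 1 * ‖x‖ := mul_le_mul_of_nonneg_right h2 (norm_nonneg _)
      _ = ‖x‖ := one_mul _
  | succ j ih =>
    refine ⟨ih (hg.mono fun i hi => hi.1), fun M r hr => ?_⟩
    have h1 := wslim_uniform (hF.fin M) H (half_pos hr)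
    obtain ⟨i, hi, hi'⟩ := (hg.and h1).exists
    obtain ⟨u, hu, v, hv, h2, h3, h4⟩ := hi.2 M (r / 2) (half_pos hr)
    refine ⟨u, hu, v, hv, fun y hy => ?_, fun y hy => ?_, h4⟩
    · have h5 := h2 y hy
      have h6 := hi' y hy
      have h7 : |u y - f y| ≤ |u y - g i y| + |g i y - f y| := abs_sub_le _ _ _
      linarith
    · have h5 := h3 y hy
      have h6 := hi' y hy
      have h7 : |v y - f y| ≤ |v y - g i y| + |g i y - f y| := abs_sub_le _ _ _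
      linarith

theorem zero_mem_Rk_zero (F : ℕ → Submodule ℝ X) (γ : ℝ) : (0 : StrongDual ℝ X) ∈ Rk F γ 0 := by
  show (0 : StrongDual ℝ X) ∈ Metric.closedBall (0 : StrongDual ℝ X) 1
  simp

theorem exists_goodSet {F : ℕ → Submodule ℝ X} (hF : Exh F) (hR : ∃ n, Rk F (1 / 4) n = ∅) :
    ∃ (B : Set (StrongDual ℝ X)) (σ : ℝ), GoodSet B σ := by
  classical
  let n := Nat.find hR
  have hn : Rk F (1 / 4) n = ∅ := Nat.find_spec hR
  have hmin : ∀ j < n, Rk F (1 / 4) j ≠ ∅ := fun j hj => Nat.find_min hR hj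
  have hn0 : n ≠ 0 := by
    intro h0
    rw [h0] at hn
    exact (Set.eq_empty_iff_forall_notMem.mp hn 0) (zero_mem_Rk_zero F _)
  have hnpos : (0 : ℝ) < n := by exact_mod_cast Nat.pos_of_ne_zero hn0
  let σ : ℝ := (2 : ℝ) ^ (1 / (n : ℝ))
  have hσ1 : 1 < σ := Real.one_lt_rpow (by norm_num) (by positivity)
  have hσ0 : 0 < σ := lt_trans one_pos hσ1
  have hσn : σ ^ n = 2 := by
    show ((2 : ℝ) ^ (1 / (n : ℝ))) ^ n = 2
    rw [← Real.rpow_natCast, ← Real.rpow_mul (by norm_num), one_div, inv_mul_cancel₀ hnpos.ne',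
      Real.rpow_one]
  have hσj : ∀ j < n, σ ^ j ≤ 2 := by
    intro j hj
    rw [← hσn]
    exact pow_le_pow_right₀ hσ1.le hj.le
  let B : Set (StrongDual ℝ X) := {f | ∃ j < n, ∃ φ ∈ Rk F (1 / 4) j, f = σ ^ j • φ}
  -- the key lemma: a sequence in `B` with a weak star limit
  have key : ∀ (g : ℕ → StrongDual ℝ X) (f : StrongDual ℝ X), (∀ i, g i ∈ B) → WSLim g f →
      ∃ j < n, (∀ᶠ i in (UU : Filter ℕ), (σ ^ j)⁻¹ • g i ∈ Rk F (1 / 4) j) ∧
        WSLim (fun i => (σ ^ j)⁻¹ • g i) ((σ ^ j)⁻¹ • f) := by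
    intro g f hg H
    choose J hJ Φ hΦ hgΦ using hg
    have h1 : ∀ᶠ i in (UU : Filter ℕ), ∃ j ∈ Set.Iio n, J i = j :=
      Filter.Eventually.of_forall fun i => ⟨J i, hJ i, rfl⟩
    obtain ⟨j, hj, h2⟩ := (Ultrafilter.eventually_exists_mem_iff (Set.finite_Iio n)).mp h1
    refine ⟨j, hj, ?_, ?_⟩
    · filter_upwards [h2] with i hi
      have h3 : (σ ^ j)⁻¹ • g i = Φ i := by
        rw [hgΦ i, hi, smul_smul, inv_mul_cancel₀ (pow_pos hσ0 j).ne', one_smul]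
      rw [h3, ← hi]
      exact hΦ i
    · intro x
      have := (H x).const_mul ((σ ^ j)⁻¹)
      simpa using this
  refine ⟨B, σ, hσ1, ?_, ?_, ?_, ?_⟩
  · intro f hf
    exact ⟨0, Nat.pos_of_ne_zero hn0, f, hf, by simp⟩
  · rintro f ⟨j, hj, φ, hφ, rfl⟩
    have h1 : φ ∈ Rk F (1 / 4) 0 := Rk_antitone F _ (Nat.zero_le j) hφ
    have h2 : ‖φ‖ ≤ 1 := mem_closedBall_zero_iff.mp h1
    rw [mem_closedBall_zero_iff, norm_smul, Real.norm_of_nonneg (pow_pos hσ0 j).le]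
    calc σ ^ j * ‖φ‖ ≤ 2 * 1 := mul_le_mul (hσj j hj) h2 (norm_nonneg _) (by norm_num)
      _ = 2 := by norm_num
  · intro g f hg H
    obtain ⟨j, hj, h1, h2⟩ := key g f hg H
    refine ⟨j, hj, (σ ^ j)⁻¹ • f, Rk_closed hF _ j h1 h2, ?_⟩
    rw [smul_smul, mul_inv_cancel₀ (pow_pos hσ0 j).ne', one_smul]
  · intro g f hg H hd
    obtain ⟨j, hj, h1, h2⟩ := key g f hg H
    have h3 : (σ ^ j)⁻¹ • f ∈ Rk F (1 / 4) j := Rk_closed hF _ j h1 h2
    have h4 : (σ ^ j)⁻¹ • f ∈ Rk F (1 / 4) (j + 1) := by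
      refine ⟨h3, fun M r hr => ?_⟩
      have h5 := wslim_uniform (hF.fin M) h2 hr
      obtain ⟨i, hi, hi'⟩ := (h1.and h5).exists
      refine ⟨(σ ^ j)⁻¹ • g i, hi, (σ ^ j)⁻¹ • f, h3, hi', fun y _ => ?_, ?_⟩
      · rw [sub_self, abs_zero]
        positivity
      · have h12 : (σ ^ j)⁻¹ • g i - (σ ^ j)⁻¹ • f = (σ ^ j)⁻¹ • (g i - f) :=
          (smul_sub _ _ _).symm
        rw [h12, norm_smul, norm_inv, Real.norm_of_nonneg (pow_pos hσ0 j).le]
        have h6 := hσj j hj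
        have h7 := hd i
        have h8 : (2 : ℝ)⁻¹ ≤ (σ ^ j)⁻¹ := inv_anti₀ (pow_pos hσ0 j) h6
        calc (1 / 4 : ℝ) = 2⁻¹ * (1 / 2) := by norm_num
          _ ≤ (σ ^ j)⁻¹ * ‖g i - f‖ := mul_le_mul h8 h7 (by norm_num) (by positivity)
    have h9 : j + 1 < n := by
      rcases Nat.lt_or_ge (j + 1) n with h | h
      · exact h
      · have h10 : j + 1 = n := by omega
        rw [h10, hn] at h4
        exact absurd h4 (Set.notMem_empty _)
    refine ⟨j + 1, h9, (σ ^ j)⁻¹ • f, h4, ?_⟩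
    rw [smul_smul, pow_succ, mul_comm (σ ^ j) σ, mul_assoc, mul_inv_cancel₀ (pow_pos hσ0 j).ne',
      mul_one]

end Pool.Agent.H53.Umb
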