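import Pool.Agent.H53.Umb.Wl
import Pool.Agent.H53.Umb.SetsGood

/-!
MODULE RANK (helper19). Suppose `Rk F γ (2^k) ≠ ∅` and let `m = 2^k`. Build `f : List ℕ → X*` with
`f l ∈ Rk F γ (m - l.length)` for `l.length ≤ m` and, for `l.length < m`,
`|f (l ++ [n]) y - f l y| ≤ 2^{-n} ‖y‖` on `F n`, `‖f (l ++ [n]) - f l‖ ≥ γ / 2` (one of `g`, `g'` in
the definition of `Rk`). So `f (l ++ [n]) → f l` weak-star. Choose
`y l n`, `‖y l n‖ ≤ 1`, `(f (l ++ [n]) - f l) (y l n) ≥ γ / 3`; `w l` = weak limit of `y l n`,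
`x' (l ++ [n]) = y l n - w l`, `‖x'‖ ≤ 2`, weakly null in `n`; `F l = Σ_{1 ≤ j ≤ l.length} x' (l.take j)`.
For the umbel pair `(s,t)`, `l = n ++ δ ++ η`, the functional
`f (n ++ δ) - f (n ++ η)` (norm `≤ 2`) takes on `F (n++δ) - F (n++η)` a value with iterated limit
`≥ 2 * 2^s γ/3`, the norm has iterated limit `≥ 2^s γ/3`, and `UI` with `a s t = γ/3`, `B = 2` gives
`(k-1) (γ/3)^p ≤ (2 P)^p`. Take `k` large.
-/

namespace Pool.Agent.H53.Umb

open Filter Topology

namespace RankAux

/-! ### Iterated lower bounds -/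

/-- The iterated lower ultralimit of `h` in `r` new variables from `l` is at least `c`. -/
def LB : ℕ → (List ℕ → ℝ) → List ℕ → ℝ → Prop
  | 0, h, l, c => c ≤ h l
  | r + 1, h, l, c => ∀ ε : ℝ, 0 < ε → ∀ᶠ i in (UU : Filter ℕ), LB r h (l ++ [i]) (c - ε)

theorem LB.weaken {r : ℕ} {h : List ℕ → ℝ} {l : List ℕ} {c c' : ℝ} (H : LB r h l c)
    (hc : c' ≤ c) : LB r h l c' := by
  induction r generalizing l c c' with
  | zero => exact le_trans hc H
  | succ r ih => exact fun ε hε => (H ε hε).mono fun i hi => ih hi (by linarith)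

theorem LB.of_forall {r : ℕ} {h : List ℕ → ℝ} {l : List ℕ} {c : ℝ}
    (H : ∀ m : List ℕ, m.length = r → c ≤ h (l ++ m)) : LB r h l c := by
  induction r generalizing l c with
  | zero =>
    show c ≤ h l
    simpa using H [] rfl
  | succ r ih =>
    refine fun ε hε => Eventually.of_forall fun i => ih fun m hm => ?_
    have := H (i :: m) (by simp [hm])
    simp only [List.append_assoc, List.singleton_append]
    linarith

theorem LB.add {r : ℕ} {h h' : List ℕ → ℝ} {l : List ℕ} {a b : ℝ} (H : LB r h l a)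
    (H' : LB r h' l b) : LB r (fun m => h m + h' m) l (a + b) := by
  induction r generalizing l a b with
  | zero => exact add_le_add H H'
  | succ r ih =>
    intro ε hε
    filter_upwards [H (ε / 2) (half_pos hε), H' (ε / 2) (half_pos hε)] with i h1 h2
    exact (ih h1 h2).weaken (by linarith)

theorem LB.sum {ι : Type*} (s : Finset ι) {r : ℕ} {h : ι → List ℕ → ℝ} {l : List ℕ} {a : ι → ℝ}
    (H : ∀ j ∈ s, LB r (h j) l (a j)) : LB r (fun m => ∑ j ∈ s, h j m) l (∑ j ∈ s, a j) := by
  classical
  induction s using Finset.induction_on with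
  | empty => simpa using LB.of_forall (c := 0) (h := fun _ => (0 : ℝ)) fun m _ => le_rfl
  | insert j s hj ih =>
    simp only [Finset.sum_insert hj]
    exact (H j (Finset.mem_insert_self _ _)).add
      (ih fun i hi => H i (Finset.mem_insert_of_mem hi))

theorem LB.mono {r : ℕ} {h h' : List ℕ → ℝ} {l : List ℕ} {c : ℝ} (H : LB r h l c)
    (hh : ∀ m : List ℕ, m.length = r → h (l ++ m) ≤ h' (l ++ m)) : LB r h' l c := by
  induction r generalizing l c with
  | zero =>
    have := hh [] rfl
    simp only [List.append_nil] at this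
    exact le_trans H this
  | succ r ih =>
    intro ε hε
    filter_upwards [H ε hε] with i hi
    refine ih hi fun m hm => ?_
    have := hh (i :: m) (by simp [hm])
    simpa using this

theorem LB.const_mul {r : ℕ} {h : List ℕ → ℝ} {l : List ℕ} {c a : ℝ} (ha : 0 < a)
    (H : LB r h l c) : LB r (fun m => a * h m) l (a * c) := by
  induction r generalizing l c with
  | zero => exact mul_le_mul_of_nonneg_left H ha.le
  | succ r ih =>
    intro ε hε
    filter_upwards [H (ε / a) (by positivity)] with i hi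
    refine (ih hi).weaken (le_of_eq ?_)
    rw [mul_sub, mul_div_cancel₀ _ ha.ne']

theorem LB.comp {a b : ℕ} {h h' : List ℕ → ℝ} {l : List ℕ} {c : ℝ}
    (H : ∀ m : List ℕ, m.length = a → LB b h (l ++ m) (h' (l ++ m))) (H' : LB a h' l c) :
    LB (a + b) h l c := by
  induction a generalizing l c with
  | zero =>
    have := H [] rfl
    simp only [List.append_nil] at this
    rw [Nat.zero_add]
    exact this.weaken H'
  | succ a ih =>
    rw [Nat.succ_add]
    intro ε hε
    filter_upwards [H' ε hε] with i hi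
    refine ih (fun m hm => ?_) hi
    have := H (i :: m) (by simp [hm])
    simpa using this

theorem LB.shift {r : ℕ} {h : List ℕ → ℝ} {l₀ l : List ℕ} {c : ℝ}
    (H : LB r (fun q => h (l₀ ++ q)) l c) : LB r h (l₀ ++ l) c := by
  induction r generalizing l c with
  | zero => exact H
  | succ r ih =>
    intro ε hε
    filter_upwards [H ε hε] with i hi
    rw [List.append_assoc]
    exact ih hi

theorem LB.unshift {r : ℕ} {h : List ℕ → ℝ} {l₀ l : List ℕ} {c : ℝ}
    (H : LB r h (l₀ ++ l) c) : LB r (fun q => h (l₀ ++ q)) l c := by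
  induction r generalizing l c with
  | zero => exact H
  | succ r ih =>
    intro ε hε
    filter_upwards [H ε hε] with i hi
    rw [List.append_assoc] at hi
    exact ih hi

theorem LB.of_tendsto {h : List ℕ → ℝ} {l : List ℕ} {c : ℝ}
    (H : Tendsto (fun i => h (l ++ [i])) (UU : Filter ℕ) (𝓝 c)) : LB 1 h l c := by
  intro ε hε
  filter_upwards [H.eventually_const_lt (show c - ε < c by linarith)] with i hi
  exact hi.le

theorem LB.le_of_ril {r : ℕ} {h : List ℕ → ℝ} {l : List ℕ} {c a : ℝ} (H : LB r h l c)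
    (H' : RIL r h l a) : c ≤ a := by
  induction r generalizing l c a with
  | zero =>
    have h1 : h l = a := H'
    rw [← h1]
    exact H
  | succ r ih =>
    obtain ⟨a', h1, h2⟩ := H'
    refine le_of_forall_sub_le fun ε hε => ?_
    refine ge_of_tendsto h2 ?_
    filter_upwards [H ε hε] with i hi
    exact ih hi (h1 i)

/-- A function of the first `i` variables whose lower limit is taken in the middle. -/
theorem LB.at {D i : ℕ} (hi : i < D) {h h' : List ℕ → ℝ} {c : ℝ}
    (H : ∀ (m : List ℕ) (j : ℕ), m.length = i → LB (D - (i + 1)) h (m ++ [j]) (h' (m ++ [j])))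
    (H' : ∀ m : List ℕ, m.length = i → LB 1 h' m c) : LB D h [] c := by
  have h1 : D = i + (1 + (D - (i + 1))) := by omega
  rw [h1]
  refine LB.comp (h' := fun _ => c) (fun m hm => ?_) (LB.of_forall fun _ _ => le_rfl)
  refine LB.comp (h' := h') (fun q hq => ?_) ?_
  · obtain ⟨j, rfl⟩ := List.length_eq_one_iff.mp hq
    exact H m j hm
  · exact H' m hm

/-! ### The tree of functionals -/

section Tree

variable {X : Type*} [NormedAddCommGroup X] [NormedSpace ℝ X]

theorem exists_functionals {F : ℕ → Submodule ℝ X} {γ : ℝ} (m : ℕ)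
    (hne : (Rk F γ m).Nonempty) :
    ∃ f : List ℕ → StrongDual ℝ X, (∀ l : List ℕ, l.length ≤ m → f l ∈ Rk F γ (m - l.length)) ∧
      (∀ l : List ℕ, l.length < m → ∀ n, (∀ y ∈ F n, |f (l ++ [n]) y - f l y| ≤
        (1 / 2 : ℝ) ^ n * ‖y‖) ∧ γ / 2 ≤ ‖f (l ++ [n]) - f l‖) := by
  obtain ⟨f₀, hf₀⟩ := hne
  have hex : ∀ (j : ℕ) (φ : StrongDual ℝ X) (n : ℕ), ∃ ψ : StrongDual ℝ X, φ ∈ Rk F γ (j + 1) →
      ψ ∈ Rk F γ j ∧ (∀ y ∈ F n, |ψ y - φ y| ≤ (1 / 2 : ℝ) ^ n * ‖y‖) ∧ γ / 2 ≤ ‖ψ - φ‖ := by
    intro j φ n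
    by_cases hφ : φ ∈ Rk F γ (j + 1)
    · obtain ⟨g, hg, g', hg', h1, h2, h3⟩ := hφ.2 n ((1 / 2 : ℝ) ^ n) (by positivity)
      rcases le_or_gt (γ / 2) ‖g - φ‖ with h4 | h4
      · exact ⟨g, fun _ => ⟨hg, h1, h4⟩⟩
      · refine ⟨g', fun _ => ⟨hg', h2, ?_⟩⟩
        have h5 : ‖g - g'‖ ≤ ‖g - φ‖ + ‖g' - φ‖ := by
          have := norm_sub_le (g - φ) (g' - φ)
          simpa using this
        linarith
    · exact ⟨0, fun h => absurd h hφ⟩
  choose S hS using hex
  let st : List ℕ → ℕ × StrongDual ℝ X := fun l =>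
    l.foldl (fun s n => (s.1 - 1, S (s.1 - 1) s.2 n)) (m, f₀)
  have st_nil : st [] = (m, f₀) := rfl
  have st_app : ∀ l n, st (l ++ [n]) = ((st l).1 - 1, S ((st l).1 - 1) (st l).2 n) := by
    intro l n
    simp [st, List.foldl_append]
  have st1 : ∀ l : List ℕ, (st l).1 = m - l.length := by
    intro l
    induction l using List.reverseRecOn with
    | nil => simp [st_nil]
    | append_singleton l n ih =>
      rw [st_app]
      simp only [ih, List.length_append, List.length_singleton]
      omega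
  have st2 : ∀ l : List ℕ, l.length ≤ m → (st l).2 ∈ Rk F γ (m - l.length) := by
    intro l
    induction l using List.reverseRecOn with
    | nil =>
      intro _
      simpa [st_nil] using hf₀
    | append_singleton l n ih =>
      intro hl
      rw [List.length_append, List.length_singleton] at hl
      have h1 := ih (by omega)
      rw [st_app]
      have h2 : (st l).1 - 1 = m - (l ++ [n]).length := by
        rw [st1, List.length_append, List.length_singleton]
        omega
      rw [h2]
      refine (hS _ _ _ ?_).1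
      have h3 : m - (l ++ [n]).length + 1 = m - l.length := by
        rw [List.length_append, List.length_singleton]
        omega
      rw [h3]
      exact h1
  refine ⟨fun l => (st l).2, st2, fun l hl n => ?_⟩
  have h1 := st2 l hl.le
  have h2 : (st l).1 - 1 + 1 = m - l.length := by
    rw [st1]
    omega
  rw [← h2] at h1
  have h3 := (hS _ _ n h1).2
  simp only [st_app]
  exact h3

/-- The abstract estimate for one umbel pair. -/
theorem pair_lower {m : ℕ} {f : List ℕ → StrongDual ℝ X} {x : List ℕ → X} {γ : ℝ}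
    (hf : ∀ l : List ℕ, l.length ≤ m → ‖f l‖ ≤ 1)
    (hws : ∀ l : List ℕ, l.length < m → ∀ z : X,
      Tendsto (fun i => f (l ++ [i]) z) (UU : Filter ℕ) (𝓝 (f l z)))
    (hwn : ∀ (l : List ℕ) (g : StrongDual ℝ X),
      Tendsto (fun i => g (x (l ++ [i]))) (UU : Filter ℕ) (𝓝 0))
    (hlow : ∀ l : List ℕ, l.length < m → ∀ ε : ℝ, 0 < ε →
      ∀ᶠ i in (UU : Filter ℕ), γ - ε ≤ f (l ++ [i]) (x (l ++ [i])))
    {N D : ℕ} (hND : N + D ≤ m) :
    LB (N + (D + D)) (fun l => 2 * ‖(∑ j ∈ Finset.range (l.take (N + D)).length,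
        x ((l.take (N + D)).take (j + 1))) -
        ∑ j ∈ Finset.range (l.take N ++ l.drop (N + D)).length,
        x ((l.take N ++ l.drop (N + D)).take (j + 1))‖) [] (2 * (D * γ)) := by
  -- K3
  have K3 : ∀ (a : ℝ) (z : X) (r : ℕ) (l : List ℕ), l.length + r ≤ m →
      LB r (fun q => a * f q z) l (a * f l z) := by
    intro a z r
    induction r with
    | zero => exact fun l _ => le_refl (a * f l z)
    | succ r ih =>
      intro l hl ε hε
      have h1 : Tendsto (fun i => a * f (l ++ [i]) z) (UU : Filter ℕ) (𝓝 (a * f l z)) :=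
        (hws l (by omega) z).const_mul a
      filter_upwards [h1.eventually_const_lt (show a * f l z - ε < a * f l z by linarith)]
        with i hi
      exact (ih (l ++ [i]) (by simp; omega)).weaken hi.le
  -- K2
  have K2 : ∀ (a : ℝ) (g : StrongDual ℝ X) (n : List ℕ) (i : ℕ), i < D →
      LB D (fun q => a * g (x (n ++ q.take (i + 1)))) [] 0 := by
    intro a g n i hi
    refine LB.at hi (h' := fun q => a * g (x (n ++ q))) (fun m' j hm' => ?_) fun m' hm' => ?_
    · refine LB.of_forall fun q hq => ?_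
      have : (m' ++ [j] ++ q).take (i + 1) = m' ++ [j] := by
        rw [List.take_left' (by simp [hm'])]
      rw [this]
    · refine LB.of_tendsto ?_
      have := (hwn (n ++ m') g).const_mul a
      simpa using this
  -- K1
  have K1 : ∀ (n : List ℕ) (i : ℕ), n.length + D ≤ m → i < D →
      LB D (fun q => f (n ++ q) (x (n ++ q.take (i + 1)))) [] γ := by
    intro n i hn hi
    refine LB.at hi (h' := fun q => f (n ++ q) (x (n ++ q))) (fun m' j hm' => ?_)
      fun m' hm' => ?_
    · have h1 := K3 1 (x (n ++ (m' ++ [j]))) (D - (i + 1)) (n ++ (m' ++ [j])) (by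
        simp; omega)
      have h2 := h1.unshift
      simp only [one_mul] at h2
      refine h2.mono fun q hq => ?_
      have : (m' ++ [j] ++ q).take (i + 1) = m' ++ [j] := by
        rw [List.take_left' (by simp [hm'])]
      rw [this]
    · intro ε hε
      filter_upwards [hlow (n ++ m') (by simp; omega) ε hε] with j hj
      show γ - ε ≤ f (n ++ (m' ++ [j])) (x (n ++ (m' ++ [j])))
      simpa using hj
  have hsum : ∀ (n q : List ℕ), (∑ j ∈ Finset.range (n ++ q).length, x ((n ++ q).take (j + 1))) =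
      (∑ j ∈ Finset.range n.length, x (n.take (j + 1))) +
        ∑ i ∈ Finset.range q.length, x (n ++ q.take (i + 1)) := by
    intro n q
    rw [List.length_append, Finset.sum_range_add]
    congr 1
    · refine Finset.sum_congr rfl fun j hj => ?_
      rw [List.take_append_of_le_length]
      exact Finset.mem_range.mp hj
    · refine Finset.sum_congr rfl fun j hj => ?_
      rw [List.take_append]
      have h1 : n.take (n.length + j + 1) = n := List.take_of_length_le (by omega)
      have h2 : n.length + j + 1 - n.length = j + 1 := by omega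
      rw [h1, h2]
  refine LB.comp (h' := fun _ => 2 * (D * γ)) (fun n hn => ?_)
    (LB.of_forall fun _ _ => le_rfl)
  rw [List.nil_append]
  refine LB.comp (h' := fun l => (∑ i ∈ Finset.range D, (f l (x (l.take (N + (i + 1)))) +
      (-1) * f n (x (l.take (N + (i + 1)))))) + D * γ) (fun δ hδ => ?_) ?_
  · -- the variables `η`
    have h1 : LB D (fun η => ∑ i ∈ Finset.range D,
        (((f (n ++ δ) (x (n ++ δ.take (i + 1))) +
          (-1) * f (n ++ η) (x (n ++ δ.take (i + 1)))) +
          (-1) * f (n ++ δ) (x (n ++ η.take (i + 1)))) +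
          f (n ++ η) (x (n ++ η.take (i + 1))))) []
        (∑ i ∈ Finset.range D, (((f (n ++ δ) (x (n ++ δ.take (i + 1))) +
          (-1) * f n (x (n ++ δ.take (i + 1)))) + 0) + γ)) := by
      refine LB.sum _ fun i hi => ?_
      rw [Finset.mem_range] at hi
      refine LB.add (LB.add (LB.add ?_ ?_) ?_) ?_
      · exact LB.of_forall fun _ _ => le_rfl
      · have h2 := K3 (-1) (x (n ++ δ.take (i + 1))) D (n ++ []) (by simp; omega)
        have h3 := h2.unshift
        simpa using h3
      · exact K2 (-1) (f (n ++ δ)) n i hi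
      · exact K1 n i (by omega) hi
    have h4 : LB D (fun l => 2 * ‖(∑ j ∈ Finset.range (l.take (N + D)).length,
        x ((l.take (N + D)).take (j + 1))) -
        ∑ j ∈ Finset.range (l.take N ++ l.drop (N + D)).length,
        x ((l.take N ++ l.drop (N + D)).take (j + 1))‖) (n ++ δ ++ [])
        (∑ i ∈ Finset.range D, (((f (n ++ δ) (x (n ++ δ.take (i + 1))) +
          (-1) * f n (x (n ++ δ.take (i + 1)))) + 0) + γ)) := by
      refine LB.shift (h1.mono fun η hη => ?_)
      rw [List.nil_append]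
      have e1 : (n ++ δ ++ η).take (N + D) = n ++ δ := by
        rw [List.take_left' (by simp [hn, hδ])]
      have e2 : (n ++ δ ++ η).take N = n := by
        rw [List.append_assoc, List.take_left' hn]
      have e3 : (n ++ δ ++ η).drop (N + D) = η := by
        rw [List.drop_left' (by simp [hn, hδ])]
      rw [e1, e2, e3, hsum n δ, hsum n η, hδ, hη, add_sub_add_left_eq_sub,
        ← Finset.sum_sub_distrib]
      have h5 : (∑ i ∈ Finset.range D,
        (((f (n ++ δ) (x (n ++ δ.take (i + 1))) +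
          (-1) * f (n ++ η) (x (n ++ δ.take (i + 1)))) +
          (-1) * f (n ++ δ) (x (n ++ η.take (i + 1)))) +
          f (n ++ η) (x (n ++ η.take (i + 1))))) = (f (n ++ δ) - f (n ++ η))
          (∑ i ∈ Finset.range D, (x (n ++ δ.take (i + 1)) - x (n ++ η.take (i + 1)))) := by
        rw [map_sum]
        refine Finset.sum_congr rfl fun i _ => ?_
        rw [map_sub]
        show _ = (f (n ++ δ) (x (n ++ δ.take (i + 1))) - f (n ++ η) (x (n ++ δ.take (i + 1)))) -
          (f (n ++ δ) (x (n ++ η.take (i + 1))) - f (n ++ η) (x (n ++ η.take (i + 1))))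
        ring
      rw [h5]
      have h6 : ‖f (n ++ δ) - f (n ++ η)‖ ≤ 2 := by
        have h7 := hf (n ++ δ) (by simp; omega)
        have h8 := hf (n ++ η) (by simp; omega)
        have h9 := norm_sub_le (f (n ++ δ)) (f (n ++ η))
        linarith
      refine (le_abs_self _).trans ?_
      rw [← Real.norm_eq_abs]
      refine (ContinuousLinearMap.le_opNorm _ _).trans ?_
      exact mul_le_mul_of_nonneg_right h6 (norm_nonneg _)
    rw [List.append_nil] at h4
    refine h4.weaken (le_of_eq ?_)
    have e4 : ∀ i ∈ Finset.range D, (n ++ δ).take (N + (i + 1)) = n ++ δ.take (i + 1) := by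
      intro i _
      rw [List.take_append]
      have h1 : n.take (N + (i + 1)) = n := List.take_of_length_le (by omega)
      have h2 : N + (i + 1) - n.length = i + 1 := by omega
      rw [h1, h2]
    simp only [Finset.sum_add_distrib, Finset.sum_const, Finset.card_range, nsmul_eq_mul,
      add_zero]
    congr 2
    · exact Finset.sum_congr rfl fun i hi => by rw [e4 i hi]
    · exact Finset.sum_congr rfl fun i hi => by rw [e4 i hi]
  · -- the variables `δ`
    have h1 : LB D (fun δ => (∑ i ∈ Finset.range D, (f (n ++ δ) (x (n ++ δ.take (i + 1))) +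
      (-1) * f n (x (n ++ δ.take (i + 1))))) + D * γ) []
        ((∑ i ∈ Finset.range D, (γ + 0)) + D * γ) := by
      refine LB.add (LB.sum _ fun i hi => ?_) (LB.of_forall fun _ _ => le_rfl)
      rw [Finset.mem_range] at hi
      exact LB.add (K1 n i (by omega) hi) (K2 (-1) (f n) n i hi)
    have h2 : LB D (fun l => (∑ i ∈ Finset.range D, (f l (x (l.take (N + (i + 1)))) +
      (-1) * f n (x (l.take (N + (i + 1)))))) + D * γ) (n ++ [])
        ((∑ i ∈ Finset.range D, (γ + 0)) + D * γ) := by
      refine LB.shift (h1.mono fun δ hδ => ?_)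
      rw [List.nil_append]
      have e4 : ∀ i ∈ Finset.range D, (n ++ δ).take (N + (i + 1)) = n ++ δ.take (i + 1) := by
        intro i _
        rw [List.take_append]
        have h1 : n.take (N + (i + 1)) = n := List.take_of_length_le (by omega)
        have h2 : N + (i + 1) - n.length = i + 1 := by omega
        rw [h1, h2]
      refine le_of_eq ?_
      congr 1
      exact Finset.sum_congr rfl fun i hi => by rw [e4 i hi]
    rw [List.append_nil] at h2
    refine h2.weaken (le_of_eq ?_)
    simp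
    ring

end Tree

variable {X : Type*} [NormedAddCommGroup X] [NormedSpace ℝ X]

theorem wlim_norm_le {a : ℕ → X} {w : X} {M : ℝ} (ha : ∀ i, ‖a i‖ ≤ M)
    (h : WLim a w) : ‖w‖ ≤ M := by
  obtain ⟨g, hg, hgw⟩ := exists_dual_vector'' ℝ w
  have h1 : Tendsto (fun i => g (a i)) (UU : Filter ℕ) (𝓝 (g w)) := h g
  have h2 : g w = ‖w‖ := by simpa using hgw
  rw [h2] at h1
  refine le_of_tendsto' h1 fun i => ?_
  calc g (a i) ≤ ‖g (a i)‖ := le_abs_self _
    _ ≤ ‖g‖ * ‖a i‖ := g.le_opNorm _
    _ ≤ 1 * M := mul_le_mul hg (ha i) (norm_nonneg _) zero_le_one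
    _ = M := one_mul M

theorem rank_bound [CompleteSpace X] {p P : ℝ} (hp : 1 < p) (hP : 0 < P)
    (hU : UmbelIneq p P X) {F : ℕ → Submodule ℝ X} (hF : Exh F) {γ : ℝ} (hγ : 0 < γ)
    {k : ℕ} (hk : 1 ≤ k) (hne : (Rk F γ (2 ^ k)).Nonempty) :
    ((k - 1 : ℕ) : ℝ) * (γ / 3) ^ p ≤ P ^ p * 2 ^ p := by
  obtain ⟨f, hfmem, hfstep⟩ := exists_functionals (2 ^ k) hne
  have hf : ∀ l : List ℕ, l.length ≤ 2 ^ k → ‖f l‖ ≤ 1 := by
    intro l hl
    have h1 : f l ∈ Rk F γ 0 := Rk_antitone F γ (Nat.zero_le _) (hfmem l hl)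
    exact mem_closedBall_zero_iff.mp h1
  have hws : ∀ l : List ℕ, l.length < 2 ^ k → ∀ z : X,
      Tendsto (fun i => f (l ++ [i]) z) (UU : Filter ℕ) (𝓝 (f l z)) := by
    intro l hl z
    rw [Metric.tendsto_nhds]
    intro ε hε
    obtain ⟨N, y, hy, hyz⟩ := hF.dense z (ε / 4) (by positivity)
    have h1 : Tendsto (fun i : ℕ => (1 / 2 : ℝ) ^ i * ‖y‖) (UU : Filter ℕ) (𝓝 (0 * ‖y‖)) :=
      ((tendsto_pow_atTop_nhds_zero_of_lt_one (by norm_num) (by norm_num)).mono_left
        UU_le_atTop).mul_const _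
    rw [zero_mul] at h1
    filter_upwards [h1.eventually_lt_const (show (0 : ℝ) < ε / 2 by positivity),
      eventually_ge_UU N] with i hi hNi
    have h2 := (hfstep l hl i).1 y (hF.mono hNi hy)
    have h3 := hf l hl.le
    have h4 := hf (l ++ [i]) (by simp; omega)
    have h5 : |f (l ++ [i]) (z - y)| ≤ ‖z - y‖ := by
      have := (f (l ++ [i])).le_opNorm (z - y)
      rw [Real.norm_eq_abs] at this
      nlinarith [norm_nonneg (z - y)]
    have h6 : |f l (z - y)| ≤ ‖z - y‖ := by
      have := (f l).le_opNorm (z - y)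
      rw [Real.norm_eq_abs] at this
      nlinarith [norm_nonneg (z - y)]
    rw [Real.dist_eq]
    have h7 : f (l ++ [i]) z - f l z = f (l ++ [i]) (z - y) - f l (z - y) +
        (f (l ++ [i]) y - f l y) := by
      rw [map_sub, map_sub]
      ring
    rw [h7]
    have h8 := abs_add_le (f (l ++ [i]) (z - y) - f l (z - y)) (f (l ++ [i]) y - f l y)
    have h9 := abs_sub (f (l ++ [i]) (z - y)) (f l (z - y))
    linarith
  have hex : ∀ (u : List ℕ) (j : ℕ), ∃ y : X, ‖y‖ ≤ 1 ∧
      (u.length < 2 ^ k → γ / 3 ≤ (f (u ++ [j]) - f u) y) := by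
    intro u j
    by_cases hu : u.length < 2 ^ k
    · have h1 := (hfstep u hu j).2
      obtain ⟨y, hy, hy'⟩ := ContinuousLinearMap.exists_lt_apply_of_lt_opNorm
        (f (u ++ [j]) - f u) (show γ / 3 < ‖f (u ++ [j]) - f u‖ by linarith)
      rcases le_total 0 ((f (u ++ [j]) - f u) y) with h2 | h2
      · refine ⟨y, hy.le, fun _ => ?_⟩
        rw [Real.norm_of_nonneg h2] at hy'
        exact hy'.le
      · refine ⟨-y, by rw [norm_neg]; exact hy.le, fun _ => ?_⟩
        rw [Real.norm_of_nonpos h2] at hy'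
        rw [map_neg]
        exact hy'.le
    · exact ⟨0, by simp, fun h => absurd h hu⟩
  choose y hy1 hy2 using hex
  have hwex : ∀ u : List ℕ, ∃ w, WLim (y u) w := fun u => exists_wlim hp hP hU (hy1 u)
  choose w hw using hwex
  have hw1 : ∀ u, ‖w u‖ ≤ 1 := fun u => wlim_norm_le (hy1 u) (hw u)
  let x : List ℕ → X := fun v => y v.dropLast (v.getLastD 0) - w v.dropLast
  have hx : ∀ u j, x (u ++ [j]) = y u j - w u := by
    intro u j
    simp [x]
  have hxn : ∀ u j, ‖x (u ++ [j])‖ ≤ 2 := by
    intro u j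
    rw [hx]
    have := norm_sub_le (y u j) (w u)
    linarith [hy1 u j, hw1 u]
  have hwn : ∀ (l : List ℕ) (g : StrongDual ℝ X),
      Tendsto (fun i => g (x (l ++ [i]))) (UU : Filter ℕ) (𝓝 0) := by
    intro l g
    have h1 : Tendsto (fun i => g (y l i)) (UU : Filter ℕ) (𝓝 (g (w l))) := hw l g
    have h2 := h1.sub_const (g (w l))
    rw [sub_self] at h2
    refine h2.congr fun i => ?_
    rw [hx, map_sub]
  have hlow : ∀ l : List ℕ, l.length < 2 ^ k → ∀ ε : ℝ, 0 < ε →
      ∀ᶠ i in (UU : Filter ℕ), γ / 3 - ε ≤ f (l ++ [i]) (x (l ++ [i])) := by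
    intro l hl ε hε
    have h1 : Tendsto (fun i => f l (x (l ++ [i])) - (f (l ++ [i]) (w l) - f l (w l)))
        (UU : Filter ℕ) (𝓝 (0 - (f l (w l) - f l (w l)))) :=
      (hwn l (f l)).sub ((hws l hl (w l)).sub_const _)
    rw [sub_self, sub_zero] at h1
    filter_upwards [h1.eventually_const_lt (show -ε < 0 by linarith)] with i hi
    have h2 := hy2 l i hl
    have h3 : (f (l ++ [i]) - f l) (y l i) = f (l ++ [i]) (y l i) - f l (y l i) := rfl
    rw [h3] at h2
    rw [hx, map_sub] at hi ⊢
    linarith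
  have hinc : ∀ l i, ‖(∑ j ∈ Finset.range (l ++ [i]).length, x ((l ++ [i]).take (j + 1))) -
      (∑ j ∈ Finset.range l.length, x (l.take (j + 1)))‖ ≤ 2 := by
    intro l i
    rw [List.length_append, List.length_singleton, Finset.sum_range_succ]
    have h1 : ∑ j ∈ Finset.range l.length, x ((l ++ [i]).take (j + 1)) =
        ∑ j ∈ Finset.range l.length, x (l.take (j + 1)) := by
      refine Finset.sum_congr rfl fun j hj => ?_
      rw [List.take_append_of_le_length]
      exact Finset.mem_range.mp hj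
    have h2 : (l ++ [i]).take (l.length + 1) = l ++ [i] := List.take_of_length_le (by simp)
    rw [h1, h2, add_sub_cancel_left]
    exact hxn l i
  have hUI := UI (F := fun l => ∑ j ∈ Finset.range l.length, x (l.take (j + 1))) hp.le hP hU hk
    (show (0 : ℝ) ≤ 2 by norm_num) hinc (a := fun _ _ => γ / 3) (fun _ _ => by positivity) ?_
  · calc ((k - 1 : ℕ) : ℝ) * (γ / 3) ^ p = ∑ s ∈ Finset.Icc 1 (k - 1), ((2 : ℝ) ^ (k - 1 - s))⁻¹ *
          ∑ t ∈ Finset.Icc 1 (2 ^ (k - 1 - s)), (γ / 3) ^ p := by
          simp only [Finset.sum_const, Nat.card_Icc, nsmul_eq_mul, Nat.add_sub_cancel]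
          have h1 : ∀ s ∈ Finset.Icc 1 (k - 1), ((2 : ℝ) ^ (k - 1 - s))⁻¹ *
              (((2 ^ (k - 1 - s) : ℕ) : ℝ) * (γ / 3) ^ p) = (γ / 3) ^ p := by
            intro s _
            have h2 : ((2 : ℝ) ^ (k - 1 - s)) ≠ 0 := by positivity
            push_cast
            field_simp
          rw [Finset.sum_congr rfl h1, Finset.sum_const, Nat.card_Icc, nsmul_eq_mul,
            Nat.add_sub_cancel]
      _ ≤ _ := hUI
  · intro s hs t ht
    rw [Finset.mem_Icc] at hs ht
    obtain ⟨N, hN⟩ : ∃ N, t * 2 ^ (s + 1) = N + 2 ^ s := by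
      refine ⟨t * 2 ^ (s + 1) - 2 ^ s, ?_⟩
      have h1 : 2 ^ s ≤ t * 2 ^ (s + 1) := by
        calc 2 ^ s ≤ 1 * 2 ^ (s + 1) := by rw [one_mul]; exact Nat.pow_le_pow_right (by norm_num) (by omega)
          _ ≤ t * 2 ^ (s + 1) := Nat.mul_le_mul_right _ ht.1
      omega
    have hle : N + 2 ^ s ≤ 2 ^ k := by
      rw [← hN]
      calc t * 2 ^ (s + 1) ≤ 2 ^ (k - 1 - s) * 2 ^ (s + 1) := Nat.mul_le_mul_right _ ht.2
        _ = 2 ^ k := by
          rw [← pow_add]
          congr 1
          omega
    have h1 := pair_lower hf hws hwn hlow hle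
    have h2 : LB (N + (2 ^ s + 2 ^ s)) (fun l => ‖(∑ j ∈ Finset.range (l.take (N + 2 ^ s)).length,
        x ((l.take (N + 2 ^ s)).take (j + 1))) -
        ∑ j ∈ Finset.range (l.take N ++ l.drop (N + 2 ^ s)).length,
        x ((l.take N ++ l.drop (N + 2 ^ s)).take (j + 1))‖) [] ((2 : ℝ) ^ s * (γ / 3)) := by
      have h3 := h1.const_mul (show (0 : ℝ) < 1 / 2 by norm_num)
      refine (h3.weaken (le_of_eq ?_)).mono fun l hl => le_of_eq ?_
      · push_cast
        ring
      · ring
    have h4 : t * 2 ^ (s + 1) - 2 ^ s = N := by omega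
    rw [h4, hN]
    have h5 : N + 2 ^ s + 2 ^ s = N + (2 ^ s + 2 ^ s) := by omega
    rw [h5]
    -- boundedness
    have hbd : ∀ l : List ℕ, ‖∑ j ∈ Finset.range l.length, x (l.take (j + 1))‖ ≤
        2 * l.length := by
      intro l
      refine (norm_sum_le _ _).trans ?_
      calc ∑ j ∈ Finset.range l.length, ‖x (l.take (j + 1))‖
          ≤ ∑ j ∈ Finset.range l.length, (2 : ℝ) := by
            refine Finset.sum_le_sum fun j hj => ?_
            rw [Finset.mem_range] at hj
            have h6 : l.take (j + 1) ≠ [] := by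
              intro h7
              have := congrArg List.length h7
              rw [List.length_take, List.length_nil] at this
              omega
            rw [← List.dropLast_append_getLast h6]
            exact hxn _ _
        _ = 2 * l.length := by
            rw [Finset.sum_const, Finset.card_range, nsmul_eq_mul]
            ring
    have hR : RIL (N + (2 ^ s + 2 ^ s)) (fun l => ‖(∑ j ∈ Finset.range (l.take (N + 2 ^ s)).length,
        x ((l.take (N + 2 ^ s)).take (j + 1))) -
        ∑ j ∈ Finset.range (l.take N ++ l.drop (N + 2 ^ s)).length,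
        x ((l.take N ++ l.drop (N + 2 ^ s)).take (j + 1))‖) [] _ :=
      ril_il_of_bdd (M := 4 * ((N + (2 ^ s + 2 ^ s) : ℕ) : ℝ)) fun l hl => by
        rw [abs_of_nonneg (norm_nonneg _), List.nil_append]
        have h6 := hbd (l.take (N + 2 ^ s))
        have h7 := hbd (l.take N ++ l.drop (N + 2 ^ s))
        have h8 : (((l.take (N + 2 ^ s)).length : ℕ) : ℝ) ≤ ((N + (2 ^ s + 2 ^ s) : ℕ) : ℝ) := by
          have h10 : (l.take (N + 2 ^ s)).length ≤ N + (2 ^ s + 2 ^ s) := by
            rw [List.length_take]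
            omega
          exact_mod_cast h10
        have h9 : (((l.take N ++ l.drop (N + 2 ^ s)).length : ℕ) : ℝ) ≤
            ((N + (2 ^ s + 2 ^ s) : ℕ) : ℝ) := by
          have h10 : (l.take N ++ l.drop (N + 2 ^ s)).length ≤ N + (2 ^ s + 2 ^ s) := by
            rw [List.length_append, List.length_take, List.length_drop]
            omega
          exact_mod_cast h10
        refine (norm_sub_le _ _).trans ?_
        linarith
    exact h2.le_of_ril hR

end RankAux

variable {X : Type*} [NormedAddCommGroup X] [NormedSpace ℝ X]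

theorem rank_empty [CompleteSpace X] {p P : ℝ} (hp : 1 < p) (hP : 0 < P)
    (hU : UmbelIneq p P X) {F : ℕ → Submodule ℝ X} (hF : Exh F) {γ : ℝ} (hγ : 0 < γ) :
    ∃ n, Rk F γ n = ∅ := by
  by_contra hcon
  push Not at hcon
  have h0 : 0 < (γ / 3) ^ p := Real.rpow_pos_of_pos (by positivity) p
  obtain ⟨j, hj⟩ := exists_nat_gt (P ^ p * 2 ^ p / (γ / 3) ^ p)
  have h1 := RankAux.rank_bound hp hP hU hF hγ (k := j + 1) (by omega) (hcon _)
  rw [Nat.add_sub_cancel] at h1
  rw [div_lt_iff₀ h0] at hj
  linarith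

end Pool.Agent.H53.Umb
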