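import Pool.Agent.H53.Umb.Defs

/-!
MODULE SETS, parts 2 and 3: `separable_dual` and `exists_codes`.
-/

namespace Pool.Agent.H53.Umb

open Metric

/-- In a normed space in which all separated subsets of the unit ball are countable, the topology is
separable. -/
theorem separable_of_separated {Y : Type*} [NormedAddCommGroup Y] [NormedSpace ℝ Y]
    (H : ∀ γ : ℝ, 0 < γ → ∀ A : Set Y, A ⊆ closedBall 0 1 →
      (∀ f ∈ A, ∀ g ∈ A, f ≠ g → γ ≤ ‖f - g‖) → A.Countable) :
    TopologicalSpace.SeparableSpace Y := by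
  have hmax : ∀ (ε : ℝ) (n : ℕ), ∃ A : Set Y,
      Maximal (fun A : Set Y => A ⊆ closedBall 0 ((n : ℝ) + 1) ∧
        (∀ f ∈ A, ∀ g ∈ A, f ≠ g → ε ≤ ‖f - g‖)) A := by
    intro ε n
    obtain ⟨A, hA⟩ := zorn_subset {A : Set Y | A ⊆ closedBall 0 ((n : ℝ) + 1) ∧
        (∀ f ∈ A, ∀ g ∈ A, f ≠ g → ε ≤ ‖f - g‖)} (by
      intro c hc hchain
      refine ⟨⋃₀ c, ⟨?_, ?_⟩, fun s hs => Set.subset_sUnion_of_mem hs⟩
      · exact Set.sUnion_subset fun s hs => (hc hs).1
      · rintro f ⟨s, hs, hfs⟩ g ⟨t, ht, hgt⟩ hfg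
        rcases hchain.total hs ht with h | h
        · exact (hc ht).2 f (h hfs) g hgt hfg
        · exact (hc hs).2 f hfs g (h hgt) hfg)
    exact ⟨A, hA⟩
  have : SecondCountableTopology Y := by
    refine Metric.secondCountable_of_almost_dense_set ?_
    intro ε hε
    choose A hA using hmax ε
    refine ⟨⋃ n, A n, Set.countable_iUnion fun n => ?_, fun x => ?_⟩
    · -- countability
      have hn : (0 : ℝ) < (n : ℝ) + 1 := by positivity
      have hcount : ((fun f : Y => ((n : ℝ) + 1)⁻¹ • f) '' A n).Countable := by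
        refine H (ε / ((n : ℝ) + 1)) (by positivity) _ ?_ ?_
        · rintro _ ⟨f, hf, rfl⟩
          have h1 := (hA n).prop.1 hf
          rw [mem_closedBall_zero_iff] at h1 ⊢
          rw [norm_smul, norm_inv, Real.norm_eq_abs, abs_of_pos hn]
          rw [inv_mul_le_iff₀ hn]
          linarith
        · rintro _ ⟨f, hf, rfl⟩ _ ⟨g, hg, rfl⟩ hfg
          have hfg' : f ≠ g := by
            rintro rfl
            exact hfg rfl
          have h2 := (hA n).prop.2 f hf g hg hfg'
          simp only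
          rw [← smul_sub, norm_smul, norm_inv, Real.norm_eq_abs, abs_of_pos hn, div_eq_inv_mul]
          exact mul_le_mul_of_nonneg_left h2 (by positivity)
      refine (Set.countable_of_injective_of_countable_image (f := fun f : Y => ((n : ℝ) + 1)⁻¹ • f)
        ?_ hcount)
      intro f _ g _ hfg
      exact smul_right_injective Y (inv_ne_zero hn.ne') hfg
    · -- density
      obtain ⟨n, hn⟩ := exists_nat_ge ‖x‖
      by_contra hcon
      push Not at hcon
      have hx : x ∈ A n := by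
        have hsub : A n ⊆ insert x (A n) := Set.subset_insert x (A n)
        refine (hA n).le_of_ge ⟨?_, ?_⟩ hsub (Set.mem_insert x (A n))
        · refine Set.insert_subset ?_ (hA n).prop.1
          rw [mem_closedBall_zero_iff]
          linarith
        · have key : ∀ g ∈ A n, ε ≤ ‖x - g‖ := by
            intro g hg
            have h3 := hcon g (Set.mem_iUnion.2 ⟨n, hg⟩)
            rw [dist_eq_norm] at h3
            exact h3.le
          rintro f (rfl | hf) g (rfl | hg) hfg
          · exact absurd rfl hfg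
          · exact key g hg
          · rw [norm_sub_rev]; exact key f hf
          · exact (hA n).prop.2 f hf g hg hfg
      have h4 := hcon x (Set.mem_iUnion.2 ⟨n, hx⟩)
      rw [dist_self] at h4
      linarith
  infer_instance

variable {X : Type*} [NormedAddCommGroup X] [NormedSpace ℝ X]

theorem separable_dual {F : ℕ → Submodule ℝ X} (hF : Exh F)
    (hR : ∀ γ : ℝ, 0 < γ → ∃ n, Rk F γ n = ∅) :
    TopologicalSpace.SeparableSpace (StrongDual ℝ X) := by
  refine separable_of_separated ?_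
  intro γ hγ A hA hsep
  have main : ∀ n : ℕ, (A \ Rk F γ n).Countable := by
    intro n
    induction n with
    | zero =>
      have : A \ Rk F γ 0 = ∅ := Set.sdiff_eq_empty.2 hA
      rw [this]
      exact Set.countable_empty
    | succ n ih =>
      -- the bad sets
      let T : ℕ × ℕ → Set (StrongDual ℝ X) := fun p =>
        {f | f ∈ A ∧ f ∈ Rk F γ n ∧ ¬ ∃ g ∈ Rk F γ n, ∃ g' ∈ Rk F γ n,
          (∀ y ∈ F p.1, |g y - f y| ≤ (1 / ((p.2 : ℝ) + 1)) * ‖y‖) ∧
          (∀ y ∈ F p.1, |g' y - f y| ≤ (1 / ((p.2 : ℝ) + 1)) * ‖y‖) ∧ γ ≤ ‖g - g'‖}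
      have hsub : A \ Rk F γ (n + 1) ⊆ (A \ Rk F γ n) ∪ ⋃ p, T p := by
        rintro f ⟨hfA, hf⟩
        by_cases hfn : f ∈ Rk F γ n
        · right
          have h1 : ¬ (∀ (M : ℕ) (r : ℝ), 0 < r →
              ∃ g ∈ Rk F γ n, ∃ g' ∈ Rk F γ n, (∀ y ∈ F M, |g y - f y| ≤ r * ‖y‖) ∧
              (∀ y ∈ F M, |g' y - f y| ≤ r * ‖y‖) ∧ γ ≤ ‖g - g'‖) := fun h => hf ⟨hfn, h⟩
          simp only [not_forall] at h1
          obtain ⟨M, r, hr, h2⟩ := h1
          obtain ⟨k, hk⟩ := exists_nat_one_div_lt hr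
          refine Set.mem_iUnion.2 ⟨(M, k), hfA, hfn, ?_⟩
          rintro ⟨g, hg, g', hg', h3, h4, h5⟩
          refine h2 ⟨g, hg, g', hg', fun y hy => (h3 y hy).trans ?_,
            fun y hy => (h4 y hy).trans ?_, h5⟩ <;>
          exact mul_le_mul_of_nonneg_right hk.le (norm_nonneg _)
        · left
          exact ⟨hfA, hfn⟩
      refine Set.Countable.mono hsub (ih.union (Set.countable_iUnion ?_))
      rintro ⟨M, k⟩
      have := hF.fin M
      have : FiniteDimensional ℝ (StrongDual ℝ (F M)) := inferInstance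
      have : ProperSpace (StrongDual ℝ (F M)) := FiniteDimensional.proper ℝ (StrongDual ℝ (F M))
      let ρ : StrongDual ℝ X → StrongDual ℝ (F M) := fun f => f.comp (F M).subtypeL
      have hr : (0 : ℝ) < 1 / ((k : ℝ) + 1) := by positivity
      have hdis : (T (M, k)).PairwiseDisjoint (fun f => ball (ρ f) (1 / ((k : ℝ) + 1) / 2)) := by
        intro f hf g hg hfg
        refine Metric.ball_disjoint_ball ?_
        by_contra hcon
        push Not at hcon
        refine hf.2.2 ⟨f, hf.2.1, g, hg.2.1, ?_, ?_, hsep f hf.1 g hg.1 hfg⟩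
        · intro y _
          rw [sub_self, abs_zero]
          positivity
        · intro y hy
          have h5 : ‖(ρ g - ρ f) ⟨y, hy⟩‖ ≤ ‖ρ g - ρ f‖ * ‖(⟨y, hy⟩ : F M)‖ :=
            ContinuousLinearMap.le_opNorm _ _
          have h6 : (ρ g - ρ f) ⟨y, hy⟩ = g y - f y := rfl
          rw [h6, Real.norm_eq_abs] at h5
          have h7 : ‖ρ g - ρ f‖ ≤ 1 / ((k : ℝ) + 1) := by
            rw [add_halves, dist_comm] at hcon
            calc ‖ρ g - ρ f‖ = dist (ρ g) (ρ f) := (dist_eq_norm (ρ g) (ρ f)).symm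
              _ ≤ _ := hcon.le
          exact h5.trans (mul_le_mul_of_nonneg_right h7 (norm_nonneg _))
      exact hdis.countable_of_isOpen (fun _ _ => isOpen_ball)
        (fun f _ => ⟨ρ f, mem_ball_self (by positivity)⟩)
  obtain ⟨n, hn⟩ := hR γ hγ
  have h1 := main n
  rwa [hn, Set.sdiff_empty] at h1

theorem exists_codes (hs : TopologicalSpace.SeparableSpace (StrongDual ℝ X))
    (F : ℕ → Submodule ℝ X) {B : Set (StrongDual ℝ X)} (h0 : (0 : StrongDual ℝ X) ∈ B) :
    ∃ γ : ℕ → StrongDual ℝ X, Codes F B γ := by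
  have key : ∀ M : ℕ, ∃ d : ℕ → StrongDual ℝ X, (∀ k, d k ∈ B ∧ Van (d k) (F M)) ∧
      ∀ (f : StrongDual ℝ X) (r : ℝ), f ∈ B → Van f (F M) → 0 < r → ∃ k, ‖d k - f‖ ≤ r := by
    intro M
    let S : Set (StrongDual ℝ X) := {f | f ∈ B ∧ Van f (F M)}
    have hSep : TopologicalSpace.IsSeparable S := TopologicalSpace.IsSeparable.of_separableSpace S
    have : TopologicalSpace.SeparableSpace S := hSep.separableSpace
    have : Nonempty S := ⟨⟨0, h0, fun y _ => rfl⟩⟩
    refine ⟨fun k => (TopologicalSpace.denseSeq S k : StrongDual ℝ X),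
      fun k => (TopologicalSpace.denseSeq S k).2, ?_⟩
    intro f r hf hv hr
    have hd := TopologicalSpace.denseRange_denseSeq S
    obtain ⟨k, hk⟩ := hd.exists_dist_lt (⟨f, hf, hv⟩ : S) hr
    refine ⟨k, ?_⟩
    rw [dist_comm] at hk
    have : dist (TopologicalSpace.denseSeq S k : StrongDual ℝ X) f < r := hk
    rw [dist_eq_norm] at this
    exact this.le
  choose d hd1 hd2 using key
  refine ⟨fun c => d (Nat.unpair c).1 (Nat.unpair c).2, ⟨fun c => (hd1 _ _).1, ?_⟩⟩
  intro M f r hf hv hr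
  obtain ⟨k, hk⟩ := hd2 M f r hf hv hr
  refine ⟨Nat.pair M k, ?_, ?_⟩
  · simp only [Nat.unpair_pair]
    exact (hd1 M k).2
  · simp only [Nat.unpair_pair]
    exact hk

end Pool.Agent.H53.Umb
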