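import Pool.Agent.H53.Umb.Defs

/-!
MODULE STRAT (finite determinacy). For each `k ≤ K` define by recursion on `k - h.length` the
predicate `Bad k h`: if `h.length = k` (or `≥ k`): `¬ Q h`; otherwise `∀ M, ∃ c, G M c ∧ Bad k (h ++ [c])`.
If `Bad k []` then choice gives `c : List ℕ → ℕ` with `G i (c (l ++ [i]))` for all `l`, `i` (define
the path recursively; when the current history is not bad choose any code, `hG` below) and
`¬ Q (path c l)` for `l.length = k`, against `hQ`. So `¬ Bad k []`; `Φ k h` = some `M` such that
`∀ c, G M c → ¬ Bad k (h ++ [c])` if there is one; `Φ h` = the maximum of `Φ k h` (`k ≤ K`) and of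
the elements of `h`. By `anti`, legal histories for `Φ` are legal for each `Φ k`, so a legal
history of length `k ≤ K` is not bad, i.e. `Q h`.
-/

namespace Pool.Agent.H53.Umb

/-- The history `h` is bad with `n` moves to go. -/
def StratBad (G : ℕ → ℕ → Prop) (Q : List ℕ → Prop) : ℕ → List ℕ → Prop
  | 0, h => ¬ Q h
  | n + 1, h => ∀ M, ∃ c, G M c ∧ StratBad G Q n (h ++ [c])

/-- The history after the moves in the reversed list. -/
def stratHist (k : ℕ) (d : ℕ → List ℕ → ℕ → ℕ) : List ℕ → List ℕ
  | [] => []
  | i :: l => stratHist k d l ++ [d (k - l.length - 1) (stratHist k d l) i]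

/-- The code chosen after the moves in the reversed list. -/
def stratCode (k : ℕ) (d : ℕ → List ℕ → ℕ → ℕ) : List ℕ → ℕ
  | [] => 0
  | i :: l => d (k - l.length - 1) (stratHist k d l) i

theorem path_append {α : Type*} (c : List ℕ → α) (l : List ℕ) (i : ℕ) :
    path c (l ++ [i]) = path c l ++ [c (l ++ [i])] := by
  unfold path
  rw [List.length_append, List.length_singleton, List.range_succ, List.map_append]
  congr 1
  · apply List.map_congr_left
    intro j hj
    rw [List.mem_range] at hj
    rw [List.take_append_of_le_length (by omega)]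
  · simp [List.take_of_length_le]

theorem path_stratCode (k : ℕ) (d : ℕ → List ℕ → ℕ → ℕ) (l : List ℕ) :
    path (fun l => stratCode k d l.reverse) l = stratHist k d l.reverse := by
  induction l using List.reverseRecOn with
  | nil => rfl
  | append_singleton l i ih =>
    rw [path_append, ih]
    simp [stratHist, stratCode]

theorem not_stratBad_nil {G : ℕ → ℕ → Prop} (hG : ∀ M, ∃ c, G M c) {Q : List ℕ → Prop}
    (hQ : ∀ (k : ℕ) (c : List ℕ → ℕ), (∀ l i, G i (c (l ++ [i]))) →
      ∃ l : List ℕ, l.length = k ∧ Q (path c l)) (k : ℕ) : ¬ StratBad G Q k [] := by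
  intro hbad
  have hd : ∀ (n : ℕ) (h : List ℕ) (M : ℕ), ∃ c, G M c ∧
      (StratBad G Q (n + 1) h → StratBad G Q n (h ++ [c])) := by
    intro n h M
    by_cases hb : StratBad G Q (n + 1) h
    · obtain ⟨c, hc1, hc2⟩ := hb M
      exact ⟨c, hc1, fun _ => hc2⟩
    · obtain ⟨c, hc⟩ := hG M
      exact ⟨c, hc, fun h' => absurd h' hb⟩
  choose d hd1 hd2 using hd
  have hB : ∀ l : List ℕ, l.length ≤ k → StratBad G Q (k - l.length) (stratHist k d l) := by
    intro l
    induction l with
    | nil => intro _; simpa [stratHist] using hbad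
    | cons i l ih =>
      intro hl
      rw [List.length_cons] at hl
      have h1 := ih (by omega)
      have h2 : k - l.length = (k - l.length - 1) + 1 := by omega
      rw [h2] at h1
      have h3 := hd2 (k - l.length - 1) (stratHist k d l) i h1
      have h4 : k - (i :: l).length = k - l.length - 1 := by rw [List.length_cons]; omega
      rw [h4]
      exact h3
  obtain ⟨l, hl, hql⟩ := hQ k (fun l => stratCode k d l.reverse) (by
    intro l i
    simp only [List.reverse_append, List.reverse_cons, List.reverse_nil, List.nil_append,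
      List.cons_append]
    exact hd1 _ _ _)
  rw [path_stratCode] at hql
  have h1 := hB l.reverse (by rw [List.length_reverse]; omega)
  rw [List.length_reverse, hl, Nat.sub_self] at h1
  exact h1 hql

theorem exists_strat {G : ℕ → ℕ → Prop} (anti : ∀ M M' c, M ≤ M' → G M' c → G M c)
    (hG : ∀ M, ∃ c, G M c) {Q : List ℕ → Prop}
    (hQ : ∀ (k : ℕ) (c : List ℕ → ℕ), (∀ l i, G i (c (l ++ [i]))) →
      ∃ l : List ℕ, l.length = k ∧ Q (path c l)) (K : ℕ) :
    ∃ Φ : List ℕ → ℕ, GoodStrat G Q K Φ := by
  have hφ : ∀ (n : ℕ) (h : List ℕ), ∃ M, ¬ StratBad G Q (n + 1) h →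
      ∀ c, G M c → ¬ StratBad G Q n (h ++ [c]) := by
    intro n h
    by_cases hb : StratBad G Q (n + 1) h
    · exact ⟨0, fun h' => absurd hb h'⟩
    · have hb' := hb
      simp only [StratBad, not_forall, not_exists, not_and] at hb'
      obtain ⟨M, hM⟩ := hb'
      exact ⟨M, fun _ c hc => hM c hc⟩
  choose φ hφ using hφ
  refine ⟨fun h => (∑ k ∈ Finset.range (K + 1), φ (k - h.length - 1) h) + h.sum, ?_, ?_⟩
  · intro h c hc
    exact le_trans (List.single_le_sum (by simp) c hc) (Nat.le_add_left _ _)
  · intro h hleg hlen
    have key : ∀ j : ℕ, j ≤ h.length → ¬ StratBad G Q (h.length - j) (h.take j) := by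
      intro j
      induction j with
      | zero =>
        intro _
        simpa using not_stratBad_nil hG hQ h.length
      | succ j ih =>
        intro hj
        have h1 := ih (by omega)
        have h2 : h.length - j = (h.length - (j + 1)) + 1 := by omega
        rw [h2] at h1
        have h3 : h.take (j + 1) = h.take j ++ [h[j]] := by
          rw [List.take_succ_eq_append_getElem (by omega)]
        rw [h3]
        refine hφ _ _ h1 _ ?_
        have h4 : G _ h[j] := hleg (h.take j) h[j] (by rw [← h3]; exact List.take_prefix _ _)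
        refine anti _ _ _ ?_ h4
        have h5 : (h.take j).length = j := by rw [List.length_take]; omega
        have h6 : φ (h.length - (j + 1)) (h.take j) ≤
            ∑ k ∈ Finset.range (K + 1), φ (k - (h.take j).length - 1) (h.take j) := by
          have := Finset.single_le_sum (f := fun k => φ (k - (h.take j).length - 1) (h.take j))
            (fun i _ => Nat.zero_le _) (Finset.mem_range.mpr (Nat.lt_succ_of_le hlen))
          simp only [h5] at this ⊢
          rwa [Nat.sub_sub] at this
        exact le_trans h6 (Nat.le_add_right _ _)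
    have h1 := key h.length le_rfl
    rw [Nat.sub_self, List.take_length] at h1
    by_contra hq
    exact h1 hq

end Pool.Agent.H53.Umb
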