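import Pool.Agent.H53.Umb.FarTree
import Pool.Agent.H53.Umb.Rank
import Pool.Agent.H53.Umb.Norm
import Pool.Agent.H53.Umb.Gain
import Pool.Agent.H53.Umb.SetsGood
import Pool.Agent.H53.Umb.SetsSep
import Pool.Agent.H53.Umb.Strat

/-!
Assembly of the theorem for separable spaces.
-/

namespace Pool.Agent.H53.Umb

variable {X : Type*} [NormedAddCommGroup X] [NormedSpace ℝ X]

theorem exists_exh [TopologicalSpace.SeparableSpace X] : ∃ F : ℕ → Submodule ℝ X, Exh F := by
  let u : ℕ → X := TopologicalSpace.denseSeq X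
  refine ⟨fun n => Submodule.span ℝ (u '' {i | i < n}), ?_, ?_, ?_⟩
  · intro m n hmn
    exact Submodule.span_mono (Set.image_mono fun i hi => lt_of_lt_of_le hi hmn)
  · intro n
    exact FiniteDimensional.span_of_finite ℝ ((Set.finite_lt_nat n).image u)
  · intro x r hr
    obtain ⟨i, hi⟩ := (TopologicalSpace.denseRange_denseSeq X).exists_dist_lt x hr
    refine ⟨i + 1, u i, Submodule.subset_span ⟨i, Nat.lt_succ_self i, rfl⟩, ?_⟩
    rwa [← dist_eq_norm]

theorem van_anti {F : ℕ → Submodule ℝ X} (hF : Exh F) {M M' : ℕ} {f : StrongDual ℝ X}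
    (h : M ≤ M') (hf : Van f (F M')) : Van f (F M) := fun y hy => hf y (hF.mono h hy)

theorem map_path (γ : ℕ → StrongDual ℝ X) (c : List ℕ → ℕ) (l : List ℕ) :
    (path c l).map γ = path (fun m => γ (c m)) l := by
  simp [path]

/-- The main theorem: the separable case. -/
theorem main_separable [CompleteSpace X] [TopologicalSpace.SeparableSpace X] {p q : ℝ}
    (hp : 1 < p) (hpq : p < q) (hX : UmbelConvex p X) :
    ∃ N : Seminorm ℝ X, EquivNorm N ∧ HasBeta q N := by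
  obtain ⟨P, hP, hU⟩ := hX
  obtain ⟨F, hF⟩ := exists_exh (X := X)
  have hR : ∀ γ : ℝ, 0 < γ → ∃ n, Rk F γ n = ∅ := fun γ hγ => rank_empty hp hP hU hF hγ
  obtain ⟨B, σ, hB⟩ := exists_goodSet hF (hR (1 / 4) (by norm_num))
  have hs := separable_dual hF hR
  have h0 : (0 : StrongDual ℝ X) ∈ B := hB.ball_sub (by simp)
  obtain ⟨γ, hγ⟩ := exists_codes hs F h0
  obtain ⟨C₂, hC₂, hft⟩ := far_tree hp hP hU hF
  have hS : ∀ K : ℕ, ∃ Φ : List ℕ → ℕ, GoodStrat (fun M c => Van (γ c) (F M))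
      (fun h => ‖(h.map γ).sum‖ ≤ C₂ * (h.length : ℝ) ^ (1 - 1 / p)) K Φ := by
    refine exists_strat (G := fun M c => Van (γ c) (F M))
      (Q := fun h => ‖(h.map γ).sum‖ ≤ C₂ * (h.length : ℝ) ^ (1 - 1 / p))
      (fun M M' c hM h => van_anti hF hM h) (fun M => ?_) (fun k c hc => ?_)
    · obtain ⟨c, hc, -⟩ := hγ.dense M 0 1 h0 (fun y _ => rfl) one_pos
      exact ⟨c, hc⟩
    · obtain ⟨l, hl, hl'⟩ := hft k (fun m => γ (c m))
        (fun m => by simpa using hB.sub_ball (hγ.mem (c m))) hc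
      refine ⟨l, hl, ?_⟩
      show ‖((path c l).map γ).sum‖ ≤ C₂ * ((path c l).length : ℝ) ^ (1 - 1 / p)
      rw [map_path]
      simpa [path, hl] using hl'
  obtain ⟨C, c, hC, hc, hE⟩ := exists_potential hp hC₂ hF hB hγ hS
  exact norm_of_potential hp hpq hC hc hE

end Pool.Agent.H53.Umb
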