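import Pool.Agent.H53.Umb.Diag

/-!
MODULE UI (helper53): the umbel inequality for `F : List ℕ → X`, with iterated ultralimits.
-/

namespace Pool.Agent.H53.Umb

open Filter Topology
open scoped ENNReal

section Abstract

variable {X : Type*} [PseudoEMetricSpace X]

theorem umbelR_le_of {f : Finset ℕ → X} {c : ℝ≥0∞} {p : ℝ} (k : ℕ)
    (hf : ∀ (m : Finset ℕ) (j : ℕ), Below m {j} → edist (f m) (f (m ∪ {j})) ^ p ≤ c) :
    umbelR p k f ≤ 2 ^ k * c := by
  rw [umbelR]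
  refine (Finset.sum_le_card_nsmul _ _ c fun l _ => ?_).trans ?_
  · exact iSup_le fun m => iSup_le fun j => iSup_le fun hm => hf m j hm.2
  · rw [Nat.card_Icc, nsmul_eq_mul]
    simp

theorem le_term {f : Finset ℕ → X} {c : ℝ≥0∞} {p : ℝ} {N D : ℕ} {q : ℝ≥0∞}
    (H : ∀ (n δ η : Finset ℕ) (j : ℕ), n.card = N → δ.card = D → η.card = D - 1 →
      Below n δ → Below δ {j} → Below n {j} → Below {j} η →
      c ≤ edist (f (n ∪ δ)) (f (n ∪ {j} ∪ η)) ^ p / q) :
    c ≤ ⨅ (n : Finset ℕ) (_ : n.card = N),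
      ⨅ (δ : Finset ℕ) (_ : δ.card = D ∧ Below n δ),
        liminf (fun j : ℕ =>
          ⨅ (η : Finset ℕ) (_ : η.card = D - 1 ∧ Below n {j} ∧ Below {j} η),
            edist (f (n ∪ δ)) (f (n ∪ {j} ∪ η)) ^ p / q) atTop := by
  refine le_iInf₂ fun n hn => le_iInf₂ fun δ hδ => ?_
  have hev : ∀ᶠ j in (atTop : Filter ℕ), Below δ {j} := by
    filter_upwards [eventually_gt_atTop (δ.sup id)] with j hj a ha b hb
    rw [Finset.mem_singleton] at hb
    subst hb
    exact lt_of_le_of_lt (Finset.le_sup (f := id) ha) hj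
  refine le_liminf_of_le (by isBoundedDefault) ?_
  filter_upwards [hev] with j hj
  exact le_iInf₂ fun η hη => H n δ η j hn hδ.1 hη.1 hδ.2 hj hη.2.1 hη.2.2

theorem le_umbelL {f : Finset ℕ → X} {p : ℝ} (k : ℕ) {c : ℕ → ℕ → ℝ≥0∞}
    (H : ∀ s ∈ Finset.Icc 1 (k - 1), ∀ t ∈ Finset.Icc 1 (2 ^ (k - 1 - s)),
      ∀ (n δ η : Finset ℕ) (j : ℕ), n.card = t * 2 ^ (s + 1) - 2 ^ s → δ.card = 2 ^ s →
      η.card = 2 ^ s - 1 →
      Below n δ → Below δ {j} → Below n {j} → Below {j} η →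
      c s t ≤ edist (f (n ∪ δ)) (f (n ∪ {j} ∪ η)) ^ p / (2 ^ s : ℝ≥0∞) ^ p) :
    ∑ s ∈ Finset.Icc 1 (k - 1), (2 ^ (k - 1 - s) : ℝ≥0∞)⁻¹ *
      ∑ t ∈ Finset.Icc 1 (2 ^ (k - 1 - s)), c s t ≤ umbelL p k f := by
  rw [umbelL]
  exact Finset.sum_le_sum fun s hs => mul_le_mul' le_rfl
    (Finset.sum_le_sum fun t ht => le_term (H s hs t ht))

end Abstract

section

variable {X : Type*} [NormedAddCommGroup X]

theorem norm_sub_le_of_inc {F : List ℕ → X} {B : ℝ} (inc : ∀ l i, ‖F (l ++ [i]) - F l‖ ≤ B)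
    (l : List ℕ) : ‖F l - F []‖ ≤ l.length * B := by
  induction l using List.reverseRecOn with
  | nil => simp
  | append_singleton l i ih =>
    have h1 := inc l i
    have h2 : F (l ++ [i]) - F [] = (F (l ++ [i]) - F l) + (F l - F []) := by abel
    rw [h2, List.length_append, List.length_singleton]
    push_cast
    have h3 := norm_add_le (F (l ++ [i]) - F l) (F l - F [])
    linarith

/-- The norms appearing in the umbel pairs are bounded. -/
theorem bd_pair {F : List ℕ → X} {B : ℝ} (hB : 0 ≤ B) (inc : ∀ l i, ‖F (l ++ [i]) - F l‖ ≤ B)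
    (u v w : ℕ) : Bd (fun l => ‖F (l.take u) - F (l.take v ++ l.drop w)‖) := by
  refine ⟨fun n => (n + (n + n)) * B, fun l => ?_⟩
  rw [abs_of_nonneg (norm_nonneg _)]
  have h1 := norm_sub_le_of_inc inc (l.take u)
  have h2 := norm_sub_le_of_inc inc (l.take v ++ l.drop w)
  have h3 : F (l.take u) - F (l.take v ++ l.drop w) =
      (F (l.take u) - F []) - (F (l.take v ++ l.drop w) - F []) := by abel
  have h4 := norm_sub_le (F (l.take u) - F []) (F (l.take v ++ l.drop w) - F [])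
  rw [← h3] at h4
  have h5 : ((l.take u).length : ℝ) ≤ l.length := by
    exact_mod_cast List.length_take_le' _ _
  have h6 : ((l.take v ++ l.drop w).length : ℝ) ≤ l.length + l.length := by
    have : (l.take v ++ l.drop w).length ≤ l.length + l.length := by
      rw [List.length_append]
      exact Nat.add_le_add (List.length_take_le' _ _) (by simp)
    exact_mod_cast this
  have h7 := mul_le_mul_of_nonneg_right h5 hB
  have h8 := mul_le_mul_of_nonneg_right h6 hB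
  have h9 : ((l.length : ℝ) + (l.length + l.length)) * B =
    l.length * B + (l.length + l.length) * B := by ring
  linarith

/-- The concatenation of the sorted lists of the four sets of an umbel pair. -/
theorem inc_tuple {n δ η : Finset ℕ} {j : ℕ} (hnδ : Below n δ) (hδj : Below δ {j})
    (hnj : Below n {j}) (hjη : Below {j} η) :
    Inc (n.sort ++ (δ.sort ++ ([j] ++ η.sort))) := by
  have hδj : ∀ a ∈ δ, a < j := fun a ha => hδj a ha j (Finset.mem_singleton_self j)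
  have hjη' : ∀ b ∈ η, j < b := fun b hb => hjη j (Finset.mem_singleton_self j) b hb
  have hnj' : ∀ a ∈ n, a < j := fun a ha => hnj a ha j (Finset.mem_singleton_self j)
  rw [Inc, List.pairwise_append, List.pairwise_append, List.pairwise_append]
  refine ⟨(Finset.sortedLT_sort n).pairwise, ⟨(Finset.sortedLT_sort δ).pairwise,
    ⟨List.pairwise_singleton _ _, (Finset.sortedLT_sort η).pairwise, ?_⟩, ?_⟩, ?_⟩
  · intro a ha b hb
    rw [List.mem_singleton] at ha
    subst ha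
    exact hjη' b ((Finset.mem_sort _).mp hb)
  · intro a ha b hb
    rw [Finset.mem_sort] at ha
    rcases List.mem_append.mp hb with h | h
    · rw [List.mem_singleton] at h
      subst h
      exact hδj a ha
    · exact lt_trans (hδj a ha) (hjη' b ((Finset.mem_sort _).mp h))
  · intro a ha b hb
    rw [Finset.mem_sort] at ha
    rcases List.mem_append.mp hb with h | h
    · exact hnδ a ha b ((Finset.mem_sort _).mp h)
    · rcases List.mem_append.mp h with h | h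
      · rw [List.mem_singleton] at h
        subst h
        exact hnj' a ha
      · exact lt_trans (hnj' a ha) (hjη' b ((Finset.mem_sort _).mp h))

/-- The function on finite sets. -/
def ff (F : List ℕ → X) (φ : ℕ → ℕ) (A : Finset ℕ) : X := F (A.sort.map φ)

omit [NormedAddCommGroup X] in
theorem ff_union_singleton (F : List ℕ → X) (φ : ℕ → ℕ) {m : Finset ℕ} {j : ℕ}
    (h : Below m {j}) : ff F φ (m ∪ {j}) = F (m.sort.map φ ++ [φ j]) := by
  rw [ff, sort_union h, Finset.sort_singleton, List.map_append, List.map_singleton]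

omit [NormedAddCommGroup X] in
theorem ff_left (F : List ℕ → X) (φ : ℕ → ℕ) {n δ : Finset ℕ} (hnδ : Below n δ) (y : List ℕ)
    {M : ℕ} (hM : M = n.card + δ.card) :
    ff F φ (n ∪ δ) = F (((n.sort ++ (δ.sort ++ y)).map φ).take M) := by
  have e1 : ((n.sort ++ (δ.sort ++ y)).map φ).take M = (n.sort ++ δ.sort).map φ := by
    rw [← List.map_take]
    congr 1
    rw [← List.append_assoc]
    apply List.take_left'
    rw [List.length_append, Finset.length_sort, Finset.length_sort, hM]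
  rw [e1, ff, sort_union hnδ]

omit [NormedAddCommGroup X] in
theorem ff_right (F : List ℕ → X) (φ : ℕ → ℕ) {n η : Finset ℕ} {j : ℕ} (hnj : Below n {j})
    (hjη : Below {j} η) (z : List ℕ) {N M : ℕ} (hN : N = n.card) (hM : M = n.card + z.length) :
    ff F φ (n ∪ {j} ∪ η) = F (((n.sort ++ (z ++ ([j] ++ η.sort))).map φ).take N ++
      ((n.sort ++ (z ++ ([j] ++ η.sort))).map φ).drop M) := by
  have hnjη : Below (n ∪ {j}) η := by
    intro a ha b hb
    rcases Finset.mem_union.mp ha with h | h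
    · exact lt_trans (hnj a h j (Finset.mem_singleton_self j))
        (hjη j (Finset.mem_singleton_self j) b hb)
    · exact hjη a h b hb
  have t1 : ((n.sort ++ (z ++ ([j] ++ η.sort))).map φ).take N = n.sort.map φ := by
    rw [← List.map_take]
    congr 1
    apply List.take_left'
    rw [Finset.length_sort, hN]
  have t2 : ((n.sort ++ (z ++ ([j] ++ η.sort))).map φ).drop M = ([j] ++ η.sort).map φ := by
    rw [← List.map_drop]
    congr 1
    rw [← List.append_assoc]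
    apply List.drop_left'
    rw [List.length_append, Finset.length_sort, hM]
  rw [t1, t2, ff, sort_union hnjη, sort_union hnj, Finset.sort_singleton, ← List.map_append,
    List.append_assoc]

/-- The right side of the umbel inequality. -/
theorem umbelR_le {F : List ℕ → X} {B p : ℝ} (hp : 1 ≤ p) (hB : 0 ≤ B)
    (inc : ∀ l i, ‖F (l ++ [i]) - F l‖ ≤ B) (φ : ℕ → ℕ) (k : ℕ) :
    umbelR p k (ff F φ) ≤ 2 ^ k * ENNReal.ofReal (B ^ p) := by
  have hp0 : 0 ≤ p := by linarith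
  refine umbelR_le_of k fun m j hm => ?_
  rw [← ENNReal.ofReal_rpow_of_nonneg hB hp0]
  refine ENNReal.rpow_le_rpow ?_ hp0
  rw [ff_union_singleton F φ hm, ff, edist_dist, dist_comm, dist_eq_norm]
  exact ENNReal.ofReal_le_ofReal (inc _ _)

theorem ennreal_aux {p b d : ℝ} (hp : 1 ≤ p) (hb : 0 ≤ b) {s : ℕ} (h : (2 : ℝ) ^ s * b ≤ d) :
    ENNReal.ofReal (b ^ p) ≤ ENNReal.ofReal d ^ p / (2 ^ s : ℝ≥0∞) ^ p := by
  have hp0 : 0 ≤ p := by linarith
  rw [← ENNReal.div_rpow_of_nonneg _ _ hp0, ← ENNReal.ofReal_rpow_of_nonneg hb hp0]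
  refine ENNReal.rpow_le_rpow ?_ hp0
  have h3 : (2 ^ s : ℝ≥0∞) = ENNReal.ofReal ((2 : ℝ) ^ s) := by
    rw [ENNReal.ofReal_pow (by norm_num)]
    norm_num
  rw [h3, ← ENNReal.ofReal_div_of_pos (by positivity)]
  apply ENNReal.ofReal_le_ofReal
  rw [le_div_iff₀ (by positivity), mul_comm]
  exact h

end

/-- The umbel inequality with real numbers. -/
theorem real_umbel {X : Type*} [NormedAddCommGroup X] {p P : ℝ} (hp : 1 ≤ p)
    (hP : 0 < P) (hU : UmbelIneq p P X) {k : ℕ} (hk : 1 ≤ k) {f : Finset ℕ → X} {B : ℝ}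
    (hB : 0 ≤ B) (hR : umbelR p k f ≤ 2 ^ k * ENNReal.ofReal (B ^ p))
    {b : ℕ → ℕ → ℝ} (hb : ∀ s t, 0 ≤ b s t)
    (H : ∀ s ∈ Finset.Icc 1 (k - 1), ∀ t ∈ Finset.Icc 1 (2 ^ (k - 1 - s)),
      ∀ (n δ η : Finset ℕ) (j : ℕ), n.card = t * 2 ^ (s + 1) - 2 ^ s → δ.card = 2 ^ s →
      η.card = 2 ^ s - 1 →
      Below n δ → Below δ {j} → Below n {j} → Below {j} η →
      (2 : ℝ) ^ s * b s t ≤ ‖f (n ∪ δ) - f (n ∪ {j} ∪ η)‖) :
    ∑ s ∈ Finset.Icc 1 (k - 1), ((2 : ℝ) ^ (k - 1 - s))⁻¹ *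
      ∑ t ∈ Finset.Icc 1 (2 ^ (k - 1 - s)), (b s t) ^ p ≤ P ^ p * B ^ p := by
  have hp0 : 0 ≤ p := by linarith
  have h1 := hU k hk f
  have h3 : umbelL p k f ≤ ENNReal.ofReal (P ^ p * B ^ p) := by
    refine h1.trans ?_
    refine (mul_le_mul' le_rfl hR).trans (le_of_eq ?_)
    rw [ENNReal.ofReal_mul (by positivity), ← mul_assoc,
      ENNReal.div_mul_cancel (by positivity) (by finiteness)]
  have h4 := le_umbelL (f := f) (p := p) k (c := fun s t => ENNReal.ofReal (b s t ^ p))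
    (fun s hs t ht n δ η j h1 h2 h3 h4 h5 h6 h7 => by
      rw [edist_dist, dist_eq_norm]
      exact ennreal_aux hp (hb s t) (H s hs t ht n δ η j h1 h2 h3 h4 h5 h6 h7))
  have h5 : ENNReal.ofReal (∑ s ∈ Finset.Icc 1 (k - 1), ((2 : ℝ) ^ (k - 1 - s))⁻¹ *
      ∑ t ∈ Finset.Icc 1 (2 ^ (k - 1 - s)), (b s t) ^ p) =
      ∑ s ∈ Finset.Icc 1 (k - 1), (2 ^ (k - 1 - s) : ℝ≥0∞)⁻¹ *
      ∑ t ∈ Finset.Icc 1 (2 ^ (k - 1 - s)), ENNReal.ofReal (b s t ^ p) := by
    rw [ENNReal.ofReal_sum_of_nonneg fun s _ => mul_nonneg (by positivity)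
      (Finset.sum_nonneg fun t _ => Real.rpow_nonneg (hb _ _) _)]
    refine Finset.sum_congr rfl fun s hs => ?_
    rw [ENNReal.ofReal_mul (by positivity), ENNReal.ofReal_inv_of_pos (by positivity),
      ENNReal.ofReal_pow (by norm_num), ENNReal.ofReal_ofNat,
      ENNReal.ofReal_sum_of_nonneg fun t _ => Real.rpow_nonneg (hb _ _) _]
  rw [← h5] at h4
  have h6 := h4.trans h3
  rwa [ENNReal.ofReal_le_ofReal_iff (by positivity)] at h6

theorem UI {X : Type*} [NormedAddCommGroup X] [NormedSpace ℝ X] {p P : ℝ} (hp : 1 ≤ p)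
    (hP : 0 < P) (hU : UmbelIneq p P X) {k : ℕ} (hk : 1 ≤ k) {F : List ℕ → X} {B : ℝ}
    (hB : 0 ≤ B) (inc : ∀ l i, ‖F (l ++ [i]) - F l‖ ≤ B) {a : ℕ → ℕ → ℝ}
    (ha : ∀ s t, 0 ≤ a s t)
    (hlow : ∀ s ∈ Finset.Icc 1 (k - 1), ∀ t ∈ Finset.Icc 1 (2 ^ (k - 1 - s)),
      (2 : ℝ) ^ s * a s t ≤ IL (t * 2 ^ (s + 1) + 2 ^ s)
        (fun l => ‖F (l.take (t * 2 ^ (s + 1))) -
          F (l.take (t * 2 ^ (s + 1) - 2 ^ s) ++ l.drop (t * 2 ^ (s + 1)))‖) []) :
    ∑ s ∈ Finset.Icc 1 (k - 1), ((2 : ℝ) ^ (k - 1 - s))⁻¹ *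
      ∑ t ∈ Finset.Icc 1 (2 ^ (k - 1 - s)), (a s t) ^ p ≤ P ^ p * B ^ p := by
  have hp0 : 0 ≤ p := by linarith
  -- the inequality with an error
  have step : ∀ ε : ℝ, 0 < ε →
      ∑ s ∈ Finset.Icc 1 (k - 1), ((2 : ℝ) ^ (k - 1 - s))⁻¹ *
      ∑ t ∈ Finset.Icc 1 (2 ^ (k - 1 - s)), (max (a s t - ε) 0) ^ p ≤ P ^ p * B ^ p := by
    intro ε hε
    obtain ⟨φ, hφ⟩ := exists_diag
      ((Finset.Icc 1 (k - 1)).sigma (fun s => Finset.Icc 1 (2 ^ (k - 1 - s))))
      (fun i => i.2 * 2 ^ (i.1 + 1) + 2 ^ i.1)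
      (fun i l => ‖F (l.take (i.2 * 2 ^ (i.1 + 1))) -
          F (l.take (i.2 * 2 ^ (i.1 + 1) - 2 ^ i.1) ++ l.drop (i.2 * 2 ^ (i.1 + 1)))‖)
      (fun i _ => bd_pair hB inc _ _ _) hε
    refine real_umbel hp hP hU hk hB (umbelR_le hp hB inc φ k) (b := fun s t => max (a s t - ε) 0)
      (fun s t => le_max_right _ _) fun s hs t ht n δ η j hn hδ hη hnδ hδj hnj hjη => ?_
    have ht1 : 1 ≤ t := (Finset.mem_Icc.mp ht).1
    have hge : 2 ^ s ≤ t * 2 ^ (s + 1) := by
      calc 2 ^ s ≤ 2 ^ (s + 1) := Nat.pow_le_pow_right (by norm_num) (by omega)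
        _ ≤ t * 2 ^ (s + 1) := Nat.le_mul_of_pos_left _ ht1
    have h2s : 1 ≤ 2 ^ s := Nat.one_le_two_pow
    have hlen : (n.sort ++ (δ.sort ++ ([j] ++ η.sort))).length = t * 2 ^ (s + 1) + 2 ^ s := by
      rw [List.length_append, List.length_append, List.length_append, List.length_singleton,
        Finset.length_sort, Finset.length_sort, Finset.length_sort, hn, hδ, hη]
      omega
    have h5 := hφ ⟨s, t⟩ (Finset.mem_sigma.mpr ⟨hs, ht⟩) _ (inc_tuple hnδ hδj hnj hjη) hlen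
    have h6 := hlow s hs t ht
    have h7 := (abs_le.mp h5).1
    have h8 : (1 : ℝ) ≤ 2 ^ s := one_le_pow₀ (by norm_num)
    have hmax : (2 : ℝ) ^ s * max (a s t - ε) 0 =
        max ((2 : ℝ) ^ s * (a s t - ε)) 0 := by
      rw [mul_max_of_nonneg _ _ (by positivity), mul_zero]
    rw [hmax]
    refine max_le ?_ (norm_nonneg _)
    have h9 : ε ≤ (2 : ℝ) ^ s * ε := le_mul_of_one_le_left hε.le h8
    rw [ff_left F φ hnδ ([j] ++ η.sort) (M := t * 2 ^ (s + 1)) (by rw [hn, hδ]; omega),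
      ff_right F φ hnj hjη δ.sort (N := t * 2 ^ (s + 1) - 2 ^ s) (M := t * 2 ^ (s + 1))
        hn.symm (by rw [hn, Finset.length_sort, hδ]; omega)]
    rw [mul_sub]
    dsimp only at h7
    linarith
  -- let `ε` tend to `0`
  have hlim : Tendsto (fun ε : ℝ => ∑ s ∈ Finset.Icc 1 (k - 1), ((2 : ℝ) ^ (k - 1 - s))⁻¹ *
      ∑ t ∈ Finset.Icc 1 (2 ^ (k - 1 - s)), (max (a s t - ε) 0) ^ p) (𝓝[>] 0)
      (𝓝 (∑ s ∈ Finset.Icc 1 (k - 1), ((2 : ℝ) ^ (k - 1 - s))⁻¹ *
      ∑ t ∈ Finset.Icc 1 (2 ^ (k - 1 - s)), (a s t) ^ p)) := by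
    apply tendsto_nhdsWithin_of_tendsto_nhds
    refine tendsto_finsetSum _ fun s _ => Tendsto.const_mul _
      (tendsto_finsetSum _ fun t _ => ?_)
    have hc : Continuous fun ε : ℝ => (max (a s t - ε) 0) ^ p :=
      (((continuous_const.sub continuous_id).max continuous_const)).rpow_const
        fun _ => Or.inr hp0
    have := hc.tendsto 0
    simpa [max_eq_left (ha s t)] using this
  refine le_of_tendsto hlim ?_
  filter_upwards [self_mem_nhdsWithin] with ε hε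
  exact step ε hε

end Pool.Agent.H53.Umb
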